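import Mathlib.LinearAlgebra.SymplecticGroup
import Mathlib.Analysis.SpecialFunctions.Trigonometric.Basic
import Mathlib.Analysis.Calculus.FDeriv.Defs
import Mathlib.Analysis.CStarAlgebra.Classes

set_option autoImplicit false

/-! Vector-valued Siegel cusp forms of degree two on the paramodular group, and `T(q)`. -/

namespace Pool.Agent.MP_660ce2_nt

open Matrix

/-- complex 2 by 2 matrices -/
abbrev M2 : Type := Matrix (Fin 2) (Fin 2) ℂ

/-- rational 4 by 4 matrices in 2 by 2 blocks `(A B; C D)` -/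
abbrev M4 : Type := Matrix (Fin 2 ⊕ Fin 2) (Fin 2 ⊕ Fin 2) ℚ

/-- functions of `Z` with values in functions of `u = (u 0, u 1)`; the values of a modular form
are binary forms of degree `j` in `u`, the model of `Sym^j (ℂ^2)` used here -/
abbrev Fn : Type := M2 → (Fin 2 → ℂ) → ℂ

/-- Siegel upper half space: `Z` symmetric with `Im Z` positive definite -/
def H2 : Set M2 :=
  {Z | Z 1 0 = Z 0 1 ∧ 0 < (Z 0 0).im ∧ (Z 0 1).im ^ 2 < (Z 0 0).im * (Z 1 1).im}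

/-- a rational matrix read in `ℂ` -/
def toC (A : Matrix (Fin 2) (Fin 2) ℚ) : M2 := A.map (fun x => (x : ℂ))

/-- `C Z + D` -/
noncomputable def autF (g : M4) (Z : M2) : M2 := toC g.toBlocks₂₁ * Z + toC g.toBlocks₂₂

/-- `(A Z + B) (C Z + D)⁻¹` -/
noncomputable def act (g : M4) (Z : M2) : M2 :=
  (toC g.toBlocks₁₁ * Z + toC g.toBlocks₁₂) * (autF g Z)⁻¹

/-- `(F | g)(Z) = ρ(C Z + D)⁻¹ F(g Z)` for `ρ = Sym^j ⊗ det^k`, acting on binary forms by
`(ρ(h) φ)(u) = det(h)^k φ(u h)` -/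
noncomputable def slash (k : ℕ) (F : Fn) (g : M4) : Fn :=
  fun Z u => ((autF g Z).det ^ k)⁻¹ * F (act g Z) (u ᵥ* (autF g Z)⁻¹)

/-- the entry pattern of the paramodular group -/
def pattern (N : ℕ) : M4 :=
  fromBlocks !![1, N; 1, 1] !![1, 1; 1, 1 / N] !![1, N; N, N] !![1, 1; N, 1]

/-- the paramodular group `K(N)`: rational symplectic matrices whose `(i, j)` entry is an integer
multiple of the `(i, j)` entry of `pattern N` -/
def K (N : ℕ) : Set M4 :=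
  {g | g ∈ symplecticGroup (Fin 2) ℚ ∧ ∀ i j, ∃ n : ℤ, g i j = n * pattern N i j}

/-- `F ∈ S_{j,k}(K(N))`: values in binary forms of degree `j`, holomorphic on `H2`, invariant
under `K(N)`, and for every `g ∈ Sp₄(ℚ)` the Fourier expansion of `F | g` is supported on
positive definite `T = (n, r/2; r/2, m) / h` -/
structure IsCuspForm (N j k : ℕ) (F : Fn) : Prop where
  form : ∀ Z ∈ H2, ∃ c : ℕ → ℂ, ∀ u, F Z u =
    ∑ i ∈ Finset.range (j + 1), c i * (u 0 ^ (j - i) * u 1 ^ i)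
  holo : ∀ u, DifferentiableOn ℂ (fun t : ℂ × ℂ × ℂ => F !![t.1, t.2.1; t.2.1, t.2.2] u)
    {t | !![t.1, t.2.1; t.2.1, t.2.2] ∈ H2}
  inv : ∀ g ∈ K N, ∀ Z ∈ H2, slash k F g Z = F Z
  cusp : ∀ g ∈ symplecticGroup (Fin 2) ℚ, ∃ h : ℕ, 0 < h ∧
    ∃ a : ℤ × ℤ × ℤ → (Fin 2 → ℂ) → ℂ,
      (∀ T, a T ≠ 0 → 0 < T.1 ∧ T.2.1 ^ 2 < 4 * T.1 * T.2.2) ∧
      ∀ Z ∈ H2, ∀ u, HasSum (fun T : ℤ × ℤ × ℤ => a T u * Complex.exp (2 * Real.pi * Complex.I *
        ((T.1 * Z 0 0 + T.2.1 * Z 0 1 + T.2.2 * Z 1 1) / h))) (slash k F g Z u)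

/-- the Hecke operator `T(q)` for a prime `q` not dividing the level, in the classical
normalisation `q^(j+2k-3) Σ F | g`, the sum over the standard `q^3 + q^2 + q + 1` representatives
of `K(N) \ K(N) diag(1, 1, q, q) K(N)` -/
noncomputable def heckeT (j k q : ℕ) (F : Fn) : Fn :=
  fun Z u => (q : ℂ) ^ (j + 2 * k - 3) *
    (slash k F (fromBlocks !![q, 0; 0, q] 0 0 1) Z u
    + ∑ a ∈ Finset.range q,
        slash k F (fromBlocks !![1, 0; 0, q] !![a, 0; 0, 0] 0 !![q, 0; 0, 1]) Z u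
    + ∑ a ∈ Finset.range q, ∑ b ∈ Finset.range q,
        slash k F (fromBlocks !![q, 0; -a, 1] !![0, 0; 0, b] 0 !![1, a; 0, q]) Z u
    + ∑ a ∈ Finset.range q, ∑ b ∈ Finset.range q, ∑ c ∈ Finset.range q,
        slash k F (fromBlocks 1 !![a, b; b, c] 0 !![q, 0; 0, q]) Z u)

end Pool.Agent.MP_660ce2_nt
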