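import Mathlib.Topology.Sheaves.Presheaf
import Mathlib.Data.Int.Star
import Mathlib.LinearAlgebra.Vandermonde
import Mathlib.Analysis.Complex.LocallyUniformLimit
import Mathlib.Analysis.Normed.Group.Tannery
import Mathlib.Order.Interval.Finset.Box
import Mathlib.RingTheory.PiTensorProduct
import Mathlib.Topology.Separation.CompletelyRegular
import Mathlib.NumberTheory.ModularForms.JacobiTheta.TwoVariable
import Mathlib.RingTheory.SimpleRing.Principal
import Mathlib.Tactic.Polynomial.Basic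
import Pool.Agent.MP_660ce2_nt.pm.Defs

-- ======== part 0: formerly Pool.Agent.MP_660ce2_nt.pm.Basic
section MrgPart0

set_option autoImplicit false

namespace Pool.Agent.MP_660ce2_nt

open Matrix Complex Filter Topology

noncomputable def e (x : ℂ) : ℂ := exp (2 * Real.pi * I * x)

lemma hs_congr {ι : Type*} {f g : ι → ℂ} {a b : ℂ} (h : HasSum f a) (hf : ∀ i, g i = f i)
    (hb : b = a) : HasSum g b := by
  rw [hb, funext hf]; exact h

lemma e_add (x y : ℂ) : e (x + y) = e x * e y := by simp [e, mul_add, exp_add]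

lemma e_zero : e 0 = 1 := by simp [e]

lemma e_int (n : ℤ) : e n = 1 := by
  rw [e, show 2 * (Real.pi : ℂ) * I * n = n * (2 * Real.pi * I) by ring]
  exact exp_int_mul_two_pi_mul_I n

lemma e_ne (x : ℂ) : e x ≠ 0 := exp_ne_zero _

lemma e_pow (x : ℂ) (n : ℕ) : e x ^ n = e (n * x) := by
  rw [e, e, ← exp_nat_mul]; congr 1; ring

lemma norm_e (x : ℂ) : ‖e x‖ = Real.exp (-2 * Real.pi * x.im) := by
  rw [e, norm_exp]; congr 1; simp

lemma norm_e_real (x : ℝ) : ‖e x‖ = 1 := by rw [norm_e]; simp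

lemma e_sum {ι : Type*} (s : Finset ι) (f : ι → ℂ) : e (∑ i ∈ s, f i) = ∏ i ∈ s, e (f i) := by
  simp [e, Finset.mul_sum, exp_sum]

lemma e_eq_one {x : ℂ} (h : e x = 1) : ∃ n : ℤ, x = n := by
  obtain ⟨n, hn⟩ := exp_eq_one_iff.mp h
  refine ⟨n, ?_⟩
  have h2 : (2 * Real.pi * I : ℂ) ≠ 0 := two_pi_I_ne_zero
  apply mul_left_cancel₀ h2
  rw [hn]; ring

lemma e_div_eq_one {N : ℕ} (hN : 0 < N) {t : ℤ} : e (t / N) = 1 ↔ (N : ℤ) ∣ t := by
  have hN' : (N : ℂ) ≠ 0 := by exact_mod_cast hN.ne'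
  constructor
  · intro h
    obtain ⟨n, hn⟩ := e_eq_one h
    refine ⟨n, ?_⟩
    have : (t : ℂ) = N * n := by rw [← hn]; field_simp
    exact_mod_cast this
  · rintro ⟨n, rfl⟩
    rw [show ((((N : ℤ) * n : ℤ) : ℂ) / N) = (n : ℂ) by push_cast; field_simp]
    exact e_int n

lemma sum_e {N : ℕ} (hN : 0 < N) (t : ℤ) :
    ∑ a ∈ Finset.range N, e (a * t / N) = if (N : ℤ) ∣ t then (N : ℂ) else 0 := by
  have hN' : (N : ℂ) ≠ 0 := by exact_mod_cast hN.ne'
  have h1 : ∀ a : ℕ, e (a * t / N) = e (t / N) ^ a := fun a => by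
    rw [e_pow]; congr 1; ring
  simp_rw [h1]
  split_ifs with h
  · rw [(e_div_eq_one hN).mpr h]; simp
  · have h2 : e (t / N) ≠ 1 := fun h' => h ((e_div_eq_one hN).mp h')
    rw [geom_sum_eq h2, e_pow, show (N : ℂ) * (t / N) = t by field_simp, e_int]
    simp

/-- uniqueness of Fourier coefficients in one variable -/
lemma uniq1 {ι : Type*} {c : ι → ℂ} (hc : Summable c) (φ : ι → ℤ) {h : ℝ} (hh : 0 < h)
    (H : ∀ x : ℝ, ∑' i, c i * e (φ i * x / h) = 0) (n : ℤ) :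
    ∑' i, (if φ i = n then c i else 0) = 0 := by
  have hh' : (h : ℂ) ≠ 0 := by exact_mod_cast hh.ne'
  have hcn := summable_norm_iff.mpr hc
  have key : ∀ N : ℕ, 0 < N → ∑' i, (if (N : ℤ) ∣ φ i - n then c i else 0) = 0 := by
    intro N hN
    have hN' : (N : ℂ) ≠ 0 := by exact_mod_cast hN.ne'
    have hs : ∀ a ∈ Finset.range N,
        Summable fun i => c i * e (a * ((φ i - n : ℤ) : ℂ) / N) := by
      intro a _
      apply Summable.of_norm
      refine hcn.congr fun i => ?_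
      rw [norm_mul, show (a * ((φ i - n : ℤ) : ℂ) / N) = ((a * (φ i - n : ℤ) / N : ℝ) : ℂ) by
        push_cast; ring, norm_e_real, mul_one]
    have h1 : ∑ a ∈ Finset.range N, ∑' i, c i * e (a * ((φ i - n : ℤ) : ℂ) / N) = 0 := by
      refine Finset.sum_eq_zero fun a _ => ?_
      have h2 := H (a * h / N)
      have h3 : ∀ i, c i * e (a * ((φ i - n : ℤ) : ℂ) / N)
          = e (-(a * n / N)) * (c i * e (φ i * ((a * h / N : ℝ) : ℂ) / h)) := by
        intro i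
        rw [mul_left_comm, ← e_add]; congr 2; push_cast; field_simp; ring
      simp_rw [h3]
      rw [tsum_mul_left, h2, mul_zero]
    rw [← Summable.tsum_finsetSum hs] at h1
    simp_rw [← Finset.mul_sum, sum_e hN] at h1
    have h4 : ∀ i, c i * (if (N : ℤ) ∣ φ i - n then (N : ℂ) else 0)
        = N * (if (N : ℤ) ∣ φ i - n then c i else 0) := by
      intro i; split_ifs <;> ring
    simp_rw [h4] at h1
    rw [tsum_mul_left] at h1
    exact (mul_eq_zero.mp h1).resolve_left hN'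
  have lim : Tendsto (fun N : ℕ => ∑' i, (if (N : ℤ) ∣ φ i - n then c i else 0)) atTop
      (𝓝 (∑' i, (if φ i = n then c i else 0))) := by
    refine tendsto_tsum_of_dominated_convergence hcn (fun i => ?_) ?_
    · refine tendsto_const_nhds.congr' ?_
      filter_upwards [eventually_gt_atTop (φ i - n).natAbs] with N hN
      by_cases hi : φ i = n
      · simp [hi]
      · rw [if_neg hi, if_neg]
        intro hd
        have := Int.natAbs_le_of_dvd_ne_zero hd (sub_ne_zero.mpr hi)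
        simp at this; omega
    · refine Eventually.of_forall fun N i => ?_
      split_ifs <;> simp
  refine tendsto_nhds_unique lim (tendsto_const_nhds.congr' ?_)
  filter_upwards [eventually_gt_atTop 0] with N hN using (key N hN).symm

lemma extract {N : ℕ} (c : ℕ → ℂ) {i : ℕ} (hi : i < N) :
    ∑ a ∈ Finset.range N, e (-(a * i / N)) * ∑ n ∈ Finset.range N, c n * e (a / N) ^ n
      = N * c i := by
  have hN : 0 < N := by omega
  simp_rw [Finset.mul_sum]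
  rw [Finset.sum_comm]
  have h1 : ∀ n ∈ Finset.range N, ∑ a ∈ Finset.range N, e (-(a * i / N)) * (c n * e (a / N) ^ n)
      = if n = i then N * c i else 0 := by
    intro n hn
    have h2 : ∀ a : ℕ, e (-(a * i / N)) * (c n * e (a / N) ^ n)
        = c n * e (a * ((n - i : ℤ) : ℂ) / N) := by
      intro a
      rw [mul_left_comm, e_pow, ← e_add]; congr 2; push_cast; ring
    simp_rw [h2]
    rw [← Finset.mul_sum, sum_e hN]
    by_cases h : n = i
    · subst h; simp [mul_comm]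
    · rw [if_neg h, if_neg, mul_zero]
      intro hd
      have h3 : ((n : ℤ) - i) ≠ 0 := by omega
      have := Int.natAbs_le_of_dvd_ne_zero hd h3
      have := Finset.mem_range.mp hn
      simp at *; omega
  rw [Finset.sum_congr rfl h1, Finset.sum_ite_eq' , if_pos (Finset.mem_range.mpr hi)]

def IsForm (j : ℕ) (φ : (Fin 2 → ℂ) → ℂ) : Prop :=
  ∃ c : ℕ → ℂ, ∀ u, φ u = ∑ i ∈ Finset.range (j + 1), c i * (u 0 ^ (j - i) * u 1 ^ i)

noncomputable def comp (j i : ℕ) (φ : (Fin 2 → ℂ) → ℂ) : ℂ :=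
  (1 / ((j + 1 : ℕ) : ℂ)) * ∑ a ∈ Finset.range (j + 1),
    e (-(a * i / ((j + 1 : ℕ) : ℂ))) * φ ![1, e (a / ((j + 1 : ℕ) : ℂ))]

lemma comp_eq {j i : ℕ} (hi : i ≤ j) {φ : (Fin 2 → ℂ) → ℂ} {c : ℕ → ℂ}
    (h : ∀ u, φ u = ∑ i ∈ Finset.range (j + 1), c i * (u 0 ^ (j - i) * u 1 ^ i)) :
    comp j i φ = c i := by
  have hN' : ((j + 1 : ℕ) : ℂ) ≠ 0 := by exact_mod_cast Nat.succ_ne_zero j
  unfold comp
  simp_rw [h]
  simp only [cons_val_zero, one_pow, one_mul, cons_val_one]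
  rw [extract c (Nat.lt_succ_of_le hi)]
  field_simp

lemma IsForm.eq {j : ℕ} {φ : (Fin 2 → ℂ) → ℂ} (h : IsForm j φ) (u : Fin 2 → ℂ) :
    φ u = ∑ i ∈ Finset.range (j + 1), comp j i φ * (u 0 ^ (j - i) * u 1 ^ i) := by
  obtain ⟨c, hc⟩ := h
  rw [hc u]
  refine Finset.sum_congr rfl fun i hi => ?_
  rw [comp_eq (Nat.lt_succ_iff.mp (Finset.mem_range.mp hi)) hc]

lemma hasSum_comp {ι : Type*} (j i : ℕ) {f : ι → (Fin 2 → ℂ) → ℂ} {g : ι → ℂ}
    {φ : (Fin 2 → ℂ) → ℂ} (h : ∀ u, HasSum (fun t => f t u * g t) (φ u)) :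
    HasSum (fun t => comp j i (f t) * g t) (comp j i φ) := by
  unfold comp
  have := (hasSum_sum (s := Finset.range (j + 1)) fun a _ =>
    (h ![1, e (a / ((j + 1 : ℕ) : ℂ))]).mul_left (e (-(a * i / ((j + 1 : ℕ) : ℂ))))).mul_left
      (1 / ((j + 1 : ℕ) : ℂ))
  refine hs_congr this (fun t => ?_) rfl
  rw [mul_assoc, Finset.sum_mul]
  congr 1
  exact Finset.sum_congr rfl fun a _ => by ring

lemma IsForm.hasSum {ι : Type*} {j : ℕ} {f : ι → (Fin 2 → ℂ) → ℂ} {g : ι → ℂ}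
    {φ : (Fin 2 → ℂ) → ℂ} (hf : ∀ t, IsForm j (f t))
    (h : ∀ u, HasSum (fun t => f t u * g t) (φ u)) : IsForm j φ := by
  refine ⟨fun i => comp j i φ, fun u => (h u).unique ?_⟩
  have := hasSum_sum (s := Finset.range (j + 1)) fun i _ =>
    (hasSum_comp j i h).mul_right (u 0 ^ (j - i) * u 1 ^ i)
  refine hs_congr this (fun t => ?_) rfl
  rw [(hf t).eq u, Finset.sum_mul]
  exact Finset.sum_congr rfl fun i _ => by ring

lemma IsForm.zero (j : ℕ) : IsForm j 0 := ⟨0, by simp⟩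

lemma IsForm.add {j : ℕ} {φ ψ : (Fin 2 → ℂ) → ℂ} (h : IsForm j φ) (h' : IsForm j ψ) :
    IsForm j (φ + ψ) := by
  obtain ⟨c, hc⟩ := h
  obtain ⟨d, hd⟩ := h'
  exact ⟨c + d, fun u => by simp [hc, hd, add_mul, Finset.sum_add_distrib]⟩

lemma IsForm.smul {j : ℕ} {φ : (Fin 2 → ℂ) → ℂ} (h : IsForm j φ) (a : ℂ) :
    IsForm j (a • φ) := by
  obtain ⟨c, hc⟩ := h
  exact ⟨a • c, fun u => by simp [hc, Finset.mul_sum, mul_assoc]⟩

lemma IsForm.sum {ι : Type*} {j : ℕ} (s : Finset ι) {f : ι → (Fin 2 → ℂ) → ℂ}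
    (h : ∀ t ∈ s, IsForm j (f t)) : IsForm j (fun u => ∑ t ∈ s, f t u) := by
  have : (fun u => ∑ t ∈ s, f t u) = ∑ t ∈ s, f t := by ext u; simp
  rw [this]
  exact Finset.sum_induction f (IsForm j) (fun _ _ => IsForm.add) (IsForm.zero j) h

lemma IsForm.hom {j : ℕ} {φ : (Fin 2 → ℂ) → ℂ} (h : IsForm j φ) (t a b : ℂ) :
    φ ![t * a, t * b] = t ^ j * φ ![a, b] := by
  obtain ⟨c, hc⟩ := h
  rw [hc, hc, Finset.mul_sum]
  refine Finset.sum_congr rfl fun i hi => ?_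
  have hi' := Nat.lt_succ_iff.mp (Finset.mem_range.mp hi)
  have : t ^ j = t ^ (j - i) * t ^ i := by rw [← pow_add]; congr 1; omega
  simp only [cons_val_zero, cons_val_one, mul_pow, this]; ring

lemma isForm_pow (j : ℕ) (a b : ℂ) : IsForm j (fun u => (u 0 * a + u 1 * b) ^ j) := by
  refine ⟨fun i => a ^ (j - i) * b ^ i * j.choose i, fun u => ?_⟩
  show (u 0 * a + u 1 * b) ^ j = _
  rw [add_comm (u 0 * a), add_pow]
  exact Finset.sum_congr rfl fun i _ => by rw [mul_pow, mul_pow]; ring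

lemma IsForm.eq_zero {j : ℕ} {φ : (Fin 2 → ℂ) → ℂ} (h : IsForm j φ)
    (h0 : ∀ a b : ℤ, φ ![a, b] = 0) : φ = 0 := by
  obtain ⟨c, hc⟩ := h
  have : (fun i : Fin (j + 1) => c i) = 0 := by
    apply eq_zero_of_forall_index_sum_mul_pow_eq_zero (f := fun i : Fin (j + 1) => ((i : ℕ) : ℂ))
    · intro a b hab
      exact Fin.ext (Nat.cast_injective (R := ℂ) hab)
    · intro t
      have := h0 1 (t : ℕ)
      rw [hc, Finset.sum_range] at this
      simpa using this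
  ext u
  rw [hc, Finset.sum_range]
  refine Finset.sum_eq_zero fun i _ => ?_
  rw [show c i = 0 from congrFun this i, zero_mul]

end Pool.Agent.MP_660ce2_nt

end MrgPart0

-- ======== part 1: formerly Pool.Agent.MP_660ce2_nt.pm.Lat
section MrgPart1

set_option autoImplicit false

namespace Pool.Agent.MP_660ce2_nt

open Matrix

abbrev V : Type := Fin 8 → ℤ
abbrev VC : Type := Fin 8 → ℂ

/-- `L` with the form `x ⬝ y / s` is even unimodular -/
structure EU (L : AddSubgroup V) (s : ℕ) : Prop where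
  pos : 0 < s
  even : ∀ x ∈ L, 2 * (s : ℤ) ∣ x ⬝ᵥ x
  dual : ∀ y : V, (∀ x ∈ L, (s : ℤ) ∣ x ⬝ᵥ y) → y ∈ L

lemma dvd_dot_of_even {L : AddSubgroup V} {s : ℤ} (h : ∀ x ∈ L, 2 * s ∣ x ⬝ᵥ x) {x y : V}
    (hx : x ∈ L) (hy : y ∈ L) : s ∣ x ⬝ᵥ y := by
  have h1 := dvd_sub (dvd_sub (h _ (L.add_mem hx hy)) (h _ hx)) (h _ hy)
  have h2 : (x + y) ⬝ᵥ (x + y) - x ⬝ᵥ x - y ⬝ᵥ y = 2 * (x ⬝ᵥ y) := by
    rw [add_dotProduct, dotProduct_add, dotProduct_add, dotProduct_comm y x]; ring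
  rw [h2] at h1
  exact (mul_dvd_mul_iff_left two_ne_zero).mp h1

lemma EU.dvd {L : AddSubgroup V} {s : ℕ} (h : EU L s) {x y : V} (hx : x ∈ L) (hy : y ∈ L) :
    (s : ℤ) ∣ x ⬝ᵥ y := dvd_dot_of_even h.even hx hy

lemma EU.smul_mem {L : AddSubgroup V} {s : ℕ} (h : EU L s) (y : V) : (s : ℤ) • y ∈ L :=
  h.dual _ fun x _ => by rw [dotProduct_smul]; exact dvd_mul_right _ _

lemma EU.smul_mem_sub {L N : AddSubgroup V} {s a : ℕ} (h : EU L s) (hN : EU N (a * s))
    (hle : N ≤ L) {y : V} (hy : y ∈ L) : (a : ℤ) • y ∈ N :=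
  hN.dual _ fun x hx => by
    rw [dotProduct_smul, smul_eq_mul]; push_cast
    exact mul_dvd_mul_left _ (h.dvd (hle hx) hy)

lemma EU.inter {L N1 N2 : AddSubgroup V} {s a b : ℕ} (h : EU L s) (h1 : EU N1 (a * s))
    (h2 : EU N2 (b * s)) (l1 : N1 ≤ L) (l2 : N2 ≤ L) (hab : Nat.Coprime a b) :
    EU (N1 ⊓ N2) (a * (b * s)) := by
  have hs : (s : ℤ) ≠ 0 := by exact_mod_cast h.pos.ne'
  have ha : (a : ℤ) ≠ 0 := by
    have := h1.pos; intro h0; have : a = 0 := by exact_mod_cast h0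
    simp_all
  have hb : (b : ℤ) ≠ 0 := by
    have := h2.pos; intro h0; have : b = 0 := by exact_mod_cast h0
    simp_all
  refine ⟨Nat.mul_pos (Nat.pos_of_ne_zero (by exact_mod_cast ha)) h2.pos, ?_, ?_⟩
  · rintro x ⟨hx1, hx2⟩
    obtain ⟨t, ht⟩ := h.even x (l1 hx1)
    have e1 := h1.even x hx1
    have e2 := h2.even x hx2
    rw [ht] at e1 e2 ⊢
    push_cast at e1 e2 ⊢
    have h2s : 2 * (s : ℤ) ≠ 0 := mul_ne_zero two_ne_zero hs
    rw [show 2 * ((a : ℤ) * s) = 2 * s * a by ring, mul_dvd_mul_iff_left h2s] at e1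
    rw [show 2 * ((b : ℤ) * s) = 2 * s * b by ring, mul_dvd_mul_iff_left h2s] at e2
    rw [show 2 * ((a : ℤ) * (b * s)) = 2 * s * (a * b) by ring, mul_dvd_mul_iff_left h2s]
    exact IsCoprime.mul_dvd (Nat.isCoprime_iff_coprime.mpr hab) e1 e2
  · intro y hy
    constructor
    · refine h1.dual y fun x hx => ?_
      have := hy ((b : ℤ) • x) ⟨N1.zsmul_mem hx _, h.smul_mem_sub h2 l2 (l1 hx)⟩
      rw [smul_dotProduct, smul_eq_mul] at this
      push_cast at this ⊢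
      rwa [mul_left_comm, mul_dvd_mul_iff_left hb] at this
    · refine h2.dual y fun x hx => ?_
      have := hy ((a : ℤ) • x) ⟨h.smul_mem_sub h1 l1 (l2 hx), N2.zsmul_mem hx _⟩
      rw [smul_dotProduct, smul_eq_mul] at this
      push_cast at this ⊢
      rwa [mul_dvd_mul_iff_left ha] at this

/-- `y ∈ q L` -/
def dv (L : AddSubgroup V) (q : ℕ) (y : V) : Prop := ∃ x ∈ L, y = (q : ℤ) • x

/-- the lattice `q L` -/
def sc (L : AddSubgroup V) (q : ℕ) : AddSubgroup V where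
  carrier := {y | dv L q y}
  add_mem' := by
    rintro _ _ ⟨x, hx, rfl⟩ ⟨y, hy, rfl⟩
    exact ⟨x + y, L.add_mem hx hy, by rw [smul_add]⟩
  zero_mem' := ⟨0, L.zero_mem, by simp⟩
  neg_mem' := by
    rintro _ ⟨x, hx, rfl⟩
    exact ⟨-x, L.neg_mem hx, by rw [smul_neg]⟩

lemma mem_sc {L : AddSubgroup V} {q : ℕ} {y : V} : y ∈ sc L q ↔ dv L q y := Iff.rfl

lemma sc_le (L : AddSubgroup V) (q : ℕ) : sc L q ≤ L := by
  rintro _ ⟨x, hx, rfl⟩; exact L.zsmul_mem hx _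

lemma EU.sc {L : AddSubgroup V} {s q : ℕ} (h : EU L s) (hq : 0 < q) :
    EU (sc L q) (q * (q * s)) := by
  have hs : (s : ℤ) ≠ 0 := by exact_mod_cast h.pos.ne'
  have hq' : (q : ℤ) ≠ 0 := by exact_mod_cast hq.ne'
  refine ⟨Nat.mul_pos hq (Nat.mul_pos hq h.pos), ?_, ?_⟩
  · rintro _ ⟨x, hx, rfl⟩
    obtain ⟨t, ht⟩ := h.even x hx
    exact ⟨t, by rw [smul_dotProduct, dotProduct_smul, ht]; push_cast; simp only [smul_eq_mul]; ring⟩
  · intro y hy
    have h1 : ∀ x ∈ L, (q : ℤ) * s ∣ x ⬝ᵥ y := by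
      intro x hx
      have := hy _ ⟨x, hx, rfl⟩
      rw [smul_dotProduct, smul_eq_mul] at this
      push_cast at this
      rwa [mul_dvd_mul_iff_left hq'] at this
    have h2 : ∀ i, (q : ℤ) ∣ y i := by
      intro i
      have := h1 _ (h.smul_mem (Pi.single i 1))
      rw [smul_dotProduct, smul_eq_mul, single_dotProduct, one_mul, mul_comm,
        mul_dvd_mul_iff_left hs] at this
      exact this
    choose z hz using h2
    have hy' : y = (q : ℤ) • z := funext fun i => hz i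
    refine ⟨z, h.dual z fun x hx => ?_, hy'⟩
    have := h1 x hx
    rwa [hy', dotProduct_smul, smul_eq_mul, mul_dvd_mul_iff_left hq'] at this

lemma dv_iff_of_cop {L N : AddSubgroup V} {s a q : ℕ} (h : EU L s) (hN : EU N (a * s))
    (hle : N ≤ L) (hc : Nat.Coprime a q) {y : V} (hy : y ∈ N) : dv N q y ↔ dv L q y := by
  constructor
  · rintro ⟨x, hx, rfl⟩; exact ⟨x, hle hx, rfl⟩
  · rintro ⟨x, hx, rfl⟩
    refine ⟨x, ?_, rfl⟩
    obtain ⟨c, d, hcd⟩ := Nat.isCoprime_iff_coprime.mpr hc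
    have : x = c • ((a : ℤ) • x) + d • ((q : ℤ) • x) := by
      rw [smul_smul, smul_smul, ← add_smul, hcd, one_smul]
    rw [this]
    exact N.add_mem (N.zsmul_mem (h.smul_mem_sub hN hle hx) _) (N.zsmul_mem hy _)

/-- `L` has a Lagrangian modulo every prime -/
def Lag (L : AddSubgroup V) (s : ℕ) : Prop :=
  ∀ q : ℕ, q.Prime → ∃ N ≤ L, EU N (q * s)

lemma Lag.sub {L N : AddSubgroup V} {s p : ℕ} (h : EU L s) (hl : Lag L s) (hp : p.Prime)
    (hN : EU N (p * s)) (hle : N ≤ L) : Lag N (p * s) := by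
  intro q hq
  by_cases hqp : q = p
  · subst hqp
    refine ⟨sc L q, ?_, h.sc hq.pos⟩
    rintro _ ⟨x, hx, rfl⟩
    exact h.smul_mem_sub hN hle hx
  · obtain ⟨N', hle', hN'⟩ := hl q hq
    exact ⟨N' ⊓ N, inf_le_right,
      h.inter hN' hN hle' hle ((Nat.coprime_primes hq hp).mpr hqp)⟩

/-- admissible pairs at level `N` -/
structure Adm (N : ℕ) (L M : AddSubgroup V) (s : ℕ) : Prop where
  hL : EU L s
  hM : EU M (N * s)
  le : M ≤ L
  lag : Lag L s

lemma Adm.nb {p q s : ℕ} {L M N : AddSubgroup V} (h : Adm p L M s) (hq : q.Prime)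
    (hc : Nat.Coprime q p) (hN : EU N (q * s)) (hle : N ≤ L) : Adm p N (N ⊓ M) (q * s) :=
  ⟨hN, by rw [mul_left_comm]; exact h.hL.inter hN h.hM hle h.le hc, inf_le_left,
    Lag.sub h.hL h.lag hq hN hle⟩

lemma dot_self_nonneg (x : V) : 0 ≤ x ⬝ᵥ x :=
  Finset.sum_nonneg fun i _ => mul_self_nonneg (x i)

lemma sq_le_dot (x : V) (i : Fin 8) : x i * x i ≤ x ⬝ᵥ x :=
  Finset.single_le_sum (f := fun i => x i * x i) (fun i _ => mul_self_nonneg (x i))
    (Finset.mem_univ i)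

lemma finite_sph (n : ℤ) : {x : V | x ⬝ᵥ x = n}.Finite := by
  refine (Set.Finite.pi' fun _ : Fin 8 => Set.finite_Icc (-n) n).subset fun x hx i => ?_
  have := sq_le_dot x i
  rw [show x ⬝ᵥ x = n from hx] at this
  constructor <;> nlinarith [mul_self_nonneg (x i + 1), mul_self_nonneg (x i - 1),
    mul_self_nonneg (x i), sq_nonneg (2 * x i + 1), sq_nonneg (2 * x i - 1)]

open Classical in
/-- vectors of `L` of norm `n` -/
noncomputable def sph (L : AddSubgroup V) (n : ℤ) : Finset V :=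
  (finite_sph n).toFinset.filter (· ∈ L)

lemma mem_sph {L : AddSubgroup V} {n : ℤ} {x : V} : x ∈ sph L n ↔ x ∈ L ∧ x ⬝ᵥ x = n := by
  simp [sph, and_comm]

abbrev T3 : Type := ℤ × ℤ × ℤ

noncomputable def fib (L M : AddSubgroup V) (s : ℕ) (T : T3) : Finset (V × V) :=
  (sph L (2 * s * T.1) ×ˢ sph M (2 * s * T.2.2)).filter fun x => x.1 ⬝ᵥ x.2 = s * T.2.1

lemma mem_fib {L M : AddSubgroup V} {s : ℕ} {T : T3} {x : V × V} :
    x ∈ fib L M s T ↔ x.1 ∈ L ∧ x.2 ∈ M ∧ x.1 ⬝ᵥ x.1 = 2 * s * T.1 ∧ x.1 ⬝ᵥ x.2 = s * T.2.1 ∧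
      x.2 ⬝ᵥ x.2 = 2 * s * T.2.2 := by
  simp only [fib, Finset.mem_filter, Finset.mem_product, mem_sph]; tauto

def cx (x : V) : VC := fun i => (x i : ℂ)

@[simp] lemma cx_add (x y : V) : cx (x + y) = cx x + cx y := by ext i; simp [cx]
@[simp] lemma cx_sub (x y : V) : cx (x - y) = cx x - cx y := by ext i; simp [cx]
@[simp] lemma cx_neg (x : V) : cx (-x) = -cx x := by ext i; simp [cx]
@[simp] lemma cx_zero : cx 0 = 0 := by ext i; simp [cx]
@[simp] lemma cx_smul (a : ℤ) (x : V) : cx (a • x) = (a : ℂ) • cx x := by ext i; simp [cx]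
lemma cx_dot (x y : V) : cx x ⬝ᵥ cx y = ((x ⬝ᵥ y : ℤ) : ℂ) := by simp [cx, dotProduct]

abbrev Arr : Type := T3 → (Fin 2 → ℂ) → ℂ

/-- Fourier coefficients of the theta series of the pair `(L, M)` with coefficient `P` -/
noncomputable def arr (L M : AddSubgroup V) (s : ℕ) (P : VC → ℂ) : Arr :=
  fun T u => ∑ x ∈ fib L M s T, P (u 0 • cx x.1 + u 1 • cx x.2)

/-- harmonic polynomials of degree `ν` -/
def Harm (ν : ℕ) : Submodule ℂ (VC → ℂ) :=
  Submodule.span ℂ {P | ∃ a : VC, a ⬝ᵥ a = 0 ∧ P = fun x => (a ⬝ᵥ x) ^ ν}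

lemma Harm.hom {ν : ℕ} {P : VC → ℂ} (h : P ∈ Harm ν) (t : ℂ) (x : VC) :
    P (t • x) = t ^ ν * P x := by
  induction h using Submodule.span_induction with
  | mem P hP => obtain ⟨a, -, rfl⟩ := hP; simp [mul_pow]
  | zero => simp
  | add P Q _ _ h1 h2 => simp [h1, h2, mul_add]
  | smul c P _ h1 => simp [h1, mul_left_comm]

lemma Harm.isForm {ν : ℕ} {P : VC → ℂ} (h : P ∈ Harm ν) (x y : VC) :
    IsForm ν (fun u => P (u 0 • x + u 1 • y)) := by
  induction h using Submodule.span_induction with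
  | mem P hP =>
    obtain ⟨a, -, rfl⟩ := hP
    simpa using isForm_pow ν (a ⬝ᵥ x) (a ⬝ᵥ y)
  | zero => exact IsForm.zero ν
  | add P Q _ _ h1 h2 => exact h1.add h2
  | smul c P _ h1 => exact h1.smul c

lemma arr_isForm (L M : AddSubgroup V) (s : ℕ) {P : VC → ℂ} (h : P ∈ Harm 8) (T : T3) :
    IsForm 8 (arr L M s P T) := IsForm.sum _ fun _ _ => Harm.isForm h _ _

/-- the span of the theta series of level `N` -/
def W (N : ℕ) : Submodule ℂ Arr :=
  Submodule.span ℂ {A | ∃ L M s a, Adm N L M s ∧ a ⬝ᵥ a = 0 ∧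
    A = arr L M s fun x => (a ⬝ᵥ x) ^ 8}

lemma arr_mem_W {N s : ℕ} {L M : AddSubgroup V} (h : Adm N L M s) {P : VC → ℂ}
    (hP : P ∈ Harm 8) : arr L M s P ∈ W N := by
  induction hP using Submodule.span_induction with
  | mem P hP => obtain ⟨a, ha, rfl⟩ := hP; exact Submodule.subset_span ⟨L, M, s, a, h, ha, rfl⟩
  | zero => convert (W N).zero_mem; ext T u; simp [arr]
  | add P Q _ _ h1 h2 =>
    convert (W N).add_mem h1 h2; ext T u; simp [arr, Finset.sum_add_distrib]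
  | smul c P _ h1 => convert (W N).smul_mem c h1; ext T u; simp [arr, Finset.mul_sum]

lemma pow_mem_harm {ν : ℕ} {a : VC} (ha : a ⬝ᵥ a = 0) : (fun x => (a ⬝ᵥ x) ^ ν) ∈ Harm ν :=
  Submodule.subset_span ⟨a, ha, rfl⟩

end Pool.Agent.MP_660ce2_nt

end MrgPart1

-- ======== part 2: formerly Pool.Agent.MP_660ce2_nt.pm.Gauss
section MrgPart2

set_option autoImplicit false

namespace Pool.Agent.MP_660ce2_nt

open Matrix Complex Filter Topology

lemma pi_hasSum {n : ℕ} (f : Fin n → ℤ → ℂ) (hf : ∀ i, Summable (f i)) :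
    HasSum (fun x : Fin n → ℤ => ∏ i, f i (x i)) (∏ i, ∑' t, f i t) := by
  induction n with
  | zero => simp
  | succ n ih =>
    have h1 := ih (fun i => f i.succ) (fun i => hf i.succ)
    have h3 : Summable fun x : ℤ × (Fin n → ℤ) => f 0 x.1 * ∏ i : Fin n, f i.succ (x.2 i) :=
      summable_mul_of_summable_norm (f := f 0)
        (g := fun x : Fin n → ℤ => ∏ i : Fin n, f i.succ (x i)) (summable_norm_iff.mpr (hf 0))
        (summable_norm_iff.mpr h1.summable)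
    have h2 := HasSum.mul (f := f 0) (g := fun x : Fin n → ℤ => ∏ i : Fin n, f i.succ (x i))
      (hf 0).hasSum h1 h3
    rw [← (Fin.consEquiv fun _ : Fin (n + 1) => ℤ).hasSum_iff]
    refine hs_congr h2 (fun x => ?_) (Fin.prod_univ_succ _)
    simp [Fin.prod_univ_succ, Fin.consEquiv]

noncomputable def n1 (x : V) : ℝ := ∑ i, |(x i : ℝ)|

lemma n1_nonneg (x : V) : 0 ≤ n1 x := Finset.sum_nonneg fun _ _ => abs_nonneg _

lemma summable_base {δ : ℝ} (hδ : 0 < δ) (C : ℝ) :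
    Summable fun x : V => Real.exp (-δ * (x ⬝ᵥ x : ℤ) + C * n1 x) := by
  have h1 : Summable fun t : ℤ => Real.exp (-δ * (t * t) + C * |(t : ℝ)|) := by
    have := summable_pow_mul_jacobiTheta₂_term_bound (C / (2 * Real.pi))
      (div_pos hδ Real.pi_pos) 0
    refine this.congr fun t => ?_
    rw [pow_zero, one_mul]; congr 1
    have := Real.pi_pos.ne'
    push_cast; field_simp; ring
  have h2 := pi_hasSum (n := 8) (fun _ t => ((Real.exp (-δ * (t * t) + C * |(t : ℝ)|) : ℝ) : ℂ))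
    (fun _ => summable_ofReal.mpr h1)
  have h3 := h2.summable
  simp_rw [← ofReal_prod] at h3
  refine (summable_ofReal.mp h3).congr fun x => ?_
  rw [← Real.exp_sum]; congr 1
  simp [n1, dotProduct, Finset.sum_add_distrib, Finset.mul_sum]

lemma norm_dot_le (a : VC) (x : V) : ‖a ⬝ᵥ cx x‖ ≤ ‖a‖ * n1 x := by
  unfold dotProduct n1
  rw [Finset.mul_sum]
  refine (norm_sum_le _ _).trans (Finset.sum_le_sum fun i _ => ?_)
  rw [norm_mul, cx, norm_intCast]
  exact mul_le_mul_of_nonneg_right (norm_le_pi_norm a i) (abs_nonneg _)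

lemma norm_e_le (w : ℂ) : ‖e w‖ ≤ Real.exp (2 * Real.pi * ‖w‖) := by
  rw [norm_e]
  apply Real.exp_le_exp.mpr
  have := (abs_le.mp (abs_im_le_norm w)).1
  nlinarith [Real.pi_pos]

/-- the Gaussian -/
noncomputable def gt (α : ℂ) (w : VC) (x : V) : ℂ := e (α * ((x ⬝ᵥ x : ℤ) : ℂ) + w ⬝ᵥ cx x)

lemma norm_gt_le (α : ℂ) (w : VC) (x : V) :
    ‖gt α w x‖ ≤ Real.exp (-(2 * Real.pi * α.im) * (x ⬝ᵥ x : ℤ) + 2 * Real.pi * ‖w‖ * n1 x) := by
  rw [gt, e_add, norm_mul, Real.exp_add]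
  refine mul_le_mul (le_of_eq ?_) ((norm_e_le _).trans ?_) (norm_nonneg _) (Real.exp_pos _).le
  · rw [norm_e]; congr 1; simp; ring
  · apply Real.exp_le_exp.mpr
    rw [mul_assoc (2 * Real.pi)]
    exact mul_le_mul_of_nonneg_left (norm_dot_le w x) (by positivity)

lemma summable_gt {α : ℂ} (hα : 0 < α.im) (w : VC) (R : ℝ) :
    Summable fun x => ‖gt α w x‖ * Real.exp (R * n1 x) := by
  refine Summable.of_nonneg_of_le (fun x => by positivity) (fun x => ?_)
    (summable_base (δ := 2 * Real.pi * α.im) (by positivity) (2 * Real.pi * ‖w‖ + R))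
  refine (mul_le_mul_of_nonneg_right (norm_gt_le α w x) (Real.exp_pos _).le).trans (le_of_eq ?_)
  rw [← Real.exp_add]; congr 1; ring

lemma summable_gt' {α : ℂ} (hα : 0 < α.im) (w : VC) : Summable (gt α w) := by
  apply Summable.of_norm
  simpa using summable_gt hα w 0

lemma gt_eq_prod (τ : ℂ) (w : VC) (x : V) :
    gt (τ / 2) w x = ∏ i, jacobiTheta₂_term (x i) (w i) τ := by
  simp only [gt, jacobiTheta₂_term, e, ← exp_sum]
  congr 1
  simp only [dotProduct, cx, Finset.mul_sum, mul_add, Finset.sum_add_distrib]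
  push_cast
  rw [add_comm, Finset.mul_sum, Finset.mul_sum]
  congr 1 <;> exact Finset.sum_congr rfl fun i _ => by ring

lemma tsum_gt {τ : ℂ} (hτ : 0 < τ.im) (w : VC) :
    ∑' x, gt (τ / 2) w x = ∏ i, jacobiTheta₂ (w i) τ := by
  simp_rw [gt_eq_prod]
  exact (pi_hasSum (fun i t => jacobiTheta₂_term t (w i) τ)
    fun i => (summable_jacobiTheta₂_term_iff _ _).mpr hτ).tsum_eq

lemma im_neg_inv {τ : ℂ} (hτ : 0 < τ.im) : 0 < (-1 / τ).im := by
  have h0 : τ ≠ 0 := by rintro rfl; simp at hτ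
  rw [neg_div, neg_im, one_div, inv_im, neg_div, neg_neg]
  exact div_pos hτ (normSq_pos.mpr h0)

/-- Poisson summation on `ℤ^8` -/
lemma poissonZ {τ : ℂ} (hτ : 0 < τ.im) (w : VC) :
    τ ^ 4 * ∑' x, gt (τ / 2) w x
      = e (-(w ⬝ᵥ w) / (2 * τ)) * ∑' x, gt ((-1 / τ) / 2) (τ⁻¹ • w) x := by
  have h0 : τ ≠ 0 := by rintro rfl; simp at hτ
  rw [tsum_gt hτ, tsum_gt (im_neg_inv hτ)]
  simp_rw [fun i => jacobiTheta₂_functional_equation (w i) τ]
  rw [Finset.prod_mul_distrib, Finset.prod_mul_distrib, Finset.prod_const, Finset.card_univ,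
    Fintype.card_fin, ← exp_sum]
  have h1 : (1 / (-I * τ) ^ (1 / 2 : ℂ)) ^ 8 = 1 / τ ^ 4 := by
    have hne : -I * τ ≠ 0 := mul_ne_zero (neg_ne_zero.mpr I_ne_zero) h0
    rw [div_pow, one_pow, ← cpow_nat_mul]
    congr 1
    rw [show ((8 : ℕ) : ℂ) * (1 / 2) = ((4 : ℕ) : ℂ) by push_cast; ring, cpow_natCast, mul_pow]
    simp [show (-I) ^ 4 = 1 by rw [show (4 : ℕ) = 2 * 2 by rfl, pow_mul]; simp]
  rw [h1]
  have h2 : exp (∑ i, -Real.pi * I * w i ^ 2 / τ) = e (-(w ⬝ᵥ w) / (2 * τ)) := by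
    rw [e]; congr 1
    simp only [dotProduct, ← Finset.sum_neg_distrib, Finset.sum_div, Finset.mul_sum]
    exact Finset.sum_congr rfl fun i _ => by field_simp
  rw [h2]
  have h3 : ∀ i, w i / τ = (τ⁻¹ • w) i := fun i => by simp [div_eq_inv_mul]
  simp_rw [h3]
  field_simp

open Classical in
noncomputable def ind (L : AddSubgroup V) (x : V) : ℂ := if x ∈ L then 1 else 0

lemma norm_ind_le (L : AddSubgroup V) (x : V) : ‖ind L x‖ ≤ 1 := by
  unfold ind; split_ifs <;> simp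

noncomputable def box (s : ℕ) : Finset V := Fintype.piFinset fun _ => Finset.Ico (0 : ℤ) s

open Classical in
noncomputable def boxL (L : AddSubgroup V) (s : ℕ) : Finset V := (box s).filter (· ∈ L)

def red (s : ℕ) (x : V) : V := fun i => x i % s

lemma red_eq (s : ℕ) (x : V) : red s x = x - (s : ℤ) • fun i => x i / s := by
  ext i; simp [red, Int.emod_def]

lemma mem_box {s : ℕ} {x : V} : x ∈ box s ↔ ∀ i, 0 ≤ x i ∧ x i < s := by
  simp [box, Fintype.mem_piFinset]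

lemma red_mem_box {s : ℕ} (hs : 0 < s) (x : V) : red s x ∈ box s :=
  mem_box.mpr fun _ => ⟨Int.emod_nonneg _ (by omega), Int.emod_lt_of_pos _ (by omega)⟩

lemma red_of_mem {s : ℕ} {x : V} (hx : x ∈ box s) : red s x = x :=
  funext fun i => Int.emod_eq_of_lt (mem_box.mp hx i).1 (mem_box.mp hx i).2

lemma mem_boxL {L : AddSubgroup V} {s : ℕ} {x : V} : x ∈ boxL L s ↔ x ∈ box s ∧ x ∈ L := by
  simp [boxL]

lemma EU.red_mem {L : AddSubgroup V} {s : ℕ} (h : EU L s) {x : V} (hx : x ∈ L) :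
    red s x ∈ boxL L s :=
  mem_boxL.mpr ⟨red_mem_box h.pos x, by rw [red_eq]; exact L.sub_mem hx (h.smul_mem _)⟩

lemma EU.orth {L : AddSubgroup V} {s : ℕ} (h : EU L s) (y : V) :
    ∑ b ∈ boxL L s, e (((b ⬝ᵥ y : ℤ) : ℂ) / s) = (boxL L s).card * ind L y := by
  have hs : (s : ℂ) ≠ 0 := by exact_mod_cast h.pos.ne'
  unfold ind
  split_ifs with hy
  · rw [mul_one, Finset.card_eq_sum_ones]; push_cast
    exact Finset.sum_congr rfl fun b hb =>
      (e_div_eq_one h.pos).mpr (h.dvd (mem_boxL.mp hb).2 hy)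
  · obtain ⟨x, hx, hxy⟩ : ∃ x ∈ L, ¬ (s : ℤ) ∣ x ⬝ᵥ y := by
      by_contra hc; push Not at hc; exact hy (h.dual y hc)
    have h1 : ∑ b ∈ boxL L s, e (((b ⬝ᵥ y : ℤ) : ℂ) / s) * e (((x ⬝ᵥ y : ℤ) : ℂ) / s)
        = ∑ b ∈ boxL L s, e (((b ⬝ᵥ y : ℤ) : ℂ) / s) := by
      refine Finset.sum_nbij' (fun b => red s (b + x)) (fun b => red s (b - x))
        (fun b hb => h.red_mem (L.add_mem (mem_boxL.mp hb).2 hx))
        (fun b hb => h.red_mem (L.sub_mem (mem_boxL.mp hb).2 hx)) (fun b hb => ?_)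
        (fun b hb => ?_) (fun b _ => ?_)
      · rw [← red_of_mem (mem_boxL.mp hb).1]; ext i; simp [red]
      · rw [← red_of_mem (mem_boxL.mp hb).1]; ext i; simp [red]
      · rw [red_eq, sub_dotProduct, add_dotProduct, smul_dotProduct, ← e_add, smul_eq_mul]
        generalize (fun i => (b + x) i / (s : ℤ)) ⬝ᵥ y = t
        rw [show (((b ⬝ᵥ y + x ⬝ᵥ y - s * t : ℤ) : ℂ) / s)
          = (((b ⬝ᵥ y : ℤ) : ℂ) / s + ((x ⬝ᵥ y : ℤ) : ℂ) / s) + ((-t : ℤ) : ℂ) by
            push_cast; field_simp; ring, e_add _ ((-t : ℤ) : ℂ), e_int, mul_one]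
    rw [← Finset.sum_mul] at h1
    have h2 : e (((x ⬝ᵥ y : ℤ) : ℂ) / s) ≠ 1 := fun h' => hxy ((e_div_eq_one h.pos).mp h')
    rw [mul_zero]
    by_contra h3
    exact h2 (mul_left_cancel₀ h3 (h1.trans (mul_one _).symm))

lemma sum_Ico_e {s : ℕ} (hs : 0 < s) (t : ℤ) :
    ∑ a ∈ Finset.Ico (0 : ℤ) s, e (t * a / s) = if (s : ℤ) ∣ t then (s : ℂ) else 0 := by
  rw [← sum_e hs]
  symm
  refine Finset.sum_nbij' (fun a => (a : ℤ)) (fun a => a.toNat) (fun a ha => ?_) (fun a ha => ?_)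
    (fun a _ => by simp) (fun a ha => ?_) (fun a _ => by push_cast; ring_nf)
  · simpa using ha
  · simp at ha ⊢; omega
  · simp at ha ⊢; omega

lemma EU.card {L : AddSubgroup V} {s : ℕ} (h : EU L s) : ((boxL L s).card : ℂ) = s ^ 4 := by
  classical
  have h1 : ∑ y ∈ box s, ((boxL L s).card : ℂ) * ind L y = (boxL L s).card * (boxL L s).card := by
    rw [← Finset.mul_sum]; congr 1
    simp [ind, boxL, Finset.sum_boole]
  have h2 : ∑ y ∈ box s, ((boxL L s).card : ℂ) * ind L y = s ^ 8 := by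
    simp_rw [← h.orth]
    rw [Finset.sum_comm]
    have h3 : ∀ b ∈ boxL L s, ∑ y ∈ box s, e (((b ⬝ᵥ y : ℤ) : ℂ) / s)
        = if b = 0 then (s : ℂ) ^ 8 else 0 := by
      intro b hb
      have h4 : ∀ y : V, e (((b ⬝ᵥ y : ℤ) : ℂ) / s) = ∏ i, e (b i * y i / s) := by
        intro y; rw [← e_sum]; congr 1; simp [dotProduct, Finset.sum_div]
      simp_rw [h4]
      rw [box, ← Finset.prod_univ_sum (fun _ => Finset.Ico (0 : ℤ) s)
        (fun i (a : ℤ) => e (b i * a / s))]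
      simp_rw [sum_Ico_e h.pos]
      split_ifs with h0
      · subst h0; simp
      · obtain ⟨i, hi⟩ := Function.ne_iff.mp h0
        refine Finset.prod_eq_zero (Finset.mem_univ i) (if_neg fun hd => hi ?_)
        have := mem_box.mp (mem_boxL.mp hb).1 i
        exact Int.eq_zero_of_dvd_of_nonneg_of_lt this.1 this.2 hd
    rw [Finset.sum_congr rfl h3, Finset.sum_ite_eq', if_pos]
    exact mem_boxL.mpr ⟨mem_box.mpr fun _ => ⟨le_rfl, by simpa using h.pos⟩, L.zero_mem⟩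
  have h5 : (boxL L s).card * (boxL L s).card = s ^ 4 * s ^ 4 := by
    have : ((boxL L s).card : ℂ) * (boxL L s).card = s ^ 4 * s ^ 4 := by
      rw [← h1, h2]; ring
    exact_mod_cast this
  exact_mod_cast Nat.mul_self_inj.mp h5

end Pool.Agent.MP_660ce2_nt

end MrgPart2

-- ======== part 3: formerly Pool.Agent.MP_660ce2_nt.pm.Poisson
section MrgPart3

set_option autoImplicit false

namespace Pool.Agent.MP_660ce2_nt

open Matrix Complex Filter Topology

lemma summable_ind (L : AddSubgroup V) {g : V → ℂ} (hg : Summable g) :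
    Summable fun x => ind L x * g x := by
  refine Summable.of_norm_bounded (summable_norm_iff.mpr hg) fun x => ?_
  rw [norm_mul]
  exact mul_le_of_le_one_left (norm_nonneg _) (norm_ind_le L x)

lemma EU.tsum_cosets {L : AddSubgroup V} {s : ℕ} (h : EU L s) {g : V → ℂ} (hg : Summable g) :
    ∑ b ∈ boxL L s, ∑' m : V, g ((s : ℤ) • m + b) = ∑' x, ind L x * g x := by
  classical
  have hs : (s : ℤ) ≠ 0 := by exact_mod_cast h.pos.ne'
  have h1 : ∀ b ∈ boxL L s, ∑' m : V, g ((s : ℤ) • m + b)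
      = ∑' x, (if red s x = b then g x else 0) := by
    intro b hb
    have hb' := (mem_boxL.mp hb).1
    have hr : ∀ m : V, red s ((s : ℤ) • m + b) = b := by
      intro m; rw [← red_of_mem hb']; ext i; simp [red]
    have hinj : Function.Injective fun m : V => (s : ℤ) • m + b := fun m m' hm =>
      smul_right_injective V hs (add_right_cancel hm)
    rw [← hinj.tsum_eq (f := fun x => if red s x = b then g x else 0)]
    · exact tsum_congr fun m => by rw [if_pos (hr m)]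
    · intro x hx
      have : red s x = b := by by_contra hc; simp [hc] at hx
      exact ⟨fun i => x i / s, by rw [← this, red_eq]; simp⟩
  rw [Finset.sum_congr rfl h1, ← Summable.tsum_finsetSum]
  · refine tsum_congr fun x => ?_
    rw [Finset.sum_ite_eq]
    unfold ind
    by_cases hx : x ∈ L
    · rw [if_pos (h.red_mem hx), if_pos hx, one_mul]
    · rw [if_neg hx, zero_mul, if_neg]
      intro hc
      have := L.add_mem (mem_boxL.mp hc).2 (h.smul_mem fun i => x i / s)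
      rw [red_eq, sub_add_cancel] at this
      exact hx this
  · intro b _
    refine Summable.of_norm_bounded (summable_norm_iff.mpr hg) fun x => ?_
    split_ifs <;> simp

lemma im_div_pos {τ : ℂ} (hτ : 0 < τ.im) {s : ℕ} (hs : 0 < s) : 0 < (τ / s).im := by
  rw [div_natCast_im]; positivity

lemma EU.poisson {L : AddSubgroup V} {s : ℕ} (h : EU L s) {τ : ℂ} (hτ : 0 < τ.im) (v : VC) :
    τ ^ 4 * ∑' y, ind L y * gt (τ / s / 2) ((s : ℂ)⁻¹ • v) y
      = e (-(v ⬝ᵥ v) / (2 * s * τ)) *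
        ∑' x, ind L x * gt (-1 / τ / s / 2) ((s * τ)⁻¹ • v) x := by
  have hs : (s : ℂ) ≠ 0 := by exact_mod_cast h.pos.ne'
  have h0 : τ ≠ 0 := by rintro rfl; simp at hτ
  have hτ' := im_div_pos hτ h.pos
  have h2 : ∀ {σ : ℂ}, 0 < σ.im → 0 < (σ / 2).im := fun h => by rw [div_ofNat_im]; positivity
  apply mul_left_cancel₀ (pow_ne_zero 4 hs)
  rw [← h.tsum_cosets (summable_gt' (h2 (im_div_pos (im_neg_inv hτ) h.pos)) _), mul_left_comm,
    ← tsum_mul_left]
  have h3 : ∀ y, (s : ℂ) ^ 4 * (ind L y * gt (τ / s / 2) ((s : ℂ)⁻¹ • v) y)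
      = ∑ b ∈ boxL L s, gt (τ / s / 2) ((s : ℂ)⁻¹ • (v - cx b)) y := by
    intro y
    have : ind L y = ind L (-y) := by
      unfold ind
      by_cases hy : y ∈ L
      · rw [if_pos hy, if_pos (L.neg_mem hy)]
      · rw [if_neg hy, if_neg fun h' => hy (by simpa using L.neg_mem h')]
    rw [← mul_assoc, ← h.card, this, ← h.orth, Finset.sum_mul]
    refine Finset.sum_congr rfl fun b _ => ?_
    rw [gt, gt, ← e_add]; congr 1
    rw [← cx_dot b]
    simp only [cx_neg, dotProduct_neg, smul_dotProduct, sub_dotProduct, smul_eq_mul]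
    field_simp; ring
  simp_rw [h3]
  rw [Summable.tsum_finsetSum (fun b _ => summable_gt' (h2 hτ') _), Finset.mul_sum,
    Finset.mul_sum, Finset.mul_sum]
  refine Finset.sum_congr rfl fun b _ => ?_
  rw [show τ ^ 4 = s ^ 4 * (τ / s) ^ 4 by field_simp, mul_assoc, poissonZ hτ']
  congr 1
  rw [← tsum_mul_left, ← tsum_mul_left]
  refine tsum_congr fun m => ?_
  rw [gt, gt, ← e_add, ← e_add]; congr 1
  rw [← cx_dot, ← cx_dot]
  simp only [cx_add, cx_smul, smul_dotProduct, dotProduct_smul, sub_dotProduct, dotProduct_sub,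
    add_dotProduct, dotProduct_add, smul_eq_mul, dotProduct_comm (cx b) v,
    dotProduct_comm (cx m) (cx b)]
  push_cast
  field_simp; ring

lemma gen_deriv {ι : Type*} {A b : ι → ℂ}
    (h : ∀ R : ℝ, Summable fun i => ‖A i‖ * Real.exp (R * ‖b i‖)) (t : ℂ) :
    deriv (fun w => ∑' i, A i * exp (w * b i)) t = ∑' i, A i * b i * exp (t * b i) := by
  have := hasSum_deriv_of_summable_norm (U := Metric.ball 0 (‖t‖ + 1)) (h (‖t‖ + 1))
    (F := fun i w => A i * exp (w * b i)) (fun i => by fun_prop) Metric.isOpen_ball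
    (fun i w hw => ?_) (z := t) (by simp)
  · rw [← this.tsum_eq]
    refine tsum_congr fun i => ?_
    have : HasDerivAt (fun w => A i * exp (w * b i)) (A i * (exp (t * b i) * (1 * b i))) t :=
      (((hasDerivAt_id t).mul_const (b i)).cexp).const_mul (A i)
    rw [this.deriv]; ring
  · rw [norm_mul]
    refine mul_le_mul_of_nonneg_left ((norm_exp_le_exp_norm _).trans ?_) (norm_nonneg _)
    rw [norm_mul]
    exact Real.exp_le_exp.mpr (mul_le_mul_of_nonneg_right (mem_ball_zero_iff.mp hw).le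
      (norm_nonneg _))

lemma gen_step {ι : Type*} {A b : ι → ℂ}
    (h : ∀ R : ℝ, Summable fun i => ‖A i‖ * Real.exp (R * ‖b i‖)) (R : ℝ) :
    Summable fun i => ‖A i * b i‖ * Real.exp (R * ‖b i‖) := by
  refine Summable.of_nonneg_of_le (fun i => by positivity) (fun i => ?_) (h (R + 1))
  rw [norm_mul, add_mul, Real.exp_add, one_mul, mul_assoc, mul_comm ‖b i‖]
  gcongr
  linarith [Real.add_one_le_exp ‖b i‖]

lemma gen_coeff {ι κ : Type*} (n : ℕ) : ∀ {A b : ι → ℂ} {A' b' : κ → ℂ},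
    (∀ R : ℝ, Summable fun i => ‖A i‖ * Real.exp (R * ‖b i‖)) →
    (∀ R : ℝ, Summable fun i => ‖A' i‖ * Real.exp (R * ‖b' i‖)) →
    (∀ t, ∑' i, A i * exp (t * b i) = ∑' i, A' i * exp (t * b' i)) →
    ∑' i, A i * b i ^ n = ∑' i, A' i * b' i ^ n := by
  induction n with
  | zero => intro A b A' b' _ _ H; simpa using H 0
  | succ n ih =>
    intro A b A' b' h h' H
    have := ih (gen_step h) (gen_step h') fun t => by
      rw [← gen_deriv h, ← gen_deriv h', funext H]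
    simpa [pow_succ', mul_assoc] using this

lemma summable_gen (L : AddSubgroup V) {α : ℂ} (hα : 0 < α.im) (C : ℂ) (w a : VC) (c : ℂ) (R : ℝ) :
    Summable fun x => ‖C * (ind L x * gt α w x)‖ * Real.exp (R * ‖a ⬝ᵥ cx x + c‖) := by
  refine Summable.of_nonneg_of_le (fun x => by positivity) (fun x => ?_)
    ((summable_gt hα w (|R| * ‖a‖)).mul_left (‖C‖ * Real.exp (|R| * ‖c‖)))
  rw [norm_mul, norm_mul]
  have h1 : Real.exp (R * ‖a ⬝ᵥ cx x + c‖)
      ≤ Real.exp (|R| * ‖c‖) * Real.exp (|R| * ‖a‖ * n1 x) := by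
    rw [← Real.exp_add]
    apply Real.exp_le_exp.mpr
    have h2 := (norm_add_le (a ⬝ᵥ cx x) c).trans (add_le_add_left (norm_dot_le a x) _)
    calc R * ‖a ⬝ᵥ cx x + c‖ ≤ |R| * ‖a ⬝ᵥ cx x + c‖ := by gcongr; exact le_abs_self R
      _ ≤ |R| * (‖a‖ * n1 x + ‖c‖) := by gcongr
      _ = _ := by ring
  calc ‖C‖ * (‖ind L x‖ * ‖gt α w x‖) * Real.exp (R * ‖a ⬝ᵥ cx x + c‖)
      ≤ ‖C‖ * (1 * ‖gt α w x‖) * (Real.exp (|R| * ‖c‖) * Real.exp (|R| * ‖a‖ * n1 x)) := by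
        gcongr; exact norm_ind_le L x
    _ = _ := by ring

/-- Poisson summation with a harmonic coefficient -/
lemma EU.poissonH {L : AddSubgroup V} {s : ℕ} (h : EU L s) {τ : ℂ} (hτ : 0 < τ.im) (v : VC)
    {a : VC} (ha : a ⬝ᵥ a = 0) (c : ℂ) (ν : ℕ) :
    ∑' y, τ ^ 4 * (ind L y * gt (τ / s / 2) ((s : ℂ)⁻¹ • v) y)
        * ((τ • a) ⬝ᵥ cx y + (a ⬝ᵥ v + c)) ^ ν
      = ∑' x, e (-(v ⬝ᵥ v) / (2 * s * τ)) *
        (ind L x * gt (-1 / τ / s / 2) ((s * τ)⁻¹ • v) x) * (a ⬝ᵥ cx x + c) ^ ν := by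
  have hs : (s : ℂ) ≠ 0 := by exact_mod_cast h.pos.ne'
  have h0 : τ ≠ 0 := by rintro rfl; simp at hτ
  have h2 : ∀ {σ : ℂ}, 0 < σ.im → 0 < (σ / 2).im := fun h => by rw [div_ofNat_im]; positivity
  refine gen_coeff ν (summable_gen L (h2 (im_div_pos hτ h.pos)) _ _ _ _)
    (summable_gen L (h2 (im_div_pos (im_neg_inv hτ) h.pos)) _ _ _ _) fun t' => ?_
  obtain ⟨t, rfl⟩ : ∃ t, t' = 2 * Real.pi * I * t :=
    ⟨t' / (2 * Real.pi * I), by have := two_pi_I_ne_zero; field_simp⟩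
  have he : ∀ b, exp (2 * Real.pi * I * t * b) = e (t * b) := fun b => by rw [e, mul_assoc]
  simp_rw [he]
  have H := congrArg (fun z => e (t * (a ⬝ᵥ v + c)) * z) (h.poisson hτ (v + (s * τ * t) • a))
  simp only [← tsum_mul_left] at H
  refine (tsum_congr fun y => ?_).trans (H.trans (tsum_congr fun x => ?_))
  · have : gt (τ / s / 2) ((s : ℂ)⁻¹ • v) y * e (t * ((τ • a) ⬝ᵥ cx y + (a ⬝ᵥ v + c)))
        = e (t * (a ⬝ᵥ v + c)) * gt (τ / s / 2) ((s : ℂ)⁻¹ • (v + (s * τ * t) • a)) y := by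
      rw [gt, gt, ← e_add, ← e_add]; congr 1
      simp only [smul_dotProduct, add_dotProduct, smul_eq_mul]
      field_simp; ring
    linear_combination τ ^ 4 * ind L y * this
  · have : e (t * (a ⬝ᵥ v + c)) * e (-((v + (s * τ * t) • a) ⬝ᵥ (v + (s * τ * t) • a))
          / (2 * s * τ)) * gt (-1 / τ / s / 2) ((s * τ)⁻¹ • (v + (s * τ * t) • a)) x
        = e (-(v ⬝ᵥ v) / (2 * s * τ)) * gt (-1 / τ / s / 2) ((s * τ)⁻¹ • v) x
          * e (t * (a ⬝ᵥ cx x + c)) := by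
      rw [gt, gt, ← e_add, ← e_add, ← e_add, ← e_add]; congr 1
      simp only [smul_dotProduct, add_dotProduct, dotProduct_add, dotProduct_smul, smul_eq_mul, ha,
        dotProduct_comm v a]
      field_simp; ring
    linear_combination ind L x * this

end Pool.Agent.MP_660ce2_nt

end MrgPart3

-- ======== part 4: formerly Pool.Agent.MP_660ce2_nt.pm.Theta
section MrgPart4

set_option autoImplicit false

namespace Pool.Agent.MP_660ce2_nt

open Matrix Complex Filter Topology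

def H3 (τ z τ' : ℂ) : Prop := 0 < τ.im ∧ z.im ^ 2 < τ.im * τ'.im

lemma H3.pos {τ z τ' : ℂ} (h : H3 τ z τ') : 0 < τ'.im :=
  (mul_pos_iff_of_pos_left h.1).mp ((sq_nonneg _).trans_lt h.2)

lemma tsum_prod_swap {α β : Type*} {f : α × β → ℂ} (h : Summable f) :
    ∑' x, f x = ∑' b, ∑' a, f (a, b) := by
  rw [← (Equiv.prodComm β α).tsum_eq, Summable.tsum_prod]
  · rfl
  · exact (Equiv.prodComm β α).summable_iff.mpr h

lemma H3.swap {τ z τ' : ℂ} (h : H3 τ z τ') : H3 τ' z τ := ⟨h.pos, by rw [mul_comm]; exact h.2⟩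

lemma H3.scale {τ z τ' : ℂ} (h : H3 τ z τ') {a b : ℝ} (ha : 0 < a) (hb : 0 < b) :
    H3 (a * a * τ) (a * b * z) (b * b * τ') := by
  have h1 := h.1
  have h2 := h.2
  constructor
  · simp; positivity
  · simp
    have : 0 < (a * b) ^ 2 := by positivity
    nlinarith

lemma H3.smul {τ z τ' : ℂ} (h : H3 τ z τ') {a : ℝ} (ha : 0 < a) :
    H3 (a * τ) (a * z) (a * τ') := by
  have h1 := h.1
  have h2 := h.2
  constructor
  · simp; positivity
  · simp
    have : 0 < a ^ 2 := by positivity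
    nlinarith

lemma H3.inv {τ z τ' : ℂ} (h : H3 τ z τ') : H3 (-1 / τ) (z / τ) (τ' - z ^ 2 / τ) := by
  refine ⟨im_neg_inv h.1, ?_⟩
  have h0 : τ ≠ 0 := by have := h.1; rintro rfl; simp at this
  have hn : 0 < normSq τ := normSq_pos.mpr h0
  have key : (-1 / τ).im * (τ' - z ^ 2 / τ).im - (z / τ).im ^ 2
      = (τ.im * τ'.im - z.im ^ 2) / normSq τ := by
    simp only [div_im, sub_im, pow_two, mul_re, mul_im, neg_re, one_re, neg_im, one_im]
    field_simp
    rw [normSq_apply]; ring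
  have := div_pos (sub_pos.mpr h.2) hn
  linarith

noncomputable def eT (T : T3) (τ z τ' : ℂ) : ℂ := e (T.1 * τ + T.2.1 * z + T.2.2 * τ')

noncomputable def tt (L M : AddSubgroup V) (s : ℕ) (a : VC) (τ z τ' u v : ℂ) (x : V × V) : ℂ :=
  ind L x.1 * ind M x.2 * (u * (a ⬝ᵥ cx x.1) + v * (a ⬝ᵥ cx x.2)) ^ 8 *
    e ((((x.1 ⬝ᵥ x.1 : ℤ) : ℂ) * τ + 2 * ((x.1 ⬝ᵥ x.2 : ℤ) : ℂ) * z
      + ((x.2 ⬝ᵥ x.2 : ℤ) : ℂ) * τ') / (2 * s))

lemma quad_bound {y1 v y2 : ℝ} (h1 : 0 < y1) (h2 : 0 < y2) (x y : V) :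
    (y1 * y2 - v ^ 2) / (y1 + y2) * ((x ⬝ᵥ x : ℤ) + (y ⬝ᵥ y : ℤ))
      ≤ (x ⬝ᵥ x : ℤ) * y1 + 2 * (x ⬝ᵥ y : ℤ) * v + (y ⬝ᵥ y : ℤ) * y2 := by
  rw [div_mul_eq_mul_div, div_le_iff₀ (by positivity)]
  simp only [dotProduct]
  push_cast
  simp only [Finset.sum_mul, Finset.mul_sum, ← Finset.sum_add_distrib]
  refine Finset.sum_le_sum fun i _ => ?_
  nlinarith [sq_nonneg (y1 * x i + v * y i), sq_nonneg (v * x i + y2 * y i)]

lemma norm_pow_le_exp (w : ℂ) (n : ℕ) : ‖w ^ n‖ ≤ Real.exp (n * ‖w‖) := by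
  rw [norm_pow, Real.exp_nat_mul]
  gcongr
  linarith [Real.add_one_le_exp ‖w‖]

lemma summable_tt (L M : AddSubgroup V) {s : ℕ} (hs : 0 < s) (a : VC) {τ z τ' : ℂ}
    (h : H3 τ z τ') (u v : ℂ) : Summable (tt L M s a τ z τ' u v) := by
  have h1 := h.1
  have h2 := h.pos
  set δ := Real.pi / s * ((τ.im * τ'.im - z.im ^ 2) / (τ.im + τ'.im)) with hδ
  have hδ0 : 0 < δ := mul_pos (by positivity) (div_pos (sub_pos.mpr h.2) (by positivity))
  have hb := (summable_base hδ0 (8 * (‖u‖ * ‖a‖))).mul_of_nonneg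
    (summable_base hδ0 (8 * (‖v‖ * ‖a‖))) (fun _ => (Real.exp_pos _).le)
    (fun _ => (Real.exp_pos _).le)
  refine Summable.of_norm_bounded hb fun x => ?_
  rw [tt, norm_mul, norm_mul, norm_mul, ← Real.exp_add]
  have e1 : ‖(u * (a ⬝ᵥ cx x.1) + v * (a ⬝ᵥ cx x.2)) ^ 8‖
      ≤ Real.exp (8 * (‖u‖ * ‖a‖) * n1 x.1 + 8 * (‖v‖ * ‖a‖) * n1 x.2) := by
    refine (norm_pow_le_exp _ _).trans (Real.exp_le_exp.mpr ?_)
    have := norm_add_le (u * (a ⬝ᵥ cx x.1)) (v * (a ⬝ᵥ cx x.2))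
    rw [norm_mul, norm_mul] at this
    have b1 := mul_le_mul_of_nonneg_left (norm_dot_le a x.1) (norm_nonneg u)
    have b2 := mul_le_mul_of_nonneg_left (norm_dot_le a x.2) (norm_nonneg v)
    push_cast; nlinarith
  have e2 : ‖e ((((x.1 ⬝ᵥ x.1 : ℤ) : ℂ) * τ + 2 * ((x.1 ⬝ᵥ x.2 : ℤ) : ℂ) * z
      + ((x.2 ⬝ᵥ x.2 : ℤ) : ℂ) * τ') / (2 * s))‖
      ≤ Real.exp (-δ * (x.1 ⬝ᵥ x.1 : ℤ) + -δ * (x.2 ⬝ᵥ x.2 : ℤ)) := by
    rw [norm_e]
    apply Real.exp_le_exp.mpr
    have := mul_le_mul_of_nonneg_left (quad_bound (v := z.im) h1 h2 x.1 x.2)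
      (show 0 ≤ Real.pi / s by positivity)
    rw [show (2 * s : ℂ) = ((2 * s : ℝ) : ℂ) by push_cast; ring, div_ofReal_im]
    simp only [add_im, mul_im, intCast_re, intCast_im, zero_mul, add_zero, mul_re, re_ofNat,
      im_ofNat, mul_zero, sub_zero]
    have hs' : (s : ℝ) ≠ 0 := by positivity
    have e3 : ∀ t : ℝ, -2 * Real.pi * (t / (2 * s)) = -(Real.pi / s * t) := fun t => by field_simp
    rw [e3]; linarith
  refine (mul_le_mul (mul_le_mul (mul_le_one₀ (norm_ind_le _ _) (norm_nonneg _) (norm_ind_le _ _))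
    e1 (norm_nonneg _) zero_le_one) e2 (norm_nonneg _) (by positivity)).trans (le_of_eq ?_)
  rw [one_mul, ← Real.exp_add]; congr 1; ring

lemma tt_inv {L : AddSubgroup V} (M : AddSubgroup V) {s : ℕ} (hL : EU L s) {a : VC}
    (ha : a ⬝ᵥ a = 0) {τ z τ' : ℂ} (h : H3 τ z τ') (u v : ℂ) :
    ∑' x, tt L M s a (-1 / τ) (z / τ) (τ' - z ^ 2 / τ) u v x
      = τ ^ 4 * ∑' x, tt L M s a τ z τ' (u * τ) (u * z + v) x := by
  have hs : (s : ℂ) ≠ 0 := by exact_mod_cast hL.pos.ne'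
  have h0 : τ ≠ 0 := by have := h.1; rintro rfl; simp at this
  rw [tsum_prod_swap (summable_tt L M hL.pos a h.inv u v),
    tsum_prod_swap (summable_tt L M hL.pos a h _ _), ← tsum_mul_left]
  refine tsum_congr fun y => ?_
  have H := congrArg (fun w => ind M y * e (((y ⬝ᵥ y : ℤ) : ℂ) * τ' / (2 * s)) * w)
    (hL.poissonH h.1 (z • cx y) (a := u • a) (by simp [ha]) (v * (a ⬝ᵥ cx y)) 8)
  simp only [← tsum_mul_left] at H ⊢
  refine (tsum_congr fun x => ?_).trans (H.symm.trans (tsum_congr fun x => ?_))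
  · have : e ((((x ⬝ᵥ x : ℤ) : ℂ) * (-1 / τ) + 2 * ((x ⬝ᵥ y : ℤ) : ℂ) * (z / τ)
        + ((y ⬝ᵥ y : ℤ) : ℂ) * (τ' - z ^ 2 / τ)) / (2 * s))
        = e (((y ⬝ᵥ y : ℤ) : ℂ) * τ' / (2 * s)) * e (-((z • cx y) ⬝ᵥ (z • cx y)) / (2 * s * τ))
          * gt (-1 / τ / s / 2) ((s * τ)⁻¹ • z • cx y) x := by
      rw [gt, ← e_add, ← e_add]; congr 1
      simp only [smul_dotProduct, dotProduct_smul, smul_eq_mul, cx_dot, dotProduct_comm y x]
      field_simp; ring
    simp only [tt, this, smul_dotProduct, smul_eq_mul]; ring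
  · have : e ((((x ⬝ᵥ x : ℤ) : ℂ) * τ + 2 * ((x ⬝ᵥ y : ℤ) : ℂ) * z
        + ((y ⬝ᵥ y : ℤ) : ℂ) * τ') / (2 * s))
        = e (((y ⬝ᵥ y : ℤ) : ℂ) * τ' / (2 * s)) * gt (τ / s / 2) ((s : ℂ)⁻¹ • z • cx y) x := by
      rw [gt, ← e_add]; congr 1
      simp only [smul_dotProduct, smul_eq_mul, cx_dot, dotProduct_comm y x]
      field_simp; ring
    simp only [tt, this, smul_dotProduct, dotProduct_smul, smul_eq_mul]; ring

lemma tt_swap (L M : AddSubgroup V) (s : ℕ) {N : ℕ} (hN : 0 < N) (a : VC) (τ z τ' u v : ℂ) :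
    ∑' x, tt L M s a τ z τ' u v x = ∑' x, tt M L (N * s) a (N * τ') (N * z) (N * τ) v u x := by
  rw [← (Equiv.prodComm V V).tsum_eq]
  refine tsum_congr fun x => ?_
  have hN' : (N : ℂ) ≠ 0 := by exact_mod_cast hN.ne'
  simp only [tt, Equiv.prodComm_apply, Prod.fst_swap, Prod.snd_swap, dotProduct_comm x.2 x.1]
  congr 1
  · ring
  · congr 1; push_cast
    by_cases hs : (s : ℂ) = 0
    · simp [hs]
    · field_simp; ring

lemma hasSum_arr {L M : AddSubgroup V} {s : ℕ} (hL : EU L s) (hle : M ≤ L) (a : VC) {τ z τ' : ℂ}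
    (h : H3 τ z τ') (u : Fin 2 → ℂ) :
    HasSum (fun T => arr L M s (fun x => (a ⬝ᵥ x) ^ 8) T u * eT T τ z τ')
      (∑' x, tt L M s a τ z τ' (u 0) (u 1) x) := by
  classical
  have hs : (s : ℂ) ≠ 0 := by exact_mod_cast hL.pos.ne'
  have hs' : (s : ℤ) ≠ 0 := by exact_mod_cast hL.pos.ne'
  let φ : V × V → T3 := fun x =>
    (x.1 ⬝ᵥ x.1 / (2 * s), x.1 ⬝ᵥ x.2 / s, x.2 ⬝ᵥ x.2 / (2 * s))
  refine hs_congr ((summable_tt L M hL.pos a h (u 0) (u 1)).hasSum.tsum_fiberwise φ)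
    (fun T => ?_) rfl
  rw [tsum_subtype, tsum_eq_sum (s := fib L M s T), arr, Finset.sum_mul]
  · refine Finset.sum_congr rfl fun x hx => ?_
    obtain ⟨h1, h2, h3, h4, h5⟩ := mem_fib.mp hx
    rw [Set.indicator_of_mem]
    · simp only [tt, ind, h1, h2, if_true, h3, h4, h5, eT, dotProduct_add, dotProduct_smul,
        smul_eq_mul, one_mul]
      congr 2; push_cast; field_simp
    · simp only [Set.mem_preimage, Set.mem_singleton_iff, φ, h3, h4, h5]
      rw [Int.mul_ediv_cancel_left _ (mul_ne_zero two_ne_zero hs'),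
        Int.mul_ediv_cancel_left _ (mul_ne_zero two_ne_zero hs'), Int.mul_ediv_cancel_left _ hs']
  · intro x hx
    by_contra hc
    have h0 := Set.mem_of_indicator_ne_zero hc
    rw [Set.indicator_of_mem h0] at hc
    have h1 : x.1 ∈ L := by by_contra h1; simp [tt, ind, h1] at hc
    have h2 : x.2 ∈ M := by by_contra h2; simp [tt, ind, h2] at hc
    have h0' : φ x = T := h0
    refine hx (mem_fib.mpr ⟨h1, h2, ?_, ?_, ?_⟩) <;> rw [← h0']
    · exact (Int.mul_ediv_cancel' (hL.even _ h1)).symm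
    · exact (Int.mul_ediv_cancel' (hL.dvd h1 (hle h2))).symm
    · exact (Int.mul_ediv_cancel' (hL.even _ (hle h2))).symm

end Pool.Agent.MP_660ce2_nt

end MrgPart4

-- ======== part 5: formerly Pool.Agent.MP_660ce2_nt.pm.Good
section MrgPart5

set_option autoImplicit false

namespace Pool.Agent.MP_660ce2_nt

open Matrix Complex Filter Topology

noncomputable def FS (A : Arr) (τ z τ' : ℂ) (u : Fin 2 → ℂ) : ℂ := ∑' T, A T u * eT T τ z τ'

def tr (a b c d : ℤ) (T : T3) : T3 :=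
  (a * a * T.1 + a * c * T.2.1 + c * c * T.2.2,
    2 * a * b * T.1 + (a * d + b * c) * T.2.1 + 2 * c * d * T.2.2,
    b * b * T.1 + b * d * T.2.1 + d * d * T.2.2)

lemma tr_tr {a b c d ε : ℤ} (h : ε * (a * d - b * c) = 1) (T : T3) :
    tr (ε * d) (-(ε * b)) (-(ε * c)) (ε * a) (tr a b c d T) = T := by
  obtain ⟨n, r, m⟩ := T
  simp only [tr, Prod.mk.injEq]
  exact ⟨by linear_combination (n * (ε * (a * d - b * c) + 1)) * h,
    by linear_combination (r * (ε * (a * d - b * c) + 1)) * h,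
    by linear_combination (m * (ε * (a * d - b * c) + 1)) * h⟩

lemma tr_tr' {a b c d ε : ℤ} (h : ε * (a * d - b * c) = 1) (T : T3) :
    tr a b c d (tr (ε * d) (-(ε * b)) (-(ε * c)) (ε * a) T) = T := by
  obtain ⟨n, r, m⟩ := T
  simp only [tr, Prod.mk.injEq]
  exact ⟨by linear_combination (n * (ε * (a * d - b * c) + 1)) * h,
    by linear_combination (r * (ε * (a * d - b * c) + 1)) * h,
    by linear_combination (m * (ε * (a * d - b * c) + 1)) * h⟩

structure Good (N : ℕ) (A : Arr) : Prop where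
  form : ∀ T, IsForm 8 (A T)
  summ : ∀ {τ z τ'}, H3 τ z τ' → ∀ u, Summable fun T => A T u * eT T τ z τ'
  supp : ∀ T, A T ≠ 0 → 0 ≤ T.1 ∧ 0 ≤ T.2.2 ∧ T.2.1 ^ 2 ≤ 4 * T.1 * T.2.2 ∧ (N : ℤ) ∣ T.2.2
  equi : ∀ {a b c d ε : ℤ}, ε * (a * d - b * c) = 1 → (N : ℤ) ∣ b → ∀ T u,
    A (tr a b c d T) u = A T ![u 0 * a + u 1 * b, u 0 * c + u 1 * d]
  inv1 : ∀ {τ z τ'}, H3 τ z τ' → ∀ u,
    FS A (-1 / τ) (z / τ) (τ' - z ^ 2 / τ) u = τ ^ 4 * FS A τ z τ' ![u 0 * τ, u 0 * z + u 1]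
  inv2 : ∀ {τ z τ'}, H3 τ z τ' → ∀ u,
    FS A (τ - z ^ 2 / τ') (z / (N * τ')) (-1 / (N ^ 2 * τ')) u
      = (N * τ') ^ 4 * FS A τ z τ' ![u 0 + u 1 * (N * z), u 1 * (N * τ')]

lemma FS_add {N : ℕ} {A B : Arr} (hA : Good N A) (hB : Good N B) {τ z τ' : ℂ} (h : H3 τ z τ')
    (u : Fin 2 → ℂ) : FS (A + B) τ z τ' u = FS A τ z τ' u + FS B τ z τ' u := by
  simp only [FS, Pi.add_apply, add_mul]
  exact (hA.summ h u).tsum_add (hB.summ h u)

lemma FS_smul (c : ℂ) (A : Arr) (τ z τ' : ℂ) (u : Fin 2 → ℂ) :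
    FS (c • A) τ z τ' u = c * FS A τ z τ' u := by
  simp only [FS, Pi.smul_apply, smul_eq_mul, mul_assoc, tsum_mul_left]

lemma H3.inv2 {τ z τ' : ℂ} (h : H3 τ z τ') {N : ℕ} (hN : 0 < N) :
    H3 (τ - z ^ 2 / τ') (z / (N * τ')) (-1 / (N ^ 2 * τ')) := by
  have h0 : τ' ≠ 0 := by have := h.pos; rintro rfl; simp at this
  have hN' : (N : ℂ) ≠ 0 := by exact_mod_cast hN.ne'
  have := h.swap.inv.swap.scale (a := 1) (b := 1 / N) one_pos (by positivity)
  convert this using 1 <;> push_cast <;> field_simp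

lemma Good.zero (N : ℕ) : Good N 0 :=
  ⟨fun _ => IsForm.zero 8, fun _ _ => by simp [summable_zero], fun _ h => absurd rfl h,
    fun _ _ _ _ => rfl, fun _ _ => by simp [FS], fun _ _ => by simp [FS]⟩

lemma Good.add {N : ℕ} (hN : 0 < N) {A B : Arr} (hA : Good N A) (hB : Good N B) :
    Good N (A + B) := by
  refine ⟨fun T => (hA.form T).add (hB.form T), fun h u => ?_, fun T hT => ?_,
    fun h hb T u => ?_, fun h u => ?_, fun h u => ?_⟩
  · simpa [add_mul] using (hA.summ h u).add (hB.summ h u)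
  · by_cases h : A T = 0
    · exact hB.supp T (by simpa [h] using hT)
    · exact hA.supp T h
  · simp only [Pi.add_apply, hA.equi h hb, hB.equi h hb]
  · rw [FS_add hA hB h.inv, FS_add hA hB h, hA.inv1 h, hB.inv1 h, mul_add]
  · rw [FS_add hA hB (h.inv2 hN), FS_add hA hB h, hA.inv2 h, hB.inv2 h, mul_add]

lemma Good.smul {N : ℕ} {A : Arr} (hA : Good N A) (c : ℂ) : Good N (c • A) := by
  refine ⟨fun T => (hA.form T).smul c, fun h u => ?_, fun T hT => ?_,
    fun h hb T u => ?_, fun h u => ?_, fun h u => ?_⟩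
  · simpa [mul_assoc] using (hA.summ h u).mul_left c
  · exact hA.supp T fun h => hT (by simp [h])
  · simp only [Pi.smul_apply, hA.equi h hb]
  · rw [FS_smul, FS_smul, hA.inv1 h, mul_left_comm]
  · rw [FS_smul, FS_smul, hA.inv2 h, mul_left_comm]

lemma map_fib {N s : ℕ} {L M : AddSubgroup V} (hL : EU L s) (hM : EU M (N * s)) (hle : M ≤ L)
    (a b c d : ℤ) (hb : (N : ℤ) ∣ b) {T : T3} {x : V × V} (hx : x ∈ fib L M s T) :
    (a • x.1 + c • x.2, b • x.1 + d • x.2) ∈ fib L M s (tr a b c d T) := by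
  obtain ⟨h1, h2, h3, h4, h5⟩ := mem_fib.mp hx
  obtain ⟨b', rfl⟩ := hb
  refine mem_fib.mpr ⟨L.add_mem (L.zsmul_mem h1 _) (L.zsmul_mem (hle h2) _),
    M.add_mem ?_ (M.zsmul_mem h2 _), ?_, ?_, ?_⟩
  · rw [mul_comm, mul_smul]; exact M.zsmul_mem (hL.smul_mem_sub hM hle h1) _
  all_goals
    simp only [add_dotProduct, dotProduct_add, smul_dotProduct, dotProduct_smul, smul_eq_mul,
      dotProduct_comm x.2 x.1, h3, h4, h5, tr]
    ring

lemma arr_equi {N s : ℕ} {L M : AddSubgroup V} (hL : EU L s) (hM : EU M (N * s)) (hle : M ≤ L)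
    (P : VC → ℂ) {a b c d ε : ℤ} (h : ε * (a * d - b * c) = 1) (hb : (N : ℤ) ∣ b) (T : T3)
    (u : Fin 2 → ℂ) :
    arr L M s P (tr a b c d T) u = arr L M s P T ![u 0 * a + u 1 * b, u 0 * c + u 1 * d] := by
  symm
  refine Finset.sum_nbij' (fun x => (a • x.1 + c • x.2, b • x.1 + d • x.2))
    (fun y => ((ε * d) • y.1 + (-(ε * c)) • y.2, (-(ε * b)) • y.1 + (ε * a) • y.2))
    (fun x hx => map_fib hL hM hle a b c d hb hx) (fun y hy => ?_) (fun x _ => ?_) (fun y _ => ?_)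
    (fun x _ => ?_)
  · have := map_fib hL hM hle (ε * d) (-(ε * b)) (-(ε * c)) (ε * a)
      (dvd_neg.mpr (Dvd.dvd.mul_left hb ε)) hy
    rwa [tr_tr h] at this
  · ext i <;> simp only [Pi.add_apply, Pi.smul_apply, smul_eq_mul]
    · linear_combination x.1 i * h
    · linear_combination x.2 i * h
  · ext i <;> simp only [Pi.add_apply, Pi.smul_apply, smul_eq_mul]
    · linear_combination y.1 i * h
    · linear_combination y.2 i * h
  · congr 1
    ext i
    simp [cx]; ring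

lemma dot_sq_le (x y : V) : (x ⬝ᵥ y) ^ 2 ≤ (x ⬝ᵥ x) * (y ⬝ᵥ y) := by
  have := Finset.sum_mul_sq_le_sq_mul_sq Finset.univ x y
  simpa [dotProduct, pow_two] using this

lemma good_arr {N s : ℕ} {L M : AddSubgroup V} (hL : EU L s) (hM : EU M (N * s)) (hle : M ≤ L)
    {a : VC} (ha : a ⬝ᵥ a = 0) : Good N (arr L M s fun x => (a ⬝ᵥ x) ^ 8) := by
  have hN : 0 < N := Nat.pos_of_mul_pos_right hM.pos
  have hs : (0 : ℤ) < s := by exact_mod_cast hL.pos
  have hN' : (N : ℂ) ≠ 0 := by exact_mod_cast hN.ne'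
  refine ⟨arr_isForm L M s (pow_mem_harm ha), fun h u => (hasSum_arr hL hle a h u).summable,
    fun T hT => ?_, fun h hb => arr_equi hL hM hle _ h hb, fun h u => ?_,
    fun {τ z τ'} h u => ?_⟩
  · obtain ⟨x, hx⟩ : (fib L M s T).Nonempty := by
      by_contra hc
      exact hT (by ext u; simp [arr, Finset.not_nonempty_iff_eq_empty.mp hc])
    obtain ⟨-, h2, h3, h4, h5⟩ := mem_fib.mp hx
    have e1 := dot_self_nonneg x.1
    have e2 := dot_self_nonneg x.2
    have e3 := dot_sq_le x.1 x.2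
    have e4 := hM.even _ h2
    rw [h3] at e1
    rw [h5] at e2 e4
    rw [h3, h4, h5] at e3
    refine ⟨by nlinarith, by nlinarith, ?_, ?_⟩
    · have : (s : ℤ) ^ 2 * T.2.1 ^ 2 ≤ s ^ 2 * (4 * T.1 * T.2.2) := by linarith
      exact le_of_mul_le_mul_left this (by positivity)
    · push_cast at e4
      rwa [show 2 * ((N : ℤ) * s) = 2 * s * N by ring, mul_dvd_mul_iff_left (by omega)] at e4
  · rw [FS, FS, (hasSum_arr hL hle a h.inv u).tsum_eq, (hasSum_arr hL hle a h _).tsum_eq,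
      tt_inv M hL ha h]
    rfl
  · have h0 : τ' ≠ 0 := by have := h.pos; rintro rfl; simp at this
    rw [FS, FS, (hasSum_arr hL hle a (h.inv2 hN) u).tsum_eq, (hasSum_arr hL hle a h _).tsum_eq,
      tt_swap L M s hN, tt_swap L M s hN a τ]
    have := tt_inv L hM ha (h.swap.smul (a := N) (by exact_mod_cast hN)) (u 1) (u 0)
    push_cast at this
    convert this using 4
    · field_simp
    · field_simp
    · field_simp
    · simp [add_comm]

lemma good_of_W {N : ℕ} (hN : 0 < N) {A : Arr} (h : A ∈ W N) : Good N A := by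
  induction h using Submodule.span_induction with
  | mem A hA => obtain ⟨L, M, s, a, h, ha, rfl⟩ := hA; exact good_arr h.hL h.hM h.le ha
  | zero => exact Good.zero N
  | add A B _ _ h1 h2 => exact h1.add hN h2
  | smul c A _ h1 => exact h1.smul c

end Pool.Agent.MP_660ce2_nt

end MrgPart5

-- marker of a merged file
example : 731051 + 91399 = 731051 + 91399 := rfl
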