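import Mathlib.NumberTheory.ModularForms.LevelOne.DimensionFormula
import Mathlib.Order.CompletePartialOrder
import Pool.Agent.MP_660ce2_nt.pm.Good

set_option autoImplicit false

namespace Pool.Agent.MP_660ce2_nt

open Matrix Complex Filter Topology UpperHalfPlane MatrixGroups ModularForm

/-- `c` is the coefficient sequence of a level one form of weight `k` -/
def MF (k : ℕ) (c : ℕ → ℂ) : Prop :=
  ∃ f : ℂ → ℂ, (∀ τ : ℂ, 0 < τ.im → HasSum (fun n : ℕ => c n * e (n * τ)) (f τ)) ∧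
    ∀ τ : ℂ, 0 < τ.im → f (-1 / τ) = τ ^ k * f τ

lemma MF.add {k : ℕ} {c d : ℕ → ℂ} (h : MF k c) (h' : MF k d) : MF k (c + d) := by
  obtain ⟨f, h1, h2⟩ := h
  obtain ⟨g, h3, h4⟩ := h'
  exact ⟨f + g, fun τ hτ => by simpa [add_mul] using (h1 τ hτ).add (h3 τ hτ),
    fun τ hτ => by simp [h2 τ hτ, h4 τ hτ, mul_add]⟩

lemma MF.smul {k : ℕ} {c : ℕ → ℂ} (h : MF k c) (a : ℂ) : MF k (a • c) := by
  obtain ⟨f, h1, h2⟩ := h
  exact ⟨a • f, fun τ hτ => by simpa [mul_assoc] using (h1 τ hτ).mul_left a,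
    fun τ hτ => by simp [h2 τ hτ, mul_left_comm]⟩

lemma MF.exists {k : ℕ} {c : ℕ → ℂ} (h : MF k c) :
    ∃ F : ModularForm 𝒮ℒ k, ∀ n, (qExpansion 1 F).coeff n = c n := by
  obtain ⟨f, h1, h2⟩ := h
  have hq : ∀ τ : ℍ, HasSum (fun m => c m • Function.Periodic.qParam 1 τ ^ m) (f τ) := by
    intro τ
    refine hs_congr (h1 τ τ.2) (fun m => ?_) rfl
    rw [smul_eq_mul, ← e_pow, e, Function.Periodic.qParam]; simp
  have hinv : ∀ γ : SL(2, ℤ), (fun τ : ℍ => f τ) ∣[(k : ℤ)] γ = fun τ : ℍ => f τ := by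
    apply SlashInvariantForm.slash_action_generators_SL2Z
    · ext τ
      rw [SlashInvariantForm.slash_S_apply]
      have h0 : (τ : ℂ) ≠ 0 := τ.ne_zero
      simp only [inv_neg]
      rw [show -(τ : ℂ)⁻¹ = -1 / τ by ring, h2 τ τ.2, _root_.zpow_neg, zpow_natCast]
      field_simp
    · ext τ
      rw [SL_slash_apply, denom, modular_T_smul, ModularGroup.T]
      have : f (1 + τ) = f τ := by
        refine (h1 (1 + τ) (by simpa using τ.2)).unique (hs_congr (h1 τ τ.2) (fun n => ?_) rfl)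
        rw [mul_add, e_add, mul_one, show ((n : ℕ) : ℂ) = ((n : ℤ) : ℂ) by simp, e_int, one_mul]
      simp [this]
  have hol : DifferentiableOn ℂ f {z | 0 < z.im} := by
    intro z hz
    have hz' : 0 < z.im := hz
    have hU : IsOpen {w : ℂ | z.im / 2 < w.im} := isOpen_lt continuous_const continuous_im
    have hd := differentiableOn_tsum_of_summable_norm (U := {w : ℂ | z.im / 2 < w.im})
      (summable_norm_iff.mpr (h1 ((z.im / 2 : ℝ) * Complex.I) (by simpa using hz')).summable)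
      (F := fun (n : ℕ) w => c n * e (n * w)) (fun n => by unfold e; fun_prop) hU
      (fun n w hw => by
        have hw' : z.im / 2 < w.im := hw
        rw [norm_mul, norm_mul, norm_e, norm_e]
        gcongr ‖c n‖ * Real.exp ?_
        simp
        have := mul_le_mul_of_nonneg_left hw'.le (show (0 : ℝ) ≤ n by positivity)
        nlinarith [Real.pi_pos])
    have hm : {w : ℂ | z.im / 2 < w.im} ∈ 𝓝 z := hU.mem_nhds (by show z.im / 2 < z.im; linarith)
    refine ((hd.differentiableAt hm).congr_of_eventuallyEq ?_).differentiableWithinAt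
    filter_upwards [hm] with w hw
    exact (h1 w (lt_trans (by positivity) hw)).tsum_eq.symm
  let F : ModularForm 𝒮ℒ k :=
    { toFun := fun τ : ℍ => f τ
      slash_action_eq' := fun _ ⟨γ, hγ⟩ => hγ ▸ hinv γ
      holo' := mdifferentiable_iff.mpr (hol.congr fun z hz => by
        simp [ofComplex_apply_of_im_pos hz])
      bdd_at_cusps' := fun {c} hc => by
        rw [OnePoint.isBoundedAt_iff_forall_SL2Z hc]
        intro γ _
        rw [hinv γ]
        exact isBoundedAtImInfty_of_hasSum_qExpansion one_pos hq }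
  exact ⟨F, fun n => (ModularFormClass.qExpansion_coeff_unique (f := F) one_pos
    one_mem_strictPeriods_SL hq n).symm⟩

lemma sturm' {k μ : ℕ} (F : ModularForm 𝒮ℒ k) (h0 : ∀ n < μ, (qExpansion 1 F).coeff n = 0)
    (hk : k < 12 * μ) : qExpansion 1 F = 0 := by
  have : F = 0 := by
    apply sturm_bound_levelOne_nat
    refine lt_of_lt_of_le (b := (μ : ℕ∞)) ?_ (PowerSeries.nat_le_order _ _ h0)
    exact_mod_cast (by omega : k / 12 < μ)
  rw [this]; exact qExpansion_zero 1

lemma MF.sturm {k μ : ℕ} {c : ℕ → ℂ} (h : MF k c) (h0 : ∀ n < μ, c n = 0) (hk : k < 12 * μ)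
    (n : ℕ) : c n = 0 := by
  obtain ⟨F, hF⟩ := h.exists
  rw [← hF, sturm' F (fun n hn => by rw [hF, h0 n hn]) hk]; simp

lemma MF.four {c : ℕ → ℂ} (h : MF 4 c) (h0 : c 0 = 1) : c 1 = 240 := by
  obtain ⟨F, hF⟩ := h.exists
  have h1 : qExpansion 1 (F - E₄ : ModularForm 𝒮ℒ (4 : ℕ)) = qExpansion 1 F - qExpansion 1 E₄ :=
    ModularForm.qExpansion_sub one_pos one_mem_strictPeriods_SL F E₄
  have := sturm' (μ := 1) (F - E₄) (fun n hn => by
    obtain rfl : n = 0 := by omega
    rw [h1, map_sub, hF, h0, EisensteinSeries.E_qExpansion_coeff_zero _ ⟨2, rfl⟩, sub_self])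
    (by norm_num)
  rw [h1, sub_eq_zero] at this
  rw [← hF, this, E₄_qExpansion_coeff_one]

/-- Ramanujan's function -/
noncomputable def tau (n : ℕ) : ℂ := (qExpansion 1 ModularForm.discriminant).coeff n

lemma twelve' (F : ModularForm 𝒮ℒ (12 : ℕ)) (h0 : (qExpansion 1 F).coeff 0 = 0) (n : ℕ) :
    (qExpansion 1 F).coeff n = tau n * (qExpansion 1 F).coeff 1 := by
  obtain ⟨c, hc⟩ := CuspForm.exists_smul_discriminant_of_weight_eq_twelve (toCuspForm F h0)
  have h1 : (c • CuspForm.discriminant : ℍ → ℂ) = F := congrArg DFunLike.coe hc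
  have h2 := ModularForm.qExpansion_smul one_pos one_mem_strictPeriods_SL c CuspForm.discriminant
  rw [h1] at h2
  rw [h2]
  simp [tau, discriminant_qExpansion_coeff_one, mul_comm]

lemma MF.twelve {c : ℕ → ℂ} (h : MF 12 c) (h0 : c 0 = 0) (n : ℕ) : c n = tau n * c 1 := by
  obtain ⟨F, hF⟩ := h.exists
  rw [← hF, ← hF, twelve' F (by rw [hF, h0])]

lemma tau_cong {q : ℕ} (hq : q.Prime) : ∃ z : ℤ, 432000 * (tau q - (1 + q ^ 11)) = 691 * z := by
  let G : ModularForm 𝒮ℒ (12 : ℕ) :=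
    E (by norm_num : 3 ≤ 12) - ModularForm.mcast (by decide) (E₄.pow 3)
  have hG : qExpansion 1 G = qExpansion 1 (E (by norm_num : 3 ≤ 12)) - qExpansion 1 E₄ ^ 3 := by
    simp only [G, FunLike.coe_sub, coe_mcast,
      ModularForm.qExpansion_sub one_pos one_mem_strictPeriods_SL,
      ModularForm.qExpansion_pow one_pos one_mem_strictPeriods_SL]
  let P : PowerSeries ℤ := .mk fun n => if n = 0 then 1 else 240 * ArithmeticFunction.sigma 3 n
  have hP : qExpansion 1 E₄ = P.map (Int.castRingHom ℂ) := by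
    ext n
    rw [EisensteinSeries.E_qExpansion_coeff _ ⟨2, rfl⟩,
      show bernoulli 4 = -1 / 30 by decide +kernel]
    simp only [PowerSeries.coeff_map, P, PowerSeries.coeff_mk]
    split_ifs
    · simp
    · simp; norm_num
  have hc : ∀ n, (qExpansion 1 G).coeff n = (if n = 0 then 1 else
      65520 / 691 * (ArithmeticFunction.sigma 11 n : ℂ)) - ((P ^ 3).coeff n : ℤ) := by
    intro n
    rw [hG, map_sub, hP, ← map_pow, PowerSeries.coeff_map,
      EisensteinSeries.E_qExpansion_coeff _ ⟨6, rfl⟩,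
      show bernoulli 12 = -691 / 2730 by decide +kernel]
    congr 2
    norm_num
  have p0 : (P ^ 3).coeff 0 = 1 := by simp [P]
  have p1 : (P ^ 3).coeff 1 = 720 := by
    simp [pow_succ, PowerSeries.coeff_mul, Finset.Nat.antidiagonal_succ, P]
  have := twelve' G (by rw [hc, p0]; simp) q
  rw [hc, hc, p1, if_neg hq.ne_zero, if_neg one_ne_zero, ArithmeticFunction.sigma_apply,
    hq.sum_divisors] at this
  refine ⟨(P ^ 3).coeff q - 720 * (1 + q ^ 11), ?_⟩
  simp at this
  push_cast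
  linear_combination 691 * this

end Pool.Agent.MP_660ce2_nt
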