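import Mathlib
import Pool.Agent.MP_660ce2_nt.pm.Deg1
import Pool.Agent.MP_660ce2_nt.pm.Good

-- ======== part 0: formerly Pool.Agent.MP_660ce2_nt.pm.Th1
section MrgPart0

set_option autoImplicit false

namespace Pool.Agent.MP_660ce2_nt

open Matrix Complex Filter Topology

noncomputable def c1 (L : AddSubgroup V) (s : ℕ) (P : VC → ℂ) (n : ℕ) : ℂ :=
  ∑ x ∈ sph L (2 * s * n), P (cx x)

lemma mf_pow {L : AddSubgroup V} {s : ℕ} (hL : EU L s) {a : VC} (ha : a ⬝ᵥ a = 0) (ν : ℕ) :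
    MF (4 + ν) (c1 L s fun x => (a ⬝ᵥ x) ^ ν) := by
  classical
  have hs : (s : ℂ) ≠ 0 := by exact_mod_cast hL.pos.ne'
  have hs' : (0 : ℤ) < s := by exact_mod_cast hL.pos
  refine ⟨fun τ => ∑' x, ind L x * gt (τ / s / 2) 0 x * (a ⬝ᵥ cx x) ^ ν, fun τ hτ => ?_,
    fun τ hτ => ?_⟩
  · have h2 : 0 < (τ / s / 2).im := by
      rw [div_ofNat_im]; have := im_div_pos hτ hL.pos; positivity
    have hsum : Summable fun x => ind L x * gt (τ / s / 2) 0 x * (a ⬝ᵥ cx x) ^ ν := by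
      refine Summable.of_norm_bounded (summable_gen L h2 1 0 a 0 ν) fun x => ?_
      rw [norm_mul, one_mul, add_zero]
      exact mul_le_mul_of_nonneg_left (norm_pow_le_exp _ _) (norm_nonneg _)
    let φ : V → ℕ := fun x => (x ⬝ᵥ x / (2 * s)).toNat
    refine hs_congr (hsum.hasSum.tsum_fiberwise φ) (fun n => ?_) rfl
    rw [tsum_subtype (φ ⁻¹' {n}) (fun x => ind L x * gt (τ / s / 2) 0 x * (a ⬝ᵥ cx x) ^ ν),
      tsum_eq_sum (s := sph L (2 * s * n)), c1, Finset.sum_mul]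
    · refine Finset.sum_congr rfl fun x hx => ?_
      obtain ⟨h1, h3⟩ := mem_sph.mp hx
      rw [Set.indicator_of_mem]
      · simp only [gt, ind, h1, if_true, h3, zero_dotProduct, add_zero, one_mul]
        rw [mul_comm]; congr 2; push_cast; field_simp
      · simp only [Set.mem_preimage, Set.mem_singleton_iff, φ, h3]
        rw [Int.mul_ediv_cancel_left _ (by omega)]; simp
    · intro x hx
      by_contra hc
      have h0 := Set.mem_of_indicator_ne_zero hc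
      rw [Set.indicator_of_mem h0] at hc
      have h1 : x ∈ L := by by_contra h1; simp [ind, h1] at hc
      have h0' : φ x = n := h0
      refine hx (mem_sph.mpr ⟨h1, ?_⟩)
      rw [← h0', Int.toNat_of_nonneg (Int.ediv_nonneg (dot_self_nonneg x) (by omega))]
      exact (Int.mul_ediv_cancel' (hL.even _ h1)).symm
  · have := hL.poissonH hτ 0 ha 0 ν
    simp only [smul_zero, dotProduct_zero, add_zero, neg_zero, zero_div, e_zero, one_mul,
      smul_dotProduct, smul_eq_mul] at this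
    simp only
    rw [← this, ← tsum_mul_left]
    exact tsum_congr fun x => by ring

lemma mf_harm {L : AddSubgroup V} {s : ℕ} (hL : EU L s) {ν : ℕ} {P : VC → ℂ} (hP : P ∈ Harm ν) :
    MF (4 + ν) (c1 L s P) := by
  induction hP using Submodule.span_induction with
  | mem P hP => obtain ⟨a, ha, rfl⟩ := hP; exact mf_pow hL ha ν
  | zero => convert (mf_pow hL (a := 0) (by simp) ν).smul 0; ext n; simp [c1]
  | add P Q _ _ h1 h2 => convert h1.add h2; ext n; simp [c1, Finset.sum_add_distrib]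
  | smul c P _ h1 => convert h1.smul c; ext n; simp [c1, Finset.mul_sum]

lemma sph_zero (L : AddSubgroup V) : sph L 0 = {0} := by
  ext x
  rw [mem_sph, Finset.mem_singleton, dotProduct_self_eq_zero]
  exact ⟨fun h => h.2, fun h => ⟨h ▸ L.zero_mem, h⟩⟩

lemma c1_zero (L : AddSubgroup V) (s : ℕ) (P : VC → ℂ) : c1 L s P 0 = P 0 := by
  simp [c1, sph_zero]

lemma EU.card_roots {L : AddSubgroup V} {s : ℕ} (hL : EU L s) : (sph L (2 * s)).card = 240 := by
  have := (mf_pow hL (a := 0) (by simp) 0).four (by simp [c1_zero])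
  simp only [c1, pow_zero, Finset.sum_const, Nat.cast_one, mul_one, nsmul_eq_mul] at this
  exact_mod_cast this

lemma EU.design0 {L : AddSubgroup V} {s : ℕ} (hL : EU L s) {a : VC} (ha : a ⬝ᵥ a = 0) :
    ∑ x ∈ sph L (2 * s), (a ⬝ᵥ cx x) ^ 2 = 0 := by
  have := (mf_pow hL ha 2).sturm (μ := 1) (fun n hn => by
    obtain rfl : n = 0 := by omega
    simp [c1_zero]) (by norm_num) 1
  simpa [c1] using this

lemma EU.design1 {L : AddSubgroup V} {s : ℕ} (hL : EU L s) (i j : Fin 8) :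
    ∑ x ∈ sph L (2 * s), x i * x j = if i = j then 60 * (s : ℤ) else 0 := by
  have key : ∀ i j : Fin 8, i ≠ j → ∑ x ∈ sph L (2 * s), x i * x j = 0 ∧
      ∑ x ∈ sph L (2 * s), x i * x i = ∑ x ∈ sph L (2 * s), x j * x j := by
    intro i j hij
    have := hL.design0 (a := Pi.single i 1 + Pi.single j I) (by
      simp [dotProduct_add, hij, hij.symm])
    have h2 : ∀ x : V, ((Pi.single i 1 + Pi.single j I : VC) ⬝ᵥ cx x) ^ 2
        = ((x i * x i - x j * x j : ℤ) : ℂ) + ((2 * (x i * x j) : ℤ) : ℂ) * I := by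
      intro x
      simp only [add_dotProduct, single_dotProduct, cx]
      push_cast
      linear_combination (x j : ℂ) ^ 2 * I_mul_I
    simp_rw [h2] at this
    rw [Finset.sum_add_distrib, ← Finset.sum_mul, ← Int.cast_sum, ← Int.cast_sum] at this
    have h3 := congrArg re this
    have h4 := congrArg im this
    simp only [add_re, intCast_re, mul_re, I_re, mul_zero, intCast_im, I_im, mul_one, sub_self,
      add_zero, zero_re, Int.cast_eq_zero, add_im, mul_im, zero_add, zero_im] at h3 h4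
    rw [← Finset.mul_sum] at h4
    rw [Finset.sum_sub_distrib] at h3
    exact ⟨by omega, by omega⟩
  split_ifs with h
  · subst h
    have h1 : ∑ j : Fin 8, ∑ x ∈ sph L (2 * s), x j * x j = 240 * (2 * s) := by
      rw [Finset.sum_comm]
      refine (Finset.sum_congr (g := fun _ => 2 * (s : ℤ)) rfl
        fun x hx => (mem_sph.mp hx).2).trans ?_
      simp [hL.card_roots]
    have h2 : ∀ j, ∑ x ∈ sph L (2 * s), x j * x j = ∑ x ∈ sph L (2 * s), x i * x i := by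
      intro j
      by_cases h : j = i
      · rw [h]
      · exact (key j i h).2
    simp only [h2, Finset.sum_const, Finset.card_univ, Fintype.card_fin, nsmul_eq_mul] at h1
    push_cast at h1
    omega
  · exact (key i j h).1

lemma EU.design {L : AddSubgroup V} {s : ℕ} (hL : EU L s) (y : V) :
    ∑ x ∈ sph L (2 * s), (x ⬝ᵥ y) • x = (60 * (s : ℤ)) • y := by
  ext i
  simp only [Finset.sum_apply, Pi.smul_apply, smul_eq_mul, dotProduct, Finset.sum_mul]
  rw [Finset.sum_comm]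
  have : ∀ j, ∑ x ∈ sph L (2 * s), x j * y j * x i = (if i = j then 60 * (s : ℤ) else 0) * y j := by
    intro j
    rw [← hL.design1, Finset.sum_mul]
    exact Finset.sum_congr rfl fun x _ => by ring
  simp [this]

lemma arr_bd1 (L M : AddSubgroup V) (s : ℕ) {P : VC → ℂ} (hP : P ∈ Harm 8) (n : ℕ)
    (u : Fin 2 → ℂ) : arr L M s P (n, 0, 0) u = u 0 ^ 8 * c1 L s P n := by
  rw [arr, c1, Finset.mul_sum]
  refine Finset.sum_nbij' (fun x => x.1) (fun x => (x, 0)) (fun x hx => ?_) (fun x hx => ?_)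
    (fun x hx => ?_) (fun _ _ => rfl) (fun x hx => ?_)
  · obtain ⟨h1, -, h3, -⟩ := mem_fib.mp hx
    exact mem_sph.mpr ⟨h1, h3⟩
  · obtain ⟨h1, h3⟩ := mem_sph.mp hx
    exact mem_fib.mpr ⟨h1, M.zero_mem, h3, by simp, by simp⟩
  all_goals
    obtain ⟨-, -, -, -, h5⟩ := mem_fib.mp hx
    have h6 : x.2 = 0 := dotProduct_self_eq_zero.mp (by simpa using h5)
  · ext1 <;> simp [h6]
  · simp [h6, Harm.hom hP]

lemma arr_bd2 (L M : AddSubgroup V) (N s : ℕ) {P : VC → ℂ} (hP : P ∈ Harm 8) (n : ℕ)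
    (u : Fin 2 → ℂ) : arr L M s P (0, 0, N * n) u = u 1 ^ 8 * c1 M (N * s) P n := by
  rw [arr, c1, Finset.mul_sum]
  refine Finset.sum_nbij' (fun x => x.2) (fun x => (0, x)) (fun x hx => ?_) (fun x hx => ?_)
    (fun x hx => ?_) (fun _ _ => rfl) (fun x hx => ?_)
  · obtain ⟨-, h1, -, -, h3⟩ := mem_fib.mp hx
    exact mem_sph.mpr ⟨h1, by rw [h3]; push_cast; ring⟩
  · obtain ⟨h1, h3⟩ := mem_sph.mp hx
    exact mem_fib.mpr ⟨L.zero_mem, h1, by simp, by simp, by rw [h3]; push_cast; ring⟩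
  all_goals
    obtain ⟨-, -, h5, -⟩ := mem_fib.mp hx
    have h6 : x.1 = 0 := dotProduct_self_eq_zero.mp (by simpa using h5)
  · ext1 <;> simp [h6]
  · simp [h6, Harm.hom hP]

lemma c1_tau {L : AddSubgroup V} {s : ℕ} (hL : EU L s) {P : VC → ℂ} (hP : P ∈ Harm 8) (n : ℕ) :
    c1 L s P n = tau n * c1 L s P 1 :=
  (mf_harm hL hP).twelve (by simpa [c1_zero] using Harm.hom hP 0 0) n

lemma W_bd {N : ℕ} {A : Arr} (h : A ∈ W N) (n : ℕ) (u : Fin 2 → ℂ) :
    A (n, 0, 0) u = tau n * A (1, 0, 0) u ∧ A (0, 0, N * n) u = tau n * A (0, 0, N) u := by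
  induction h using Submodule.span_induction with
  | mem A hA =>
    obtain ⟨L, M, s, a, h, ha, rfl⟩ := hA
    have e1 := arr_bd1 L M s (pow_mem_harm ha) 1 u
    have e2 := arr_bd2 L M N s (pow_mem_harm ha) 1 u
    simp only [Nat.cast_one, mul_one] at e1 e2
    rw [arr_bd1 L M s (pow_mem_harm ha), arr_bd2 L M N s (pow_mem_harm ha), e1, e2,
      c1_tau h.hL (pow_mem_harm ha) n, c1_tau h.hM (pow_mem_harm ha) n]
    exact ⟨by ring, by ring⟩
  | zero => simp
  | add A B _ _ h1 h2 => simp [h1, h2, mul_add]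
  | smul c A _ h1 => simp [h1, mul_left_comm]

lemma sing_param {n r m : ℤ} (hn : 0 < n) (hm : 0 ≤ m) (h : r ^ 2 = 4 * n * m) :
    ∃ t x y : ℤ, 0 ≤ t ∧ IsCoprime x y ∧ n = x * x * t ∧ r = 2 * x * y * t ∧ m = y * y * t := by
  obtain ⟨g, n', m', hg, hc, rfl, rfl⟩ := Int.exists_gcd_one' (m := n) (n := m)
    (Int.gcd_pos_of_ne_zero_left _ hn.ne')
  have hg' : (0 : ℤ) < g := by exact_mod_cast hg
  have h1 : (2 * (g : ℤ)) ^ 2 ∣ r ^ 2 := ⟨n' * m', by rw [h]; ring⟩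
  obtain ⟨ρ, rfl⟩ := (Int.pow_dvd_pow_iff two_ne_zero).mp h1
  have h2 : n' * m' = ρ ^ 2 := by
    apply mul_left_cancel₀ (pow_ne_zero 2 (show 2 * (g : ℤ) ≠ 0 by omega)); linarith
  have hn' : 0 < n' := by by_contra hc; nlinarith
  have hm' : 0 ≤ m' := by by_contra hc; nlinarith
  obtain ⟨x, hx⟩ : ∃ x, n' = x ^ 2 := by
    obtain ⟨x, hx | hx⟩ := Int.sq_of_gcd_eq_one hc h2
    exacts [⟨x, hx⟩, by nlinarith [sq_nonneg x]]
  obtain ⟨y, hy⟩ : ∃ y, m' = y ^ 2 := by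
    obtain ⟨y, hy | hy⟩ := Int.sq_of_gcd_eq_one (a := m') (b := n') (by rwa [Int.gcd_comm])
      (by rwa [mul_comm])
    exacts [⟨y, hy⟩, ⟨0, by nlinarith [sq_nonneg y]⟩]
  subst hx hy
  have hxy : IsCoprime x y := by
    have := Int.isCoprime_iff_gcd_eq_one.mpr hc
    rwa [IsCoprime.pow_left_iff two_pos, IsCoprime.pow_right_iff two_pos] at this
  rcases sq_eq_sq_iff_eq_or_eq_neg.mp (show ρ ^ 2 = (x * y) ^ 2 by rw [← h2]; ring) with h3 | h3
  · exact ⟨g, x, y, hg'.le, hxy, by ring, by rw [h3]; ring, by ring⟩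
  · exact ⟨g, x, -y, hg'.le, hxy.neg_right, by ring, by rw [h3]; ring, by ring⟩

lemma sing_zero {N : ℕ} (hN : N = 1 ∨ N.Prime) {A : Arr} (h : A ∈ W N) (h1 : A (1, 0, 0) = 0)
    (h2 : A (0, 0, N) = 0) {T : T3} (hT : T.2.1 ^ 2 = 4 * T.1 * T.2.2) : A T = 0 := by
  have hN0 : 0 < N := by rcases hN with rfl | h; exacts [one_pos, h.pos]
  have hG := good_of_W hN0 h
  have b1 : ∀ t : ℤ, 0 ≤ t → ∀ u, A (t, 0, 0) u = 0 := by
    intro t ht u
    lift t to ℕ using ht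
    rw [(W_bd h t u).1, h1]; simp
  have b2 : ∀ t : ℤ, 0 ≤ t → (N : ℤ) ∣ t → ∀ u, A (0, 0, t) u = 0 := by
    rintro _ ht ⟨t, rfl⟩ u
    lift t to ℕ using by by_contra hc; nlinarith
    rw [(W_bd h t u).2, h2]; simp
  by_contra hc
  obtain ⟨s1, s2, -, s4⟩ := hG.supp T hc
  obtain ⟨n, r, m⟩ := T
  simp only at hT s1 s2 s4
  apply hc
  ext u
  rcases s1.eq_or_lt with rfl | hn
  · obtain rfl : r = 0 := by simpa using hT
    exact b2 m s2 s4 u
  obtain ⟨t, x, y, ht, hxy, rfl, rfl, rfl⟩ := sing_param hn s2 hT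
  by_cases hy : (N : ℤ) ∣ y
  · obtain ⟨d, c, hcd⟩ := hxy
    have := hG.equi (a := x) (b := y) (c := -c) (d := d) (ε := 1) (by linarith) hy (t, 0, 0) u
    rw [b1 t ht] at this
    simpa [tr] using this
  · have hp : N.Prime := by
      rcases hN with rfl | h
      exacts [absurd (one_dvd y) hy, h]
    have hp' : Prime (N : ℤ) := Nat.prime_iff_prime_int.mp hp
    have ht' : (N : ℤ) ∣ t := by
      rcases hp'.dvd_or_dvd s4 with h | h
      exacts [absurd ((hp'.dvd_or_dvd h).elim id id) hy, h]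
    obtain ⟨a, b, hab⟩ : IsCoprime y (N * x) :=
      IsCoprime.mul_right ((hp'.coprime_iff_not_dvd.mpr hy).symm) hxy.symm
    have := hG.equi (a := a) (b := -(b * N)) (c := x) (d := y) (ε := 1) (by linarith)
      (by simp) (0, 0, t) u
    rw [b2 t ht ht'] at this
    simpa [tr] using this

end Pool.Agent.MP_660ce2_nt

end MrgPart0

-- ======== part 1: formerly Pool.Agent.MP_660ce2_nt.pm.Slash
section MrgPart1

set_option autoImplicit false

namespace Pool.Agent.MP_660ce2_nt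

open Matrix Complex

abbrev Q2 : Type := Matrix (Fin 2) (Fin 2) ℚ

def mkZ (τ z τ' : ℂ) : M2 := !![τ, z; z, τ']

lemma mk_mem {τ z τ' : ℂ} : mkZ τ z τ' ∈ H2 ↔ H3 τ z τ' := by simp [mkZ, H2, H3]

lemma eq_mk {Z : M2} (h : Z ∈ H2) : Z = mkZ (Z 0 0) (Z 0 1) (Z 1 1) := by
  ext i j; fin_cases i <;> fin_cases j <;> simp [mkZ, h.1]

lemma H2_ind {p : M2 → Prop} (h : ∀ τ z τ', H3 τ z τ' → p (mkZ τ z τ')) : ∀ Z ∈ H2, p Z :=
  fun Z hZ => by rw [eq_mk hZ]; exact h _ _ _ hZ.2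

lemma toC_mul (A B : Q2) : toC (A * B) = toC A * toC B := by
  ext i j; simp [toC, mul_apply]

lemma toC_add (A B : Q2) : toC (A + B) = toC A + toC B := by ext i j; simp [toC]

lemma toC_one : toC 1 = 1 := by
  ext i j; fin_cases i <;> fin_cases j <;> simp [toC]

lemma toC_zero : toC 0 = 0 := by ext i j; simp [toC]

lemma blocks_mul (g h : M4) :
    (g * h).toBlocks₁₁ = g.toBlocks₁₁ * h.toBlocks₁₁ + g.toBlocks₁₂ * h.toBlocks₂₁ ∧
    (g * h).toBlocks₁₂ = g.toBlocks₁₁ * h.toBlocks₁₂ + g.toBlocks₁₂ * h.toBlocks₂₂ ∧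
    (g * h).toBlocks₂₁ = g.toBlocks₂₁ * h.toBlocks₁₁ + g.toBlocks₂₂ * h.toBlocks₂₁ ∧
    (g * h).toBlocks₂₂ = g.toBlocks₂₁ * h.toBlocks₁₂ + g.toBlocks₂₂ * h.toBlocks₂₂ := by
  have := fromBlocks_multiply g.toBlocks₁₁ g.toBlocks₁₂ g.toBlocks₂₁ g.toBlocks₂₂
    h.toBlocks₁₁ h.toBlocks₁₂ h.toBlocks₂₁ h.toBlocks₂₂
  rw [fromBlocks_toBlocks, fromBlocks_toBlocks] at this
  rw [this]
  simp

lemma aux_mul (P Q : M2) (h : M4) {Z : M2} (hu : IsUnit (autF h Z).det) :
    (P * act h Z + Q) * autF h Z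
      = (P * toC h.toBlocks₁₁ + Q * toC h.toBlocks₂₁) * Z
        + (P * toC h.toBlocks₁₂ + Q * toC h.toBlocks₂₂) := by
  rw [add_mul, act, mul_assoc, mul_assoc, nonsing_inv_mul _ hu, mul_one, autF]
  noncomm_ring

lemma autF_mul (g h : M4) {Z : M2} (hu : IsUnit (autF h Z).det) :
    autF (g * h) Z = autF g (act h Z) * autF h Z := by
  rw [autF, (blocks_mul g h).2.2.1, (blocks_mul g h).2.2.2, autF.eq_1 g, aux_mul _ _ h hu]
  simp only [toC_add, toC_mul]

lemma act_mul (g h : M4) {Z : M2} (hu : IsUnit (autF h Z).det) :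
    act (g * h) Z = act g (act h Z) := by
  rw [act, autF_mul g h hu, (blocks_mul g h).1, (blocks_mul g h).2.1, Matrix.mul_inv_rev]
  simp only [toC_add, toC_mul]
  rw [← aux_mul _ _ h hu, mul_assoc, ← mul_assoc (autF h Z), mul_nonsing_inv _ hu, one_mul,
    act.eq_1 g]

lemma slash_mul (k : ℕ) (F : Fn) (g h : M4) {Z : M2} (hu : IsUnit (autF h Z).det) :
    slash k F (g * h) Z = slash k (slash k F g) h Z := by
  ext u
  simp only [slash]
  rw [act_mul g h hu, autF_mul g h hu, Matrix.mul_inv_rev, det_mul, vecMul_vecMul, mul_pow,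
    mul_inv]
  ring

def Pres (h : M4) : Prop := ∀ Z ∈ H2, IsUnit (autF h Z).det ∧ act h Z ∈ H2

lemma Pres.mul {g h : M4} (hg : Pres g) (hh : Pres h) : Pres (g * h) := by
  intro Z hZ
  obtain ⟨h1, h2⟩ := hh Z hZ
  obtain ⟨h3, h4⟩ := hg _ h2
  rw [autF_mul g h h1, act_mul g h h1, det_mul]
  exact ⟨h3.mul h1, h4⟩

lemma slash_congr (k : ℕ) {F G : Fn} (hFG : ∀ Z ∈ H2, F Z = G Z) {h : M4} (hh : Pres h) {Z : M2}
    (hZ : Z ∈ H2) : slash k F h Z = slash k G h Z := by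
  ext u; simp only [slash, hFG _ (hh Z hZ).2]

/-- data of an element of the Siegel parabolic -/
structure Par (A B D : Q2) (μ a b c d s1 s2 s3 : ℚ) : Prop where
  hA : A = !![μ * a, μ * b; μ * c, μ * d]
  hD : D * !![a, c; b, d] = 1
  hB : B * !![a, c; b, d] = !![s1, s2; s2, s3]

section
variable {A B D : Q2} {μ a b c d s1 s2 s3 : ℚ}

lemma Par.autF (_ : Par A B D μ a b c d s1 s2 s3) (Z : M2) :
    autF (fromBlocks A B 0 D) Z = toC D := by
  simp [MP_660ce2_nt.autF, toC_zero]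

lemma Par.inv (h : Par A B D μ a b c d s1 s2 s3) : (toC D)⁻¹ = toC !![a, c; b, d] :=
  inv_eq_right_inv (by rw [← toC_mul, h.hD, toC_one])

lemma Par.det (h : Par A B D μ a b c d s1 s2 s3) : (toC D).det * (a * d - b * c) = 1 := by
  have := congrArg Matrix.det (show toC D * toC !![a, c; b, d] = 1 by
    rw [← toC_mul, h.hD, toC_one])
  rw [det_mul, det_one] at this
  rw [← this]; congr 1
  simp [toC, det_fin_two]; ring

lemma Par.det_ne (h : Par A B D μ a b c d s1 s2 s3) : a * d - b * c ≠ 0 := by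
  intro h0
  have := h.det
  have h1 : ((a : ℂ) * d - b * c) = 0 := by exact_mod_cast h0
  rw [h1] at this; simp at this

lemma Par.act (h : Par A B D μ a b c d s1 s2 s3) (τ z τ' : ℂ) :
    act (fromBlocks A B 0 D) (mkZ τ z τ')
      = mkZ (μ * (a * a * τ + 2 * a * b * z + b * b * τ') + s1)
        (μ * (a * c * τ + (a * d + b * c) * z + b * d * τ') + s2)
        (μ * (c * c * τ + 2 * c * d * z + d * d * τ') + s3) := by
  rw [MP_660ce2_nt.act, h.autF, h.inv, add_mul, toBlocks_fromBlocks₁₂, ← toC_mul, h.hB,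
    toBlocks_fromBlocks₁₁, h.hA]
  ext i j
  fin_cases i <;> fin_cases j <;> simp [toC, mkZ, mul_apply, Fin.sum_univ_two] <;> ring

lemma Par.slash (h : Par A B D μ a b c d s1 s2 s3) (k : ℕ) (F : Fn) (τ z τ' : ℂ)
    (u : Fin 2 → ℂ) : slash k F (fromBlocks A B 0 D) (mkZ τ z τ') u
      = ((a : ℂ) * d - b * c) ^ k * F (mkZ (μ * (a * a * τ + 2 * a * b * z + b * b * τ') + s1)
        (μ * (a * c * τ + (a * d + b * c) * z + b * d * τ') + s2)
        (μ * (c * c * τ + 2 * c * d * z + d * d * τ') + s3))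
        ![u 0 * a + u 1 * b, u 0 * c + u 1 * d] := by
  rw [MP_660ce2_nt.slash, h.act, h.autF, h.inv, ← inv_pow, inv_eq_of_mul_eq_one_right h.det]
  congr 2
  ext i
  fin_cases i <;> simp [toC, vecMul, dotProduct, Fin.sum_univ_two]

lemma H3.par {τ z τ' : ℂ} (h : H3 τ z τ') (hμ : 0 < μ) (hd : a * d - b * c ≠ 0) :
    H3 (μ * (a * a * τ + 2 * a * b * z + b * b * τ') + s1)
      (μ * (a * c * τ + (a * d + b * c) * z + b * d * τ') + s2)
      (μ * (c * c * τ + 2 * c * d * z + d * d * τ') + s3) := by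
  have h1 := h.1
  have h2 := sub_pos.mpr h.2
  have hμ' : (0 : ℝ) < μ := by exact_mod_cast hμ
  have hd' : (a : ℝ) * d - b * c ≠ 0 := by exact_mod_cast hd
  constructor
  · simp
    apply mul_pos hμ'
    apply (mul_pos_iff_of_pos_left h1).mp
    by_cases hb : (b : ℝ) = 0
    · have ha : (a : ℝ) ≠ 0 := fun ha => hd' (by simp [ha, hb])
      rw [hb]
      have := mul_pos (mul_pos h1 h1) (mul_self_pos.mpr ha)
      nlinarith
    · have := mul_pos (mul_self_pos.mpr hb) h2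
      nlinarith [sq_nonneg (a * τ.im + b * z.im)]
  · simp
    have := mul_pos (mul_pos (mul_pos hμ' hμ') (mul_self_pos.mpr hd')) h2
    nlinarith

lemma Par.pres (h : Par A B D μ a b c d s1 s2 s3) (hμ : 0 < μ) : Pres (fromBlocks A B 0 D) := by
  refine H2_ind fun τ z τ' hz => ⟨?_, ?_⟩
  · rw [h.autF]; exact IsUnit.of_mul_eq_one _ h.det
  · rw [h.act, mk_mem]; exact hz.par hμ h.det_ne

end

lemma par_of_symp {g : M4} (hg : g ∈ symplecticGroup (Fin 2) ℚ) (hC : g.toBlocks₂₁ = 0) :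
    ∃ s1 s2 s3, g = fromBlocks g.toBlocks₁₁ g.toBlocks₁₂ 0 g.toBlocks₂₂ ∧
      Par g.toBlocks₁₁ g.toBlocks₁₂ g.toBlocks₂₂ 1 (g.toBlocks₁₁ 0 0) (g.toBlocks₁₁ 0 1)
        (g.toBlocks₁₁ 1 0) (g.toBlocks₁₁ 1 1) s1 s2 s3 := by
  have h0 : g = fromBlocks g.toBlocks₁₁ g.toBlocks₁₂ 0 g.toBlocks₂₂ := by
    rw [← hC, fromBlocks_toBlocks]
  rw [h0, SymplecticGroup.fromBlocks_mem_iff] at hg
  obtain ⟨-, h2, h3⟩ := hg
  generalize g.toBlocks₁₁ = A at *
  generalize g.toBlocks₁₂ = B at *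
  generalize g.toBlocks₂₂ = D at *
  have hT : !![A 0 0, A 1 0; A 0 1, A 1 1] = Aᵀ := by
    ext i j; fin_cases i <;> fin_cases j <;> rfl
  rw [transpose_zero, Matrix.zero_mul, sub_zero] at h3
  have h4 : D * Aᵀ = 1 := mul_eq_one_comm.mp h3
  have h5 : (B * Aᵀ)ᵀ = B * Aᵀ := by
    have h6 : A * Dᵀ = 1 := by simpa using congrArg transpose h4
    calc (B * Aᵀ)ᵀ = A * Bᵀ * (D * Aᵀ) := by rw [h4]; simp
      _ = A * (Bᵀ * D) * Aᵀ := by simp only [Matrix.mul_assoc]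
      _ = (A * Dᵀ) * (B * Aᵀ) := by rw [h2]; simp only [Matrix.mul_assoc]
      _ = _ := by rw [h6, one_mul]
  refine ⟨(B * Aᵀ) 0 0, (B * Aᵀ) 0 1, (B * Aᵀ) 1 1, h0, ?_, by rw [hT, h4], ?_⟩
  · ext i j; fin_cases i <;> fin_cases j <;> simp
  · rw [hT]
    have : (B * Aᵀ) 1 0 = (B * Aᵀ) 0 1 := (congrFun (congrFun h5 1) 0).symm
    ext i j; fin_cases i <;> fin_cases j <;> simp [this]

def i1 (a b c d : ℚ) : M4 := fromBlocks !![a, 0; 0, 1] !![b, 0; 0, 0] !![c, 0; 0, 0] !![d, 0; 0, 1]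

def i2 (N : ℕ) (a b c d : ℚ) : M4 :=
  fromBlocks !![1, 0; 0, a] !![0, 0; 0, b / N] !![0, 0; 0, c * N] !![1, 0; 0, d]

lemma J1_data {τ z τ' : ℂ} (h : H3 τ z τ') :
    autF (i1 0 (-1) 1 0) (mkZ τ z τ') = !![τ, z; 0, 1] ∧
    (autF (i1 0 (-1) 1 0) (mkZ τ z τ'))⁻¹ = !![1 / τ, -z / τ; 0, 1] ∧
    act (i1 0 (-1) 1 0) (mkZ τ z τ') = mkZ (-1 / τ) (z / τ) (τ' - z ^ 2 / τ) := by
  have h0 : τ ≠ 0 := by have := h.1; rintro rfl; simp at this
  have e1 : autF (i1 0 (-1) 1 0) (mkZ τ z τ') = !![τ, z; 0, 1] := by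
    ext i j; fin_cases i <;> fin_cases j <;> simp [autF, i1, toC, mkZ, mul_apply, Fin.sum_univ_two]
  have e2 : (autF (i1 0 (-1) 1 0) (mkZ τ z τ'))⁻¹ = !![1 / τ, -z / τ; 0, 1] := by
    rw [e1]; apply inv_eq_right_inv
    ext i j; fin_cases i <;> fin_cases j <;> simp [mul_apply, Fin.sum_univ_two] <;> field_simp
    ring
  refine ⟨e1, e2, ?_⟩
  rw [act, e2]
  ext i j
  fin_cases i <;> fin_cases j <;> simp [i1, toC, mkZ, mul_apply, Fin.sum_univ_two] <;> ring

lemma J1_pres : Pres (i1 0 (-1) 1 0) := by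
  refine H2_ind fun τ z τ' h => ?_
  have h0 : τ ≠ 0 := by have := h.1; rintro rfl; simp at this
  rw [(J1_data h).1, (J1_data h).2.2, mk_mem]
  exact ⟨by simpa [det_fin_two] using h0, h.inv⟩

lemma J1_slash (k : ℕ) (F : Fn) {τ z τ' : ℂ} (h : H3 τ z τ') (u v : ℂ) :
    slash k F (i1 0 (-1) 1 0) (mkZ τ z τ') ![u * τ, u * z + v]
      = (τ ^ k)⁻¹ * F (mkZ (-1 / τ) (z / τ) (τ' - z ^ 2 / τ)) ![u, v] := by
  have h0 : τ ≠ 0 := by have := h.1; rintro rfl; simp at this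
  rw [slash, (J1_data h).2.1, (J1_data h).2.2, (J1_data h).1]
  congr 2
  · simp [det_fin_two]
  · ext i; fin_cases i <;> simp [vecMul, dotProduct, Fin.sum_univ_two] <;> field_simp
    ring

lemma J2_data {N : ℕ} (hN : 0 < N) {τ z τ' : ℂ} (h : H3 τ z τ') :
    autF (i2 N 0 (-1) 1 0) (mkZ τ z τ') = !![1, 0; N * z, N * τ'] ∧
    (autF (i2 N 0 (-1) 1 0) (mkZ τ z τ'))⁻¹ = !![1, 0; -z / τ', 1 / (N * τ')] ∧
    act (i2 N 0 (-1) 1 0) (mkZ τ z τ')
      = mkZ (τ - z ^ 2 / τ') (z / (N * τ')) (-1 / (N ^ 2 * τ')) := by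
  have h0 : τ' ≠ 0 := by have := h.pos; rintro rfl; simp at this
  have hN' : (N : ℂ) ≠ 0 := by exact_mod_cast hN.ne'
  have e1 : autF (i2 N 0 (-1) 1 0) (mkZ τ z τ') = !![1, 0; N * z, N * τ'] := by
    ext i j; fin_cases i <;> fin_cases j <;> simp [autF, i2, toC, mkZ, mul_apply, Fin.sum_univ_two]
  have e2 : (autF (i2 N 0 (-1) 1 0) (mkZ τ z τ'))⁻¹ = !![1, 0; -z / τ', 1 / (N * τ')] := by
    rw [e1]; apply inv_eq_right_inv
    ext i j; fin_cases i <;> fin_cases j <;> simp [mul_apply, Fin.sum_univ_two] <;> field_simp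
    ring
  refine ⟨e1, e2, ?_⟩
  rw [act, e2]
  ext i j
  fin_cases i <;> fin_cases j <;> simp [i2, toC, mkZ, mul_apply, Fin.sum_univ_two] <;>
    field_simp
  ring

lemma J2_pres {N : ℕ} (hN : 0 < N) : Pres (i2 N 0 (-1) 1 0) := by
  refine H2_ind fun τ z τ' h => ?_
  have h0 : τ' ≠ 0 := by have := h.pos; rintro rfl; simp at this
  rw [(J2_data hN h).1, (J2_data hN h).2.2, mk_mem]
  exact ⟨by simpa [det_fin_two] using ⟨hN.ne', h0⟩, h.inv2 hN⟩

lemma J2_slash {N : ℕ} (hN : 0 < N) (k : ℕ) (F : Fn) {τ z τ' : ℂ} (h : H3 τ z τ') (u v : ℂ) :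
    slash k F (i2 N 0 (-1) 1 0) (mkZ τ z τ') ![u + v * (N * z), v * (N * τ')]
      = ((N * τ') ^ k)⁻¹ * F (mkZ (τ - z ^ 2 / τ') (z / (N * τ')) (-1 / (N ^ 2 * τ'))) ![u, v] := by
  have h0 : τ' ≠ 0 := by have := h.pos; rintro rfl; simp at this
  have hN' : (N : ℂ) ≠ 0 := by exact_mod_cast hN.ne'
  rw [slash, (J2_data hN h).2.1, (J2_data hN h).2.2, (J2_data hN h).1]
  congr 2
  · simp [det_fin_two]
  · ext i; fin_cases i <;> simp [vecMul, dotProduct, Fin.sum_univ_two] <;> field_simp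
    ring

end Pool.Agent.MP_660ce2_nt

end MrgPart1

-- ======== part 2: formerly Pool.Agent.MP_660ce2_nt.pm.Dec
section MrgPart2

set_option autoImplicit false

namespace Pool.Agent.MP_660ce2_nt

open Matrix MatrixGroups

lemma pat_mul {N : ℕ} (hN : 0 < N) (i k j : Fin 2 ⊕ Fin 2) :
    ∃ n : ℤ, pattern N i k * pattern N k j = n * pattern N i j := by
  have hN' : (N : ℚ) ≠ 0 := by exact_mod_cast hN.ne'
  have : pattern N i k * pattern N k j = 1 * pattern N i j ∨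
      pattern N i k * pattern N k j = N * pattern N i j ∨
      pattern N i k * pattern N k j = N * N * pattern N i j := by
    rcases i with i | i <;> rcases k with k | k <;> rcases j with j | j <;>
      fin_cases i <;> fin_cases k <;> fin_cases j <;> simp [pattern, hN']
  rcases this with h | h | h
  exacts [⟨1, by simpa using h⟩, ⟨N, by simpa using h⟩, ⟨N * N, by simpa using h⟩]

lemma K_mul {N : ℕ} (hN : 0 < N) {g h : M4} (hg : g ∈ K N) (hh : h ∈ K N) : g * h ∈ K N := by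
  refine ⟨Submonoid.mul_mem _ hg.1 hh.1, fun i j => ?_⟩
  choose a ha using hg.2
  choose b hb using hh.2
  choose c hc using pat_mul hN
  refine ⟨∑ k, a i k * b k j * c i k j, ?_⟩
  rw [mul_apply]; push_cast; rw [Finset.sum_mul]
  exact Finset.sum_congr rfl fun k _ => by rw [ha, hb]; linear_combination a i k * b k j * hc i k j

def U1 (t : ℚ) : M4 := fromBlocks !![1, 0; t, 1] 0 0 !![1, -t; 0, 1]
def U2 (N : ℕ) (t : ℚ) : M4 := fromBlocks !![1, t * N; 0, 1] 0 0 !![1, 0; -t * N, 1]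

lemma mem_K_of {N : ℕ} {g : M4} (hg : g ∈ symplecticGroup (Fin 2) ℚ)
    (n : Matrix (Fin 2 ⊕ Fin 2) (Fin 2 ⊕ Fin 2) ℤ) (h : ∀ i j, g i j = n i j * pattern N i j) :
    g ∈ K N := ⟨hg, fun i j => ⟨n i j, h i j⟩⟩

lemma i1_mem {N : ℕ} {a b c d : ℤ} (h : a * d - b * c = 1) : i1 a b c d ∈ K N := by
  have h' : (a : ℚ) * d - b * c = 1 := by exact_mod_cast h
  refine mem_K_of ?_ (fromBlocks !![a, 0; 0, 1] !![b, 0; 0, 0] !![c, 0; 0, 0] !![d, 0; 0, 1]) ?_
  · rw [i1, SymplecticGroup.fromBlocks_mem_iff]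
    refine ⟨?_, ?_, ?_⟩ <;> ext i j <;> fin_cases i <;> fin_cases j <;>
      simp [mul_apply, Fin.sum_univ_two] <;> linarith
  · rintro (i | i) (j | j) <;> fin_cases i <;> fin_cases j <;> simp [i1, pattern]

lemma i2_mem {N : ℕ} (hN : 0 < N) {a b c d : ℤ} (h : a * d - b * c = 1) : i2 N a b c d ∈ K N := by
  have h' : (a : ℚ) * d - b * c = 1 := by exact_mod_cast h
  have hN' : (N : ℚ) ≠ 0 := by exact_mod_cast hN.ne'
  refine mem_K_of ?_ (fromBlocks !![1, 0; 0, a] !![0, 0; 0, b] !![0, 0; 0, c] !![1, 0; 0, d]) ?_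
  · rw [i2, SymplecticGroup.fromBlocks_mem_iff]
    refine ⟨?_, ?_, ?_⟩ <;> ext i j <;> fin_cases i <;> fin_cases j <;>
      simp [mul_apply, Fin.sum_univ_two] <;> field_simp
    linarith
  · rintro (i | i) (j | j) <;> fin_cases i <;> fin_cases j <;> simp [i2, pattern, div_eq_mul_inv]

lemma U1_mem {N : ℕ} (t : ℤ) : U1 t ∈ K N := by
  refine mem_K_of ?_ (fromBlocks !![1, 0; t, 1] 0 0 !![1, -t; 0, 1]) ?_
  · rw [U1, SymplecticGroup.fromBlocks_mem_iff]
    refine ⟨?_, ?_, ?_⟩ <;> ext i j <;> fin_cases i <;> fin_cases j <;>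
      simp [mul_apply, Fin.sum_univ_two]
  · rintro (i | i) (j | j) <;> fin_cases i <;> fin_cases j <;> simp [U1, pattern]

lemma U2_mem {N : ℕ} (t : ℤ) : U2 N t ∈ K N := by
  refine mem_K_of ?_ (fromBlocks !![1, t; 0, 1] 0 0 !![1, 0; -t, 1]) ?_
  · rw [U2, SymplecticGroup.fromBlocks_mem_iff]
    refine ⟨?_, ?_, ?_⟩ <;> ext i j <;> fin_cases i <;> fin_cases j <;>
      simp [mul_apply, Fin.sum_univ_two]
  · rintro (i | i) (j | j) <;> fin_cases i <;> fin_cases j <;> simp [U2, pattern]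

lemma i1_mul (a b c d a' b' c' d' : ℚ) : i1 a b c d * i1 a' b' c' d'
    = i1 (a * a' + b * c') (a * b' + b * d') (c * a' + d * c') (c * b' + d * d') := by
  simp [i1, fromBlocks_multiply]

lemma i2_mul {N : ℕ} (hN : 0 < N) (a b c d a' b' c' d' : ℚ) : i2 N a b c d * i2 N a' b' c' d'
    = i2 N (a * a' + b * c') (a * b' + b * d') (c * a' + d * c') (c * b' + d * d') := by
  have hN' : (N : ℚ) ≠ 0 := by exact_mod_cast hN.ne'
  simp [i2, fromBlocks_multiply]
  refine ⟨?_, ?_, ?_, ?_⟩ <;> field_simp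

lemma z2 : (!![0, 0; 0, 0] : Q2) = 0 := by ext i j; fin_cases i <;> fin_cases j <;> rfl

lemma i1_one : i1 1 0 0 1 = 1 := by rw [i1, z2, ← one_fin_two, fromBlocks_one]

lemma i2_one (N : ℕ) : i2 N 1 0 0 1 = 1 := by
  rw [i2, zero_div, zero_mul, z2, ← one_fin_two, fromBlocks_one]

lemma sl2_gen {G : Set M4} (hmul : ∀ g ∈ G, ∀ h ∈ G, g * h ∈ G) (φ : ℚ → ℚ → ℚ → ℚ → M4)
    (hφ : ∀ a b c d a' b' c' d', φ a b c d * φ a' b' c' d'
      = φ (a * a' + b * c') (a * b' + b * d') (c * a' + d * c') (c * b' + d * d'))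
    (hS : φ 0 (-1) 1 0 ∈ G) (hT : ∀ a b d : ℤ, a * d = 1 → φ a b 0 d ∈ G) {a b c d : ℤ}
    (h : a * d - b * c = 1) : φ a b c d ∈ G := by
  have key : ∀ g : SL(2, ℤ), φ (g 0 0) (g 0 1) (g 1 0) (g 1 1) ∈ G := by
    intro g
    have hg : g ∈ Subgroup.closure {ModularGroup.S, ModularGroup.T} := by
      rw [SpecialLinearGroup.SL2Z_generators]; trivial
    induction hg using Subgroup.closure_induction'' with
    | mem x hx =>
      rcases hx with rfl | rfl
      · simpa [ModularGroup.S] using hS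
      · simpa [ModularGroup.T] using hT 1 1 1 rfl
    | inv_mem x hx =>
      rcases hx with rfl | rfl
      · have := hmul _ hS _ (hT (-1) 0 (-1) rfl)
        rw [hφ] at this
        simpa [ModularGroup.S_inv, ModularGroup.S] using this
      · have := hT 1 (-1) 1 rfl
        simpa [ModularGroup.coe_T_inv, ModularGroup.T, adjugate_fin_two] using this
    | one => simpa using hT 1 0 1 rfl
    | mul x y _ _ h1 h2 =>
      have := hmul _ h1 _ h2
      rw [hφ] at this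
      simpa [mul_apply, Fin.sum_univ_two] using this
  simpa using key ⟨!![a, b; c, d], by simpa [det_fin_two_of] using h⟩

lemma sl2_red (a c : ℤ) : ∃ x y z w : ℤ, x * w - y * z = 1 ∧ x * a + y * c = a.gcd c ∧
    z * a + w * c = 0 := by
  rcases Nat.eq_zero_or_pos (a.gcd c) with h | h
  · obtain ⟨rfl, rfl⟩ := Int.gcd_eq_zero_iff.mp h
    exact ⟨1, 0, 0, 1, by simp⟩
  · obtain ⟨a', c', hc, ha', hc'⟩ := Int.exists_gcd_one h
    obtain ⟨x, y, hxy⟩ := Int.isCoprime_iff_gcd_eq_one.mpr hc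
    generalize (a.gcd c : ℤ) = g at *
    subst ha' hc'
    exact ⟨x, y, -c', a', by linarith, by linear_combination g * hxy, by ring⟩

lemma sl2_redQ (a c : ℚ) : ∃ x y z w : ℤ, x * w - y * z = 1 ∧ z * a + w * c = 0 := by
  obtain ⟨x, y, z, w, h1, -, h3⟩ := sl2_red (a.num * c.den) (c.num * a.den)
  refine ⟨x, y, z, w, h1, ?_⟩
  have h4 : (z : ℚ) * (a.num * c.den) + w * (c.num * a.den) = 0 := by exact_mod_cast h3
  rw [← Rat.mul_den_eq_num, ← Rat.mul_den_eq_num] at h4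
  have h5 : (a.den : ℚ) * c.den ≠ 0 := by positivity
  apply mul_left_cancel₀ h5
  linear_combination h4

def vec (N : ℕ) (a b c d : ℚ) : Fin 2 ⊕ Fin 2 → ℚ := Sum.elim ![a, b] ![c, d * N]

lemma i1_vec (N : ℕ) (x y z w a b c d : ℚ) :
    i1 x y z w *ᵥ vec N a b c d = vec N (x * a + y * c) b (z * a + w * c) d := by
  ext (i | i) <;> fin_cases i <;> simp [i1, vec, mulVec, dotProduct]

lemma i2_vec {N : ℕ} (hN : 0 < N) (x y z w a b c d : ℚ) :
    i2 N x y z w *ᵥ vec N a b c d = vec N a (x * b + y * d) c (z * b + w * d) := by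
  have hN' : (N : ℚ) ≠ 0 := by exact_mod_cast hN.ne'
  ext (i | i) <;> fin_cases i <;> simp [i2, vec, mulVec, dotProduct] <;> field_simp

lemma U1_vec (N : ℕ) (t a b c d : ℚ) :
    U1 t *ᵥ vec N a b c d = vec N a (b + t * a) (c - t * N * d) d := by
  ext (i | i) <;> fin_cases i <;> simp [U1, vec, mulVec, dotProduct] <;> ring

lemma U2_vec (N : ℕ) (t a b c d : ℚ) :
    U2 N t *ᵥ vec N a b c d = vec N (a + t * N * b) b c (d - t * c) := by
  ext (i | i) <;> fin_cases i <;> simp [U2, vec, mulVec, dotProduct]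
  all_goals ring

structure Gen (N : ℕ) (G : Set M4) : Prop where
  mul : ∀ g ∈ G, ∀ h ∈ G, g * h ∈ G
  par : ∀ g ∈ K N, g.toBlocks₂₁ = 0 → g ∈ G
  J1 : i1 0 (-1) 1 0 ∈ G
  J2 : i2 N 0 (-1) 1 0 ∈ G

def Mv (N : ℕ) (G : Set M4) (h : M4) : Prop := h ∈ K N ∧ ∃ h' ∈ G, h' * h = 1

section
variable {N : ℕ} {G : Set M4}

lemma Mv.mul (hN : 0 < N) (hG : Gen N G) {g h : M4} (hg : Mv N G g) (hh : Mv N G h) :
    Mv N G (g * h) := by
  obtain ⟨h1, g', h2, h3⟩ := hg
  obtain ⟨h4, h', h5, h6⟩ := hh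
  exact ⟨K_mul hN h1 h4, h' * g', hG.mul _ h5 _ h2, by
    rw [mul_assoc, ← mul_assoc g', h3, one_mul, h6]⟩

lemma mv_i1 (hG : Gen N G) {a b c d : ℤ} (h : a * d - b * c = 1) : Mv N G (i1 a b c d) := by
  have h' : (a : ℚ) * d - b * c = 1 := by exact_mod_cast h
  refine ⟨i1_mem h, i1 (d : ℤ) (-b : ℤ) (-c : ℤ) (a : ℤ), sl2_gen hG.mul i1 i1_mul hG.J1
    (fun a b d had => hG.par _ (by simpa using i1_mem (b := b) (c := 0) (by simpa using had))
      (by simp [i1, z2])) (by linarith), ?_⟩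
  rw [i1_mul, ← i1_one]; push_cast; congr 1 <;> linarith

lemma mv_i2 (hN : 0 < N) (hG : Gen N G) {a b c d : ℤ} (h : a * d - b * c = 1) :
    Mv N G (i2 N a b c d) := by
  have h' : (a : ℚ) * d - b * c = 1 := by exact_mod_cast h
  refine ⟨i2_mem hN h, i2 N (d : ℤ) (-b : ℤ) (-c : ℤ) (a : ℤ), sl2_gen hG.mul (i2 N) (i2_mul hN)
    hG.J2 (fun a b d had => hG.par _ (by simpa using i2_mem hN (b := b) (c := 0) (by simpa using had))
      (by simp [i2, z2])) (by linarith), ?_⟩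
  rw [i2_mul hN, ← i2_one N]; push_cast; congr 1 <;> linarith

lemma mv_U1 (hG : Gen N G) (t : ℤ) : Mv N G (U1 t) :=
  ⟨U1_mem t, U1 (-t : ℤ), hG.par _ (U1_mem _) (by simp [U1]), by
    simp [U1, fromBlocks_multiply, ← one_fin_two]⟩

lemma mv_U2 (hG : Gen N G) (t : ℤ) : Mv N G (U2 N t) :=
  ⟨U2_mem t, U2 N (-t : ℤ), hG.par _ (U2_mem _) (by simp [U2]), by
    simp [U2, fromBlocks_multiply, ← one_fin_two]⟩

def Rch (N : ℕ) (G : Set M4) (v w : Fin 2 ⊕ Fin 2 → ℚ) : Prop := ∃ h, Mv N G h ∧ h *ᵥ v = w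

lemma Rch.trans (hN : 0 < N) (hG : Gen N G) {u v w : Fin 2 ⊕ Fin 2 → ℚ} (h1 : Rch N G u v)
    (h2 : Rch N G v w) : Rch N G u w := by
  obtain ⟨g, hg, rfl⟩ := h1
  obtain ⟨h, hh, rfl⟩ := h2
  exact ⟨h * g, hh.mul hN hG hg, (mulVec_mulVec _ _ _).symm⟩

lemma rch1 (hG : Gen N G) (a c : ℤ) (b d : ℚ) :
    Rch N G (vec N a b c d) (vec N (a.gcd c : ℤ) b 0 d) := by
  obtain ⟨x, y, z, w, h1, h2, h3⟩ := sl2_red a c
  exact ⟨_, mv_i1 hG h1, by rw [i1_vec]; congr 1 <;> exact_mod_cast ‹_›⟩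

lemma rch2 (hN : 0 < N) (hG : Gen N G) (b d : ℤ) (a c : ℚ) :
    Rch N G (vec N a b c d) (vec N a (b.gcd d : ℤ) c 0) := by
  obtain ⟨x, y, z, w, h1, h2, h3⟩ := sl2_red b d
  exact ⟨_, mv_i2 hN hG h1, by rw [i2_vec hN]; congr 1 <;> exact_mod_cast ‹_›⟩

lemma rch_int (hN : N = 1 ∨ N.Prime) (hG : Gen N G) (a b c d : ℤ) :
    ∃ g : ℚ, Rch N G (vec N a b c d) (vec N g 0 0 0) ∨ Rch N G (vec N a b c d) (vec N 0 g 0 0) := by
  have hN0 : 0 < N := by rcases hN with rfl | h; exacts [one_pos, h.pos]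
  have s1 := (rch1 hG a c b d).trans hN0 hG (rch2 hN0 hG b d _ _)
  generalize (a.gcd c : ℤ) = x at s1
  generalize (b.gcd d : ℤ) = y at s1
  have s2 : Rch N G (vec N x y 0 0) (vec N x x ((-(N * y) : ℤ) : ℚ) y) := by
    refine ⟨_, (mv_U1 hG 1).mul hN0 hG (mv_i2 hN0 hG (a := 0) (b := -1) (c := 1) (d := 0) rfl), ?_⟩
    rw [← mulVec_mulVec, i2_vec hN0, U1_vec]; simp
  have s3 := ((s1.trans hN0 hG s2).trans hN0 hG (rch2 hN0 hG x y _ _)).trans hN0 hG
    (rch1 hG x (-(N * y)) _ _)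
  have hcase : x.gcd (-(N * y)) = x.gcd y ∨ x.gcd (-(N * y)) = N * x.gcd y := by
    rw [Int.gcd_neg]
    have d1 : x.gcd y ∣ x.gcd (N * y) := Int.gcd_dvd_gcd_mul_left_right _ _ _
    have d2 : x.gcd (N * y) ∣ N * x.gcd y := by
      have := Int.gcd_dvd_gcd_mul_left_left x (N * y) N
      rwa [Int.gcd_mul_left, Int.natAbs_natCast] at this
    obtain ⟨t, ht⟩ := d1
    rcases Nat.eq_zero_or_pos (x.gcd y) with h0 | h0
    · left; rw [ht, h0, zero_mul]
    rw [ht, mul_comm N, Nat.mul_dvd_mul_iff_left h0] at d2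
    have : t = 1 ∨ t = N := by
      rcases hN with rfl | h
      exacts [Or.inl (Nat.dvd_one.mp d2), (Nat.dvd_prime h).mp d2]
    rcases this with rfl | rfl
    · left; rw [ht, mul_one]
    · right; rw [ht, mul_comm]
  rcases hcase with h | h
  · refine ⟨(x.gcd y : ℤ), Or.inl (s3.trans hN0 hG ⟨_, mv_U1 hG (-1), ?_⟩)⟩
    rw [h, U1_vec]; simp
  · refine ⟨(x.gcd y : ℤ), Or.inr (s3.trans hN0 hG ⟨_, mv_U2 hG (-1), ?_⟩)⟩
    rw [h, U2_vec]; simp

lemma vec_smul (m a b c d : ℚ) : m • vec N a b c d = vec N (m * a) (m * b) (m * c) (m * d) := by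
  ext (i | i) <;> fin_cases i <;> simp [vec, mul_assoc]

lemma eq_vec (hN : 0 < N) (v : Fin 2 ⊕ Fin 2 → ℚ) :
    v = vec N (v (.inl 0)) (v (.inl 1)) (v (.inr 0)) (v (.inr 1) / N) := by
  have hN' : (N : ℚ) ≠ 0 := by exact_mod_cast hN.ne'
  ext (i | i) <;> fin_cases i <;> simp [vec, hN']

lemma rch_rat (hN : N = 1 ∨ N.Prime) (hG : Gen N G) (a b c d : ℚ) :
    ∃ g : ℚ, Rch N G (vec N a b c d) (vec N g 0 0 0) ∨ Rch N G (vec N a b c d) (vec N 0 g 0 0) := by
  have hm : (a.den : ℚ) * b.den * c.den * d.den ≠ 0 := by positivity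
  obtain ⟨g, hg⟩ := rch_int hN hG (a.num * b.den * c.den * d.den) (a.den * b.num * c.den * d.den)
    (a.den * b.den * c.num * d.den) (a.den * b.den * c.den * d.num)
  have e : vec N ((a.num * b.den * c.den * d.den : ℤ) : ℚ) ((a.den * b.num * c.den * d.den : ℤ) : ℚ)
      ((a.den * b.den * c.num * d.den : ℤ) : ℚ) ((a.den * b.den * c.den * d.num : ℤ) : ℚ)
      = ((a.den : ℚ) * b.den * c.den * d.den) • vec N a b c d := by
    rw [vec_smul]; push_cast; simp only [← Rat.mul_den_eq_num]; congr 1 <;> ring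
  rw [e] at hg
  generalize (a.den : ℚ) * b.den * c.den * d.den = m at *
  refine ⟨m⁻¹ * g, hg.imp ?_ ?_⟩ <;> rintro ⟨h, h1, h2⟩ <;> refine ⟨h, h1, ?_⟩ <;>
    rw [mulVec_smul] at h2 <;>
    rw [← one_smul ℚ (h *ᵥ _), ← inv_mul_cancel₀ hm, mul_smul, h2, vec_smul] <;> simp

theorem dec (hN : N = 1 ∨ N.Prime) (hG : Gen N G) {γ : M4} (hγ : γ ∈ symplecticGroup (Fin 2) ℚ) :
    ∃ h, Mv N G h ∧ (h * γ).toBlocks₂₁ = 0 := by
  have hN0 : 0 < N := by rcases hN with rfl | h; exacts [one_pos, h.pos]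
  have hN' : (N : ℚ) ≠ 0 := by exact_mod_cast hN0.ne'
  have col : ∀ (h g : M4) (j : Fin 2 ⊕ Fin 2), (fun i => (h * g) i j) = h *ᵥ fun i => g i j :=
    fun h g j => by ext i; simp [mul_apply, mulVec, dotProduct]
  have fin : ∀ (g : M4) {a b a' b' : ℚ}, (fun i => g i (.inl 0)) = vec N a b 0 0 →
      (fun i => g i (.inl 1)) = vec N a' b' 0 0 → g.toBlocks₂₁ = 0 := by
    intro g a b a' b' h1 h2
    ext i j
    fin_cases j
    · have := congrFun h1 (.inr i); fin_cases i <;> simpa [vec, toBlocks₂₁] using this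
    · have := congrFun h2 (.inr i); fin_cases i <;> simpa [vec, toBlocks₂₁] using this
  have rel : ∀ (g : M4) {a b : ℚ}, g ∈ symplecticGroup (Fin 2) ℚ →
      (fun i => g i (.inl 0)) = vec N a b 0 0 →
      a * g (.inr 0) (.inl 1) + b * g (.inr 1) (.inl 1) = 0 ∧ ¬ (a = 0 ∧ b = 0) := by
    intro g a b hg h1
    rw [← fromBlocks_toBlocks g, SymplecticGroup.fromBlocks_mem_iff] at hg
    have e1 := congrFun (congrFun hg.1 0) 1
    have e2 := congrFun (congrFun hg.2.2 0) 0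
    have a1 := congrFun h1 (.inl 0)
    have a2 := congrFun h1 (.inl 1)
    have a3 := congrFun h1 (.inr 0)
    have a4 := congrFun h1 (.inr 1)
    simp [vec] at a1 a2 a3 a4
    simp [mul_apply, toBlocks₁₁, toBlocks₂₁, toBlocks₁₂, toBlocks₂₂, a1, a2, a3, a4] at e1 e2
    exact ⟨e1, by rintro ⟨rfl, rfl⟩; simp at e2⟩
  obtain ⟨g, hg⟩ := rch_rat hN hG (γ (.inl 0) (.inl 0)) (γ (.inl 1) (.inl 0))
    (γ (.inr 0) (.inl 0)) (γ (.inr 1) (.inl 0) / N)
  rw [← eq_vec hN0 fun i => γ i (.inl 0)] at hg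
  rcases hg with ⟨h, h1, h2⟩ | ⟨h, h1, h2⟩
  all_goals
    rw [← col] at h2
    obtain ⟨r1, r2⟩ := rel _ (Submonoid.mul_mem _ h1.1.1 hγ) h2
    have hg0 : g ≠ 0 := by simpa using r2
    simp only [zero_mul, add_zero, zero_add, mul_eq_zero, hg0, false_or] at r1
    have e := eq_vec hN0 fun i => (h * γ) i (.inl 1)
    simp only [r1, zero_div] at e
  · obtain ⟨x, y, z, w, k1, k2⟩ := sl2_redQ ((h * γ) (.inl 1) (.inl 1))
      ((h * γ) (.inr 1) (.inl 1) / N)
    refine ⟨_, (mv_i2 hN0 hG k1).mul hN0 hG h1, ?_⟩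
    rw [mul_assoc]
    exact fin _ (by rw [col, h2, i2_vec hN0, mul_zero, mul_zero, mul_zero, mul_zero, add_zero])
      (by rw [col, e, i2_vec hN0, k2])
  · obtain ⟨x, y, z, w, k1, k2⟩ := sl2_redQ ((h * γ) (.inl 0) (.inl 1))
      ((h * γ) (.inr 0) (.inl 1))
    refine ⟨_, (mv_i1 hG k1).mul hN0 hG h1, ?_⟩
    rw [mul_assoc]
    exact fin _ (by rw [col, h2, i1_vec, mul_zero, mul_zero, mul_zero, mul_zero, add_zero])
      (by rw [col, e, i1_vec, k2])

end

end Pool.Agent.MP_660ce2_nt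

end MrgPart2

-- ======== part 3: formerly Pool.Agent.MP_660ce2_nt.pm.Cusp
section MrgPart3

set_option autoImplicit false

namespace Pool.Agent.MP_660ce2_nt

open Matrix Complex

noncomputable def FA (A : Arr) : Fn := fun Z u => FS A (Z 0 0) (Z 0 1) (Z 1 1) u

lemma FA_mk (A : Arr) (τ z τ' : ℂ) : FA A (mkZ τ z τ') = FS A τ z τ' := rfl

lemma eT_tr (a b c d : ℤ) (T : T3) (τ z τ' s1 s2 s3 : ℂ) :
    eT T (a * a * τ + 2 * a * b * z + b * b * τ' + s1)
      (a * c * τ + (a * d + b * c) * z + b * d * τ' + s2)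
      (c * c * τ + 2 * c * d * z + d * d * τ' + s3)
      = eT (tr a b c d T) τ z τ' * eT T s1 s2 s3 := by
  rw [eT, eT, eT, ← e_add]; congr 1; simp only [tr]; push_cast; ring

def trE {a b c d ε : ℤ} (h : ε * (a * d - b * c) = 1) : T3 ≃ T3 :=
  ⟨tr a b c d, tr (ε * d) (-(ε * b)) (-(ε * c)) (ε * a), tr_tr h, tr_tr' h⟩

lemma Good.par {N : ℕ} (hN : 0 < N) {A : Arr} (hA : Good N A) {g : M4} (hg : g ∈ K N)
    (hC : g.toBlocks₂₁ = 0) : Pres g ∧ ∀ Z ∈ H2, slash 4 (FA A) g Z = FA A Z := by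
  have hN' : (N : ℂ) ≠ 0 := by exact_mod_cast hN.ne'
  obtain ⟨s1, s2, s3, h0, hP⟩ := par_of_symp hg.1 hC
  refine ⟨by rw [h0]; exact hP.pres one_pos, H2_ind fun τ z τ' h => ?_⟩
  choose n hn using hg.2
  ext u
  have hB := hP.hB
  have hd := hP.det
  rw [h0, hP.slash, FA_mk, FA_mk]
  have e1 := congrFun (congrFun hB 0) 0
  have e2 := congrFun (congrFun hB 0) 1
  have e3 := congrFun (congrFun hB 1) 1
  simp [mul_apply, toBlocks₁₁, toBlocks₁₂, toBlocks₂₂, hn, pattern, toC, det_fin_two]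
    at e1 e2 e3 hd ⊢
  generalize n (.inl 0) (.inl 0) = a at *
  generalize n (.inl 0) (.inl 1) = b at *
  generalize n (.inl 1) (.inl 0) = c at *
  generalize n (.inl 1) (.inl 1) = d at *
  have hε : (n (.inr 0) (.inr 0) * n (.inr 1) (.inr 1) - n (.inr 0) (.inr 1)
      * (n (.inr 1) (.inr 0) * N)) * (a * d - b * N * c) = 1 := by exact_mod_cast hd
  have h4 : ((a : ℂ) * d - b * N * c) ^ 4 = 1 := by
    have : (a * d - b * N * c) ^ 4 = 1 := by
      rcases Int.eq_one_or_neg_one_of_mul_eq_one' hε with h | h <;> rw [h.2] <;> rfl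
    exact_mod_cast this
  rw [h4, one_mul, FS, FS, ← (trE hε).tsum_eq fun T => A T u * eT T τ z τ']
  refine tsum_congr fun T => ?_
  have := eT_tr a (b * N) c d T τ z τ' s1 s2 s3
  have h5 := hA.equi hε (Dvd.intro_left b rfl) T u
  push_cast at this h5
  rw [this, ← h5]
  change _ = A (tr a (b * N) c d T) u * eT (tr a (b * N) c d T) τ z τ'
  by_cases hT : A T = 0
  · rw [h5, hT]; simp
  obtain ⟨m, hm⟩ := (hA.supp T hT).2.2.2
  have h6 : eT T s1 s2 s3 = e ((T.1 * (n (.inl 0) (.inr 0) * a + n (.inl 0) (.inr 1) * (b * N))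
      + T.2.1 * (n (.inl 0) (.inr 0) * c + n (.inl 0) (.inr 1) * d)
      + m * (N * n (.inl 1) (.inr 0) * c + n (.inl 1) (.inr 1) * d) : ℤ) : ℂ) := by
    rw [← e1, ← e2, ← e3, eT, hm]; congr 1; push_cast; field_simp
  rw [h6, e_int, mul_one]

lemma Good.gen {N : ℕ} (hN : 0 < N) {A : Arr} (hA : Good N A) :
    Gen N {g | Pres g ∧ ∀ Z ∈ H2, slash 4 (FA A) g Z = FA A Z} := by
  have hN' : (N : ℂ) ≠ 0 := by exact_mod_cast hN.ne'
  refine ⟨fun g hg h hh => ⟨hg.1.mul hh.1, fun Z hZ => ?_⟩, fun g => hA.par hN,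
    ⟨J1_pres, H2_ind fun τ z τ' h => ?_⟩, ⟨J2_pres hN, H2_ind fun τ z τ' h => ?_⟩⟩
  · rw [slash_mul _ _ _ _ (hh.1 Z hZ).1, slash_congr 4 hg.2 hh.1 hZ, hh.2 Z hZ]
  · have h0 : τ ≠ 0 := by have := h.1; rintro rfl; simp at this
    ext u
    have hu : u = ![u 0 / τ * τ, u 0 / τ * z + (u 1 - u 0 / τ * z)] := by
      ext i; fin_cases i <;> simp [h0]
    rw [hu, J1_slash 4 _ h, FA_mk, FA_mk, hA.inv1 h]
    simp [h0]
  · have h0 : τ' ≠ 0 := by have := h.pos; rintro rfl; simp at this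
    ext u
    have hu : u = ![(u 0 - u 1 / (N * τ') * (N * z)) + u 1 / (N * τ') * (N * z),
        u 1 / (N * τ') * (N * τ')] := by
      ext i; fin_cases i <;> simp [h0, hN']
    rw [hu, J2_slash hN 4 _ h, FA_mk, FA_mk, hA.inv2 h]
    simp [h0, hN']

lemma tr_disc (a b c d : ℤ) (T : T3) :
    4 * (tr a b c d T).1 * (tr a b c d T).2.2 - (tr a b c d T).2.1 ^ 2
      = (a * d - b * c) ^ 2 * (4 * T.1 * T.2.2 - T.2.1 ^ 2) := by simp only [tr]; ring

lemma tr_inj {a b c d : ℤ} (h : a * d - b * c ≠ 0) : Function.Injective (tr a b c d) := by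
  rintro ⟨n, r, m⟩ ⟨n', r', m'⟩ hT
  simp only [tr, Prod.mk.injEq] at hT ⊢
  obtain ⟨h1, h2, h3⟩ := hT
  refine ⟨?_, ?_, ?_⟩ <;> apply mul_left_cancel₀ (pow_ne_zero 2 h)
  · linear_combination d * d * h1 - d * c * h2 + c * c * h3
  · linear_combination -2 * d * b * h1 + (a * d + b * c) * h2 - 2 * c * a * h3
  · linear_combination b * b * h1 - b * a * h2 + a * a * h3

lemma tr_pos {a b c d : ℤ} (h : a * d - b * c ≠ 0) {T : T3} (h1 : 0 < T.1)
    (h2 : T.2.1 ^ 2 < 4 * T.1 * T.2.2) : 0 < (tr a b c d T).1 ∧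
      (tr a b c d T).2.1 ^ 2 < 4 * (tr a b c d T).1 * (tr a b c d T).2.2 := by
  constructor
  · simp only [tr]
    apply (mul_pos_iff_of_pos_left h1).mp
    by_cases hc : c = 0
    · have ha : a ≠ 0 := fun ha => h (by simp [ha, hc])
      have := mul_pos (mul_pos h1 h1) (mul_self_pos.mpr ha)
      rw [hc]; nlinarith
    · have := mul_pos (mul_self_pos.mpr hc) (sub_pos.mpr h2)
      nlinarith [sq_nonneg (2 * a * T.1 + c * T.2.1)]
  · rw [← sub_pos, tr_disc]
    exact mul_pos (by positivity) (sub_pos.mpr h2)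

lemma H3.shrink {τ z τ' : ℂ} (h : H3 τ z τ') :
    ∃ δ : ℝ, 0 < δ ∧ H3 (τ - δ * I) z (τ' - δ * I) := by
  have h1 := h.1
  have h2 := h.pos
  have h3 := sub_pos.mpr h.2
  set δ := (τ.im * τ'.im - z.im ^ 2) / (τ.im + τ'.im) with hδ
  have h4 : 0 < δ := div_pos h3 (by positivity)
  have h5 : δ * (τ.im + τ'.im) = τ.im * τ'.im - z.im ^ 2 := by rw [hδ]; field_simp
  refine ⟨δ, h4, ?_, ?_⟩
  · simp only [sub_im, mul_im, ofReal_re, I_im, mul_one, ofReal_im, I_re, mul_zero, add_zero]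
    by_contra hc
    nlinarith [sq_nonneg z.im]
  · simp only [sub_im, mul_im, ofReal_re, I_im, mul_one, ofReal_im, I_re, mul_zero, add_zero]
    nlinarith

lemma Good.holo {N : ℕ} {A : Arr} (hA : Good N A) (u : Fin 2 → ℂ) :
    DifferentiableOn ℂ (fun t : ℂ × ℂ × ℂ => FS A t.1 t.2.1 t.2.2 u) {t | H3 t.1 t.2.1 t.2.2} := by
  intro t ht
  obtain ⟨δ, hδ, hs⟩ := H3.shrink ht
  let l : T3 → (ℂ × ℂ × ℂ →L[ℂ] ℂ) := fun T => (2 * Real.pi * I) •
    ((T.1 : ℂ) • ContinuousLinearMap.fst ℂ ℂ (ℂ × ℂ) +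
    (T.2.1 : ℂ) • (ContinuousLinearMap.fst ℂ ℂ ℂ).comp (ContinuousLinearMap.snd ℂ ℂ (ℂ × ℂ)) +
    (T.2.2 : ℂ) • (ContinuousLinearMap.snd ℂ ℂ ℂ).comp (ContinuousLinearMap.snd ℂ ℂ (ℂ × ℂ)))
  have hl : ∀ T x, exp (l T x) = eT T x.1 x.2.1 x.2.2 := fun T x => by simp [l, eT, e, mul_add]
  have hb : ∀ T, A T ≠ 0 → ‖l T‖ ≤ 4 * Real.pi * (T.1 + T.2.2) := by
    intro T hT
    obtain ⟨s1, s2, s3, -⟩ := hA.supp T hT
    have s4 : |T.2.1| ≤ T.1 + T.2.2 := abs_le_of_sq_le_sq (by nlinarith [sq_nonneg (T.1 - T.2.2)])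
      (by omega)
    have r1 : (0 : ℝ) ≤ T.1 := by exact_mod_cast s1
    have r2 : (0 : ℝ) ≤ T.2.2 := by exact_mod_cast s2
    have r4 : |(T.2.1 : ℝ)| ≤ T.1 + T.2.2 := by exact_mod_cast s4
    refine ContinuousLinearMap.opNorm_le_bound _ (by positivity) fun x => ?_
    have x1 : ‖x.1‖ ≤ ‖x‖ := norm_fst_le x
    have x2 : ‖x.2.1‖ ≤ ‖x‖ := (norm_fst_le _).trans (norm_snd_le x)
    have x3 : ‖x.2.2‖ ≤ ‖x‖ := (norm_snd_le _).trans (norm_snd_le x)
    have : ‖(T.1 : ℂ) * x.1 + T.2.1 * x.2.1 + T.2.2 * x.2.2‖ ≤ 2 * (T.1 + T.2.2) * ‖x‖ := by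
      refine norm_add₃_le.trans ?_
      rw [norm_mul, norm_mul, norm_mul, norm_intCast, norm_intCast, norm_intCast, abs_of_nonneg r1,
        abs_of_nonneg r2]
      nlinarith [mul_le_mul_of_nonneg_left x1 r1, mul_le_mul_of_nonneg_left x3 r2,
        mul_le_mul r4 x2 (norm_nonneg _) (by positivity)]
    have e : l T x = 2 * Real.pi * I * ((T.1 : ℂ) * x.1 + T.2.1 * x.2.1 + T.2.2 * x.2.2) := by
      simp [l, mul_add]
    rw [e, norm_mul, show ‖(2 * Real.pi * I : ℂ)‖ = 2 * Real.pi by simp [Real.pi_pos.le]]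
    nlinarith [Real.pi_pos]
  have key := hasFDerivAt_tsum_of_isPreconnected (𝕜 := ℂ)
    (f := fun T x => A T u * exp (l T x)) (f' := fun T x => (A T u * exp (l T x)) • l T)
    ((summable_norm_iff.mpr (hA.summ hs u)).mul_left (4 / δ)) (Metric.isOpen_ball (x := t)
      (ε := δ / 4)) (convex_ball _ _).isPreconnected (fun T x _ => ?_) (fun T x hx => ?_)
    (Metric.mem_ball_self (by positivity)) (by simpa only [hl] using hA.summ ht u)
    (Metric.mem_ball_self (by positivity))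
  · simpa only [hl, FS] using key.differentiableAt.differentiableWithinAt
  · rw [mul_smul]
    exact ((l T).hasFDerivAt.cexp).const_mul _
  · by_cases hT : A T = 0
    · simp [hT]
    have b1 := hb T hT
    set w : ℝ := 4 * Real.pi * (T.1 + T.2.2) with hw
    have hw0 : 0 ≤ w := (norm_nonneg _).trans b1
    have b2 : ‖exp (l T x)‖ ≤ ‖exp (l T t)‖ * Real.exp (δ / 4 * w) := by
      rw [show l T x = l T t + l T (x - t) by simp, exp_add, norm_mul]
      gcongr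
      refine (norm_exp_le_exp_norm _).trans (Real.exp_le_exp.mpr (((l T).le_opNorm _).trans ?_))
      rw [mul_comm]
      exact mul_le_mul (mem_ball_iff_norm.mp hx).le b1 (norm_nonneg _) (by positivity)
    have b3 : ‖eT T (t.1 - δ * I) t.2.1 (t.2.2 - δ * I)‖
        = ‖exp (l T t)‖ * (Real.exp (δ / 4 * w) * Real.exp (δ / 4 * w)) := by
      rw [hl, eT, eT, norm_e, norm_e, ← Real.exp_add, ← Real.exp_add, hw]; congr 1; simp; ring
    have b4 : w ≤ 4 / δ * Real.exp (δ / 4 * w) := by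
      rw [div_mul_eq_mul_div, le_div_iff₀ hδ]
      linarith [Real.add_one_le_exp (δ / 4 * w)]
    rw [norm_smul, norm_mul, norm_mul, b3]
    calc _ ≤ ‖A T u‖ * (‖exp (l T t)‖ * Real.exp (δ / 4 * w)) * (4 / δ * Real.exp (δ / 4 * w)) := by
          gcongr; exact b1.trans b4
      _ = _ := by ring

theorem Good.isCuspForm {N : ℕ} (hN : N = 1 ∨ N.Prime) {A : Arr} (hA : Good N A)
    (h0 : ∀ T : T3, T.2.1 ^ 2 = 4 * T.1 * T.2.2 → A T = 0) : IsCuspForm N 8 4 (FA A) := by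
  have hN0 : 0 < N := by rcases hN with rfl | h; exacts [one_pos, h.pos]
  have hG := hA.gen hN0
  refine ⟨fun Z hZ => IsForm.hasSum hA.form fun u => (hA.summ hZ.2 u).hasSum, fun u => ?_,
    fun g hg => ?_, fun g hg => ?_⟩
  · refine (hA.holo u).mono fun t ht => mk_mem.mp ht
  · obtain ⟨h, ⟨h1, h', h2, h3⟩, h4⟩ := dec hN hG hg.1
    have := hG.mul _ h2 _ (hG.par _ (K_mul hN0 h1 hg) h4)
    rw [← mul_assoc, h3, one_mul] at this
    exact this.2
  · obtain ⟨h, ⟨h1, h', h2, h3⟩, h4⟩ := dec hN hG hg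
    obtain ⟨s1, s2, s3, e0, hP⟩ := par_of_symp (Submonoid.mul_mem _ h1.1 hg) h4
    have hg' : g = h' * (h * g) := by rw [← mul_assoc, h3, one_mul]
    have hpres := hP.pres one_pos
    have hsl := hP.slash 4 (FA A)
    have hd := hP.det_ne
    have hH := fun τ z τ' (h : H3 τ z τ') => h.par (s1 := s1) (s2 := s2) (s3 := s3) one_pos hd
    rw [← e0] at hpres hsl
    generalize (h * g).toBlocks₁₁ 0 0 = a at *
    generalize (h * g).toBlocks₁₁ 0 1 = b at *
    generalize (h * g).toBlocks₁₁ 1 0 = c at *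
    generalize (h * g).toBlocks₁₁ 1 1 = d at *
    obtain ⟨t, a', b', c', d', ht, ea, eb, ec, ed⟩ : ∃ (t : ℕ) (a' b' c' d' : ℤ), 0 < t ∧
        a = a' / t ∧ b = b' / t ∧ c = c' / t ∧ d = d' / t := by
      refine ⟨a.den * b.den * c.den * d.den, a.num * b.den * c.den * d.den,
        a.den * b.num * c.den * d.den, a.den * b.den * c.num * d.den,
        a.den * b.den * c.den * d.num, by positivity, ?_, ?_, ?_, ?_⟩ <;>
        push_cast <;> rw [← Rat.mul_den_eq_num] <;> field_simp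
    have ht' : (t : ℂ) ≠ 0 := by exact_mod_cast ht.ne'
    have hd' : a' * d' - b' * c' ≠ 0 := by
      intro h5
      have h6 : (a' : ℚ) * d' - b' * c' = 0 := by exact_mod_cast h5
      apply hd
      rw [ea, eb, ec, ed]; field_simp; simpa using h6
    let f : Arr := fun T u => ((a : ℂ) * d - b * c) ^ 4 *
      (A T ![u 0 * a + u 1 * b, u 0 * c + u 1 * d] * eT T s1 s2 s3)
    refine ⟨t * t, by positivity, Function.extend (tr a' b' c' d') f 0, fun T hT => ?_,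
      H2_ind fun τ z τ' hz u => ?_⟩
    · by_cases hr : ∃ T', tr a' b' c' d' T' = T
      · obtain ⟨T', rfl⟩ := hr
        rw [(tr_inj hd').extend_apply] at hT
        have hT' : A T' ≠ 0 := fun h5 => hT (by ext u; simp [f, h5])
        obtain ⟨r1, r2, r3, -⟩ := hA.supp T' hT'
        have r4 := lt_of_le_of_ne r3 fun h5 => hT' (h0 T' h5)
        refine tr_pos hd' (lt_of_le_of_ne r1 fun h5 => ?_) r4
        rw [← h5] at r4; nlinarith [sq_nonneg T'.2.1]
      · exact absurd (Function.extend_apply' _ _ _ hr) hT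
    · rw [hg', slash_mul _ _ _ _ (hpres _ (mk_mem.mpr hz)).1,
        slash_congr 4 h2.2 hpres (mk_mem.mpr hz), hsl, FA_mk, ← (tr_inj hd').hasSum_iff]
      · refine hs_congr ((hA.summ (hH _ _ _ hz) _).hasSum.mul_left _) (fun T => ?_) rfl
        simp only [Function.comp, (tr_inj hd').extend_apply, f, mul_assoc]
        congr 2
        rw [eT, eT, e, e, ← exp_add]; congr 1
        simp only [mkZ, tr, ea, eb, ec, ed, of_apply, cons_val', cons_val_zero, cons_val_one,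
          cons_val_fin_one]
        push_cast; field_simp; ring
      · intro T hT
        rw [Function.extend_apply' _ _ _ hT]; simp

end Pool.Agent.MP_660ce2_nt

end MrgPart3

-- ======== part 4: formerly Pool.Agent.MP_660ce2_nt.pm.Hecke
section MrgPart4

set_option autoImplicit false

namespace Pool.Agent.MP_660ce2_nt

open Matrix Complex

/-- the Hecke operator on Fourier coefficients -/
noncomputable def TH (q : ℕ) : Arr →ₗ[ℂ] Arr where
  toFun A := fun T u =>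
    (q : ℂ) ^ 13 * (if (q : ℤ) ∣ T.1 ∧ (q : ℤ) ∣ T.2.1 ∧ (q : ℤ) ∣ T.2.2
      then A (T.1 / q, T.2.1 / q, T.2.2 / q) u else 0)
    + (q : ℂ) ^ 2 * (if (q : ℤ) ∣ T.2.2 then A (q * T.1, T.2.1, T.2.2 / q) ![u 0, q * u 1] else 0)
    + ∑ a ∈ Finset.range q, (q : ℂ) ^ 2 * (if (q : ℤ) ∣ T.1 + a * T.2.1 + a * a * T.2.2
      then A ((T.1 + a * T.2.1 + a * a * T.2.2) / q, T.2.1 + 2 * a * T.2.2, q * T.2.2)
        ![q * u 0, u 1 - a * u 0] else 0)
    + A (q * T.1, q * T.2.1, q * T.2.2) u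
  map_add' A B := by
    ext T u
    simp only [Pi.add_apply, ite_add_zero, mul_add, Finset.sum_add_distrib]; ring
  map_smul' c A := by
    ext T u
    simp only [Pi.smul_apply, smul_eq_mul, RingHom.id_apply, mul_add, Finset.mul_sum, mul_ite,
      mul_zero, mul_left_comm c]

lemma reidx {α β : T3 → T3} (hα : Function.Injective α) (hβ : Function.Injective β)
    {f g : T3 → ℂ} {S : ℂ} (h : HasSum f S) (hf : ∀ T ∉ Set.range α, f T = 0)
    (hg : ∀ T ∉ Set.range β, g T = 0) (e : ∀ T, g (β T) = f (α T)) : HasSum g S :=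
  (hβ.hasSum_iff hg).mp (hs_congr ((hα.hasSum_iff hf).mpr h) e rfl)

lemma u_eta (u : Fin 2 → ℂ) : ![u 0, u 1] = u := by ext i; fin_cases i <;> rfl

section
variable {N q : ℕ} {A : Arr} {τ z τ' : ℂ}

lemma Good.slash_sum (hA : Good N A) {P B D : Q2} {μ a b c d s1 s2 s3 : ℚ}
    (h : Par P B D μ a b c d s1 s2 s3) (hμ : 0 < μ) (hz : H3 τ z τ') (u : Fin 2 → ℂ) :
    HasSum (fun T => ((a : ℂ) * d - b * c) ^ 4 * (A T ![u 0 * a + u 1 * b, u 0 * c + u 1 * d]
      * eT T (μ * (a * a * τ + 2 * a * b * z + b * b * τ') + s1)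
        (μ * (a * c * τ + (a * d + b * c) * z + b * d * τ') + s2)
        (μ * (c * c * τ + 2 * c * d * z + d * d * τ') + s3)))
      (slash 4 (FA A) (fromBlocks P B 0 D) (mkZ τ z τ') u) := by
  rw [h.slash, FA_mk]
  exact (hA.summ (hz.par hμ h.det_ne) _).hasSum.mul_left _

lemma Good.h0 (hA : Good N A) (hq : 0 < q) (hz : H3 τ z τ') (u : Fin 2 → ℂ) :
    HasSum (fun T : T3 => (if (q : ℤ) ∣ T.1 ∧ (q : ℤ) ∣ T.2.1 ∧ (q : ℤ) ∣ T.2.2
      then A (T.1 / q, T.2.1 / q, T.2.2 / q) u else 0) * eT T τ z τ')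
      (slash 4 (FA A) (fromBlocks !![q, 0; 0, q] 0 0 1) (mkZ τ z τ') u) := by
  have hq' : (q : ℤ) ≠ 0 := by exact_mod_cast hq.ne'
  have := hA.slash_sum (P := !![q, 0; 0, q]) (B := 0) (D := 1) (μ := q) (a := 1) (b := 0) (c := 0)
    (d := 1) (s1 := 0) (s2 := 0) (s3 := 0) ⟨by simp, by simp [one_fin_two], by simp [z2]⟩
    (by exact_mod_cast hq) hz u
  refine reidx (α := id) (β := fun T => (q * T.1, q * T.2.1, q * T.2.2)) Function.injective_id ?_
    this (by simp) (fun T hT => ?_) (fun T => ?_)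
  · rintro ⟨n, r, m⟩ ⟨n', r', m'⟩ h; simpa [hq.ne'] using h
  · rw [if_neg, zero_mul]
    rintro ⟨⟨n, hn⟩, ⟨r, hr⟩, ⟨m, hm⟩⟩
    exact hT ⟨(n, r, m), by ext <;> simp [*]⟩
  · simp [Int.mul_ediv_cancel_left _ hq', u_eta, eT]
    left; congr 1; ring

lemma sum_shift (hq : 0 < q) (c x : ℂ) (n : ℤ) (f : ℕ → ℂ) (hf : ∀ a, f a = x + a * n / q) :
    ∑ a ∈ Finset.range q, c * e (f a) = c * e x * if (q : ℤ) ∣ n then (q : ℂ) else 0 := by
  simp_rw [hf, e_add, ← mul_assoc, ← Finset.mul_sum, sum_e hq]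

lemma Good.h1 (hA : Good N A) (hq : 0 < q) (hz : H3 τ z τ') (u : Fin 2 → ℂ) :
    HasSum (fun T : T3 => (q : ℂ) ^ 2 * (if (q : ℤ) ∣ T.2.2
      then A (q * T.1, T.2.1, T.2.2 / q) ![u 0, q * u 1] else 0) * eT T τ z τ')
      ((q : ℂ) ^ 13 * ∑ a ∈ Finset.range q, slash 4 (FA A)
        (fromBlocks !![1, 0; 0, q] !![a, 0; 0, 0] 0 !![q, 0; 0, 1]) (mkZ τ z τ') u) := by
  have hq' : (q : ℤ) ≠ 0 := by exact_mod_cast hq.ne'
  have hqQ : (q : ℚ) ≠ 0 := by exact_mod_cast hq.ne'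
  have hqC : (q : ℂ) ≠ 0 := by exact_mod_cast hq.ne'
  have := (hasSum_sum (s := Finset.range q) fun a _ => hA.slash_sum (P := !![1, 0; 0, q])
    (B := !![a, 0; 0, 0]) (D := !![q, 0; 0, 1]) (μ := q) (a := 1 / q) (b := 0) (c := 0)
    (d := 1) (s1 := a / q) (s2 := 0) (s3 := 0) ⟨by simp [hqQ], by simp [one_fin_two, hqQ],
      by ext i j; fin_cases i <;> fin_cases j <;> simp [div_eq_mul_inv]⟩
      (by exact_mod_cast hq) hz u).mul_left ((q : ℂ) ^ 13)
  simp only [eT, ← mul_assoc] at this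
  have k := fun (T : T3) c => sum_shift hq c (T.1 * τ / q + T.2.1 * z + T.2.2 * q * τ') T.1
  refine reidx (α := fun T => (q * T.1, T.2.1, T.2.2)) (β := fun T => (T.1, T.2.1, q * T.2.2)) ?_ ?_
    this (fun T hT => ?_) (fun T hT => ?_) (fun T => ?_)
  · rintro ⟨n, r, m⟩ ⟨n', r', m'⟩ h; simpa [hq.ne'] using h
  · rintro ⟨n, r, m⟩ ⟨n', r', m'⟩ h; simpa [hq.ne'] using h
  · rw [k T _ _ fun a => by push_cast; field_simp; ring, if_neg, mul_zero, mul_zero]
    rintro ⟨n, hn⟩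
    exact hT ⟨(n, T.2), by ext <;> simp [*]⟩
  · rw [if_neg, mul_zero, zero_mul]
    rintro ⟨n, hn⟩
    exact hT ⟨(T.1, T.2.1, n), by ext <;> simp [*]⟩
  · rw [k (q * T.1, T.2.1, T.2.2) _ _ fun a => by push_cast; field_simp; ring]
    have := (hA.form (q * T.1, T.2.1, T.2.2)).hom (1 / q) (u 0) (q * u 1)
    simp only [dvd_mul_right, if_true, Int.mul_ediv_cancel_left _ hq', eT]
    push_cast
    rw [show u 0 * (1 / q) + u 1 * 0 = 1 / q * u 0 by ring,
      show u 0 * 0 + u 1 * 1 = 1 / q * (q * u 1) by field_simp; ring, this,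
      show (q : ℂ) * T.1 * τ / q + T.2.1 * z + T.2.2 * q * τ' = T.1 * τ + T.2.1 * z + q * T.2.2 * τ'
        by field_simp]
    field_simp; ring

lemma Good.h2 (hA : Good N A) (hq : 0 < q) (hz : H3 τ z τ') (u : Fin 2 → ℂ) (a : ℕ) :
    HasSum (fun T : T3 => (q : ℂ) ^ 2 * (if (q : ℤ) ∣ T.1 + a * T.2.1 + a * a * T.2.2
      then A ((T.1 + a * T.2.1 + a * a * T.2.2) / q, T.2.1 + 2 * a * T.2.2, q * T.2.2)
        ![q * u 0, u 1 - a * u 0] else 0) * eT T τ z τ')
      ((q : ℂ) ^ 13 * ∑ b ∈ Finset.range q, slash 4 (FA A)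
        (fromBlocks !![q, 0; -a, 1] !![0, 0; 0, b] 0 !![1, a; 0, q]) (mkZ τ z τ') u) := by
  have hq' : (q : ℤ) ≠ 0 := by exact_mod_cast hq.ne'
  have hqQ : (q : ℚ) ≠ 0 := by exact_mod_cast hq.ne'
  have hqC : (q : ℂ) ≠ 0 := by exact_mod_cast hq.ne'
  have := (hasSum_sum (s := Finset.range q) fun b _ => hA.slash_sum (P := !![q, 0; -a, 1])
    (B := !![0, 0; 0, b]) (D := !![1, a; 0, q]) (μ := q) (a := 1) (b := 0) (c := -a / q)
    (d := 1 / q) (s1 := 0) (s2 := 0) (s3 := b / q) ⟨by simp [hqQ]; field_simp,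
      by simp [one_fin_two, hqQ]; field_simp; ring,
      by ext i j; fin_cases i <;> fin_cases j <;> simp [div_eq_mul_inv]⟩
      (by exact_mod_cast hq) hz u).mul_left ((q : ℂ) ^ 13)
  simp only [eT, ← mul_assoc] at this
  have k := fun (T : T3) c => sum_shift hq c (T.1 * q * τ + T.2.1 * (z - a * τ)
    + T.2.2 * (a * a * τ - 2 * a * z + τ') / q) T.2.2
  refine reidx (α := fun T => (T.1, T.2.1, q * T.2.2)) (β := fun T =>
    (q * T.1 - a * T.2.1 + a * a * T.2.2, T.2.1 - 2 * a * T.2.2, T.2.2)) ?_ ?_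
    this (fun T hT => ?_) (fun T hT => ?_) (fun T => ?_)
  · rintro ⟨n, r, m⟩ ⟨n', r', m'⟩ h; simpa [hq.ne'] using h
  · rintro ⟨n, r, m⟩ ⟨n', r', m'⟩ h
    simp only [Prod.mk.injEq] at h
    obtain ⟨h1, h2, rfl⟩ := h
    obtain rfl : r = r' := by linarith
    simpa [hq.ne'] using h1
  · rw [k T _ _ fun a => by push_cast; field_simp; ring, if_neg, mul_zero, mul_zero]
    rintro ⟨n, hn⟩
    exact hT ⟨(T.1, T.2.1, n), by ext <;> simp [*]⟩
  · rw [if_neg, mul_zero, zero_mul]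
    rintro ⟨n, hn⟩
    exact hT ⟨(n, T.2.1 + 2 * a * T.2.2, T.2.2), by ext <;> simp [← hn]; ring⟩
  · rw [k (T.1, T.2.1, q * T.2.2) _ _ fun a => by push_cast; field_simp; ring]
    have := (hA.form (T.1, T.2.1, q * T.2.2)).hom (1 / q) (q * u 0) (u 1 - a * u 0)
    simp only [show q * T.1 - a * T.2.1 + a * a * T.2.2 + a * (T.2.1 - 2 * a * T.2.2)
      + a * a * T.2.2 = q * T.1 by ring, sub_add_cancel,
      dvd_mul_right, if_true, Int.mul_ediv_cancel_left _ hq', eT]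
    push_cast
    rw [show u 0 * 1 + u 1 * 0 = 1 / q * (q * u 0) by field_simp; ring,
      show u 0 * (-a / q) + u 1 * (1 / q) = 1 / q * (u 1 - a * u 0) by ring, this,
      show (T.1 : ℂ) * q * τ + T.2.1 * (z - a * τ) + q * T.2.2 * (a * a * τ - 2 * a * z + τ') / q
        = (q * T.1 - a * T.2.1 + a * a * T.2.2) * τ + (T.2.1 - 2 * a * T.2.2) * z + T.2.2 * τ'
        by field_simp; ring]
    field_simp; ring

lemma Good.h3 (hA : Good N A) (hq : 0 < q) (hz : H3 τ z τ') (u : Fin 2 → ℂ) :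
    HasSum (fun T : T3 => A (q * T.1, q * T.2.1, q * T.2.2) u * eT T τ z τ')
      ((q : ℂ) ^ 13 * ∑ a ∈ Finset.range q, ∑ b ∈ Finset.range q, ∑ c ∈ Finset.range q,
        slash 4 (FA A) (fromBlocks 1 !![a, b; b, c] 0 !![q, 0; 0, q]) (mkZ τ z τ') u) := by
  have hqQ : (q : ℚ) ≠ 0 := by exact_mod_cast hq.ne'
  have hqC : (q : ℂ) ≠ 0 := by exact_mod_cast hq.ne'
  have := (hasSum_sum (s := Finset.range q) fun a _ => hasSum_sum (s := Finset.range q) fun b _ =>
    hasSum_sum (s := Finset.range q) fun c _ => hA.slash_sum (P := 1)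
    (B := !![a, b; b, c]) (D := !![q, 0; 0, q]) (μ := q) (a := 1 / q) (b := 0) (c := 0)
    (d := 1 / q) (s1 := a / q) (s2 := b / q) (s3 := c / q) ⟨by simp [hqQ, one_fin_two],
      by simp [one_fin_two, hqQ], by simp [div_eq_mul_inv]⟩
      (by exact_mod_cast hq) hz u).mul_left ((q : ℂ) ^ 13)
  simp only [eT, ← mul_assoc] at this
  have k : ∀ (T : T3) (κ : ℂ) (f : ℕ → ℕ → ℕ → ℂ), (∀ a b c, f a b c =
      (T.1 * τ + T.2.1 * z + T.2.2 * τ') / q + a * T.1 / q + b * T.2.1 / q + c * T.2.2 / q) →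
      ∑ a ∈ Finset.range q, ∑ b ∈ Finset.range q, ∑ c ∈ Finset.range q, κ * e (f a b c)
      = κ * (if (q : ℤ) ∣ T.2.2 then (q : ℂ) else 0) * (if (q : ℤ) ∣ T.2.1 then (q : ℂ) else 0)
        * e ((T.1 * τ + T.2.1 * z + T.2.2 * τ') / q) * if (q : ℤ) ∣ T.1 then (q : ℂ) else 0 := by
    intro T κ f hf
    simp_rw [fun a b => sum_shift hq κ _ _ _ (hf a b), mul_right_comm κ,
      fun a c => sum_shift hq c _ T.2.1 (fun b => (T.1 * τ + T.2.1 * z + T.2.2 * τ') / q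
        + (a : ℕ) * T.1 / q + b * T.2.1 / q) fun _ => rfl, mul_right_comm _ (e _)]
    exact (sum_shift hq _ _ T.1 _ fun _ => rfl).trans (by ring)
  refine reidx (α := fun T => (q * T.1, q * T.2.1, q * T.2.2)) (β := id) ?_ Function.injective_id
    this (fun T hT => ?_) (by simp) (fun T => ?_)
  · rintro ⟨n, r, m⟩ ⟨n', r', m'⟩ h; simpa [hq.ne'] using h
  · rw [k T _ _ fun a b c => by push_cast; field_simp; ring]
    by_contra hc
    simp only [mul_ite, mul_zero, ite_mul, zero_mul, ite_eq_right_iff, not_forall] at hc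
    obtain ⟨⟨n, hn⟩, ⟨r, hr⟩, ⟨m, hm⟩, -⟩ := hc
    exact hT ⟨(n, r, m), by ext <;> simp [*]⟩
  · rw [k (q * T.1, q * T.2.1, q * T.2.2) _ _ fun a b c => by push_cast; field_simp; ring]
    have := (hA.form (q * T.1, q * T.2.1, q * T.2.2)).hom (1 / q) (u 0) (u 1)
    simp only [dvd_mul_right, if_true, eT, id]
    push_cast
    rw [show u 0 * (1 / q) + u 1 * 0 = 1 / q * u 0 by ring,
      show u 0 * 0 + u 1 * (1 / q) = 1 / q * u 1 by ring, this, u_eta,
      show ((q : ℂ) * T.1 * τ + q * T.2.1 * z + q * T.2.2 * τ') / q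
        = T.1 * τ + T.2.1 * z + T.2.2 * τ' by field_simp]
    field_simp; ring

theorem Good.hecke (hA : Good N A) (hq : 0 < q) :
    ∀ Z ∈ H2, heckeT 8 4 q (FA A) Z = FA (TH q A) Z := by
  refine H2_ind fun τ z τ' hz => ?_
  ext u
  have := ((((hA.h0 hq hz u).mul_left ((q : ℂ) ^ 13)).add (hA.h1 hq hz u)).add
    (hasSum_sum (s := Finset.range q) fun a _ => hA.h2 hq hz u a)).add (hA.h3 hq hz u)
  rw [FA_mk, FS]
  refine (hs_congr this (fun T => ?_) ?_).tsum_eq.symm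
  · simp only [TH, LinearMap.coe_mk, AddHom.coe_mk, add_mul, Finset.sum_mul, mul_assoc]
  · simp only [heckeT, mul_add, ← Finset.mul_sum]

end

end Pool.Agent.MP_660ce2_nt

end MrgPart4

-- ======== part 5: formerly Pool.Agent.MP_660ce2_nt.pm.HeckeTh
section MrgPart5

set_option autoImplicit false

namespace Pool.Agent.MP_660ce2_nt

open Matrix Complex

open Classical in
noncomputable def nq (L : AddSubgroup V) (q : ℕ) (y : V × V) : ℕ :=
  q ^ 5 * (if dv L q y.1 ∧ dv L q y.2 then 1 else 0) + q ^ 2 * (if dv L q y.2 then 1 else 0)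
    + ∑ a ∈ Finset.range q, q ^ 2 * (if dv L q (y.1 + (a : ℤ) • y.2) then 1 else 0) + 1

lemma sum_ite_bij {α : Type*} (c : Prop) [Decidable c] {S S' : Finset α} (p : α → Prop)
    [DecidablePred p] (φ : α → α) (inj : Function.Injective φ)
    (h1 : c → ∀ x ∈ S, φ x ∈ S' ∧ p (φ x)) (h2 : ∀ y ∈ S', p y → c ∧ ∃ x ∈ S, φ x = y)
    {f g : α → ℂ} (κ κ' : ℂ) (hfg : ∀ x, κ * f x = κ' * g (φ x)) :
    κ * (if c then ∑ x ∈ S, f x else 0) = ∑ y ∈ S', κ' * (if p y then 1 else 0) * g y := by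
  simp only [mul_ite, mul_one, mul_zero, ite_mul, zero_mul]
  rw [← Finset.sum_filter]
  split_ifs with hc
  · rw [Finset.mul_sum]
    refine Finset.sum_bij (fun x _ => φ x) (fun x hx => Finset.mem_filter.mpr (h1 hc x hx))
      (fun _ _ _ _ h => inj h) (fun y hy => ?_) fun x _ => hfg x
    obtain ⟨h3, h4⟩ := Finset.mem_filter.mp hy
    obtain ⟨x, hx, rfl⟩ := (h2 y h3 h4).2
    exact ⟨x, hx, rfl⟩
  · refine (Finset.sum_eq_zero fun y hy => ?_).symm
    obtain ⟨h3, h4⟩ := Finset.mem_filter.mp hy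
    exact absurd (h2 y h3 h4).1 hc

theorem TH_arr {N s q : ℕ} {L M : AddSubgroup V} (hL : EU L s) (hM : EU M (N * s)) (hle : M ≤ L)
    (hc : Nat.Coprime N q) (hq : 0 < q) {P : VC → ℂ} (hP : P ∈ Harm 8) (T : T3)
    (u : Fin 2 → ℂ) : TH q (arr L M s P) T u
      = ∑ y ∈ fib L M (q * s) T, nq L q y * P (u 0 • cx y.1 + u 1 • cx y.2) := by
  classical
  have hq' : (q : ℤ) ≠ 0 := by exact_mod_cast hq.ne'
  have hs' : (s : ℤ) ≠ 0 := by exact_mod_cast hL.pos.ne'
  have c1 : ∀ {a b : ℤ}, q * (s * a) = q * (s * b) → a = b := fun h =>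
    mul_left_cancel₀ hs' (mul_left_cancel₀ hq' h)
  have sm := smul_right_injective V hq'
  obtain ⟨n, r, m⟩ := T
  simp only [TH, LinearMap.coe_mk, AddHom.coe_mk, nq, arr]
  push_cast
  simp only [add_mul, Finset.sum_add_distrib, Finset.sum_mul]
  rw [Finset.sum_comm]
  congr 1
  congr 1
  congr 1
  · refine sum_ite_bij _ _ (fun x => ((q : ℤ) • x.1, (q : ℤ) • x.2)) ?_ ?_ ?_ _ _ fun x => ?_
    · rintro ⟨x, y⟩ ⟨x', y'⟩ h
      simp only [Prod.mk.injEq] at h ⊢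
      exact ⟨sm h.1, sm h.2⟩
    · rintro ⟨⟨n, rfl⟩, ⟨r, rfl⟩, ⟨m, rfl⟩⟩ x hx
      obtain ⟨h1, h2, h3, h4, h5⟩ := mem_fib.mp hx
      simp only [Int.mul_ediv_cancel_left _ hq'] at h3 h4 h5
      refine ⟨mem_fib.mpr ⟨L.zsmul_mem h1 _, M.zsmul_mem h2 _, ?_, ?_, ?_⟩, ⟨_, h1, rfl⟩,
        ⟨_, hle h2, rfl⟩⟩ <;>
        simp only [smul_dotProduct, dotProduct_smul, smul_eq_mul, h3, h4, h5] <;> push_cast <;> ring
    · rintro ⟨y1, y2⟩ hy ⟨⟨x1, h6, rfl⟩, h7⟩
      obtain ⟨-, h2, h3, h4, h5⟩ := mem_fib.mp hy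
      obtain ⟨x2, h8, rfl⟩ := (dv_iff_of_cop hL hM hle hc h2).mpr h7
      obtain ⟨n', e1⟩ := hL.even _ h6
      obtain ⟨r', e2⟩ := hL.dvd h6 (hle h8)
      obtain ⟨m', e3⟩ := hL.even _ (hle h8)
      simp only [smul_dotProduct, dotProduct_smul, smul_eq_mul, e1, e2, e3] at h3 h4 h5
      push_cast at h3 h4 h5
      obtain rfl : n = q * n' := c1 (by linarith)
      obtain rfl : r = q * r' := c1 (by linarith)
      obtain rfl : m = q * m' := c1 (by linarith)
      refine ⟨by simp, (x1, x2), mem_fib.mpr ⟨h6, h8, ?_, ?_, ?_⟩, rfl⟩ <;>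
        simp only [Int.mul_ediv_cancel_left _ hq', e1, e2, e3]
    · have := Harm.hom hP q (u 0 • cx x.1 + u 1 • cx x.2)
      simp only [cx_smul, Int.cast_natCast, smul_comm (u _) (q : ℂ), ← smul_add, this]; ring
  · refine sum_ite_bij _ _ (fun x => (x.1, (q : ℤ) • x.2)) ?_ ?_ ?_ _ _ fun x => ?_
    · rintro ⟨x, y⟩ ⟨x', y'⟩ h
      simp only [Prod.mk.injEq] at h ⊢
      exact ⟨h.1, sm h.2⟩
    · rintro ⟨m, rfl⟩ x hx
      obtain ⟨h1, h2, h3, h4, h5⟩ := mem_fib.mp hx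
      simp only [Int.mul_ediv_cancel_left _ hq'] at h3 h4 h5
      refine ⟨mem_fib.mpr ⟨h1, M.zsmul_mem h2 _, ?_, ?_, ?_⟩, ⟨_, hle h2, rfl⟩⟩ <;>
        simp only [smul_dotProduct, dotProduct_smul, smul_eq_mul, h3, h4, h5] <;> push_cast <;> ring
    · rintro ⟨y1, y2⟩ hy h7
      obtain ⟨h6, h2, h3, h4, h5⟩ := mem_fib.mp hy
      obtain ⟨x2, h8, rfl⟩ := (dv_iff_of_cop hL hM hle hc h2).mpr h7
      obtain ⟨m', e3⟩ := hL.even _ (hle h8)
      simp only [smul_dotProduct, dotProduct_smul, smul_eq_mul, e3] at h3 h4 h5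
      push_cast at h3 h4 h5
      obtain rfl : m = q * m' := c1 (by linarith)
      refine ⟨by simp, (y1, x2), mem_fib.mpr ⟨h6, h8, ?_, ?_, ?_⟩, rfl⟩
      · rw [h3]; ring
      · exact mul_left_cancel₀ hq' (by rw [h4]; ring)
      · simp only [Int.mul_ediv_cancel_left _ hq', e3]
    · congr 2
      ext i; simp [cx]; ring
  · refine Finset.sum_congr rfl fun a _ => ?_
    refine sum_ite_bij _ _ (fun x => ((q : ℤ) • x.1 - (a : ℤ) • x.2, x.2)) ?_ ?_ ?_ _ _ fun x => ?_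
    · rintro ⟨x, y⟩ ⟨x', y'⟩ h
      simp only [Prod.mk.injEq] at h ⊢
      obtain ⟨h1, rfl⟩ := h
      exact ⟨sm (sub_left_injective h1), rfl⟩
    · rintro ⟨n', hn'⟩ x hx
      obtain ⟨h1, h2, h3, h4, h5⟩ := mem_fib.mp hx
      simp only [hn', Int.mul_ediv_cancel_left _ hq'] at h3 h4 h5
      refine ⟨mem_fib.mpr ⟨L.sub_mem (L.zsmul_mem h1 _) (L.zsmul_mem (hle h2) _), h2, ?_, ?_, ?_⟩,
        ⟨_, h1, by simp⟩⟩ <;>
        simp only [smul_dotProduct, dotProduct_smul, sub_dotProduct, dotProduct_sub, smul_eq_mul,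
          dotProduct_comm x.2 x.1, h3, h4, h5] <;> push_cast
      · linear_combination -2 * s * q * hn'
      · ring
      · ring
    · rintro ⟨y1, y2⟩ hy ⟨x1, h6, h7⟩
      obtain rfl : y1 = (q : ℤ) • x1 - (a : ℤ) • y2 := eq_sub_of_add_eq h7
      obtain ⟨-, h2, h3, h4, h5⟩ := mem_fib.mp hy
      obtain ⟨n', e1⟩ := hL.even _ h6
      simp only [smul_dotProduct, dotProduct_smul, sub_dotProduct, dotProduct_sub, smul_eq_mul,
          dotProduct_comm y2 x1, e1, h5] at h3 h4 h5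
      push_cast at h3 h4 h5
      have e2 : x1 ⬝ᵥ y2 = s * (r + 2 * a * m) := mul_left_cancel₀ hq' (by linear_combination h4)
      rw [e2] at h3
      have e3 : n + a * r + a * a * m = q * n' := c1 (by linarith)
      refine ⟨⟨n', e3⟩, (x1, y2), mem_fib.mpr ⟨h6, h2, ?_, e2, ?_⟩, rfl⟩
      · simp only [e3, Int.mul_ediv_cancel_left _ hq', e1]
      · rw [(mem_fib.mp hy).2.2.2.2]; push_cast; ring
    · congr 2
      ext i; simp [cx]; ring
  · refine Finset.sum_congr ?_ fun x _ => by rw [one_mul]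
    ext x
    simp only [mem_fib]; push_cast
    rw [show 2 * (s : ℤ) * (q * n) = 2 * (q * s) * n by ring, show (s : ℤ) * (q * r) = q * s * r by ring,
      show 2 * (s : ℤ) * (q * m) = 2 * (q * s) * m by ring]

end Pool.Agent.MP_660ce2_nt

end MrgPart5

-- ======== part 6: formerly Pool.Agent.MP_660ce2_nt.pm.Count
section MrgPart6

set_option autoImplicit false

namespace Pool.Agent.MP_660ce2_nt

open Finset

/-- a split quadratic space of dimension 8 over `ZMod q` -/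
structure QS (q : ℕ) (G : Type) [AddCommGroup G] where
  Q : G → ZMod q
  B : G →+ G →+ ZMod q
  add : ∀ x y, Q (x + y) = Q x + Q y + B x y
  smul : ∀ (n : ℤ) x, Q (n • x) = n ^ 2 * Q x
  nd : ∀ y, (∀ x, B x y = 0) → y = 0
  card : Nat.card G = q ^ 8

namespace QS

variable {q : ℕ} {G : Type} [AddCommGroup G] (S : QS q G)

lemma symm (x y : G) : S.B x y = S.B y x := by
  have := S.add x y
  rw [add_comm, S.add] at this
  linear_combination -this

def Sing (W : AddSubgroup G) : Prop := ∀ x ∈ W, S.Q x = 0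

def perp (W : AddSubgroup G) : AddSubgroup G where
  carrier := {y | ∀ x ∈ W, S.B x y = 0}
  add_mem' ha hb x hx := by rw [map_add, ha x hx, hb x hx, add_zero]
  zero_mem' x _ := map_zero _
  neg_mem' ha x hx := by rw [map_neg, ha x hx, neg_zero]

def Lagr (N : AddSubgroup G) : Prop := S.Sing N ∧ S.perp N ≤ N

variable {S}

lemma Sing.le_perp {W : AddSubgroup G} (h : S.Sing W) : W ≤ S.perp W := fun y hy x hx => by
  have := S.add x y
  rw [h _ (W.add_mem hx hy), h _ hx, h _ hy] at this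
  simpa using this.symm

lemma q_smul (S : QS q G) (x : G) : q • x = 0 := S.nd _ fun y => by simp

lemma Sing.sup {W : AddSubgroup G} (hW : S.Sing W) {x : G} (h1 : x ∈ S.perp W) (h2 : S.Q x = 0) :
    S.Sing (W ⊔ AddSubgroup.zmultiples x) := by
  intro y hy
  obtain ⟨w, hw, _, ⟨n, rfl⟩, rfl⟩ := AddSubgroup.mem_sup.mp hy
  simp [S.add, S.smul, hW w hw, h2, h1 w hw]

variable [hq : Fact q.Prime] [Fintype G]

open Classical

lemma orth (S : QS q G) (W : AddSubgroup G) {t : ZMod q} (ht : t ≠ 0) (y : G) :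
    ∑ w : W, ZMod.stdAddChar (t * S.B w y) = if y ∈ S.perp W then (Nat.card W : ℂ) else 0 := by
  let φ : W →+ ZMod q := (AddMonoidHom.mulLeft t).comp ((S.B.flip y).comp W.subtype)
  have := AddChar.sum_eq_ite ((ZMod.stdAddChar (N := q)).compAddMonoidHom φ)
  rw [Nat.card_eq_fintype_card]
  refine this.trans (if_congr ?_ rfl rfl)
  rw [DFunLike.ext_iff]
  refine ⟨fun h x hx => ?_, fun h x => ?_⟩
  · have := ((ZMod.isPrimitive_stdAddChar q).zmod_char_eq_one_iff q _).mp (h ⟨x, hx⟩)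
    exact (mul_eq_zero.mp this).resolve_left ht
  · change ZMod.stdAddChar (t * S.B x y) = 1
    rw [h x x.2, mul_zero, AddChar.map_zero_eq_one]

lemma sum_mem (W : AddSubgroup G) (c : ℂ) :
    ∑ y : G, (if y ∈ W then c else 0) = Nat.card W * c := by
  rw [← sum_filter, sum_const, nsmul_eq_mul, Nat.card_eq_fintype_card, Fintype.card_subtype]

lemma sum_B (S : QS q G) (W : AddSubgroup G) :
    ∑ w : W, ∑ y : G, ZMod.stdAddChar (S.B w y) = (q : ℂ) ^ 8 := by
  rw [Fintype.sum_eq_single (0 : W)]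
  · simp [← Nat.card_eq_fintype_card, S.card]
  · intro w hw
    have := AddChar.sum_eq_ite ((ZMod.stdAddChar (N := q)).compAddMonoidHom (S.B w))
    rw [if_neg] at this
    · exact this
    intro h
    refine hw (Subtype.ext (S.nd _ fun x => ?_))
    rw [S.symm]
    exact ((ZMod.isPrimitive_stdAddChar q).zmod_char_eq_one_iff q _).mp (DFunLike.congr_fun h x)

lemma perp_card (S : QS q G) (W : AddSubgroup G) :
    Nat.card W * Nat.card (S.perp W) = q ^ 8 := by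
  have := S.sum_B W
  rw [sum_comm] at this
  have h := fun y => S.orth W one_ne_zero y
  simp only [one_mul] at h
  simp only [h, sum_mem] at this
  rw [mul_comm]
  exact_mod_cast this

lemma Lagr.card {N : AddSubgroup G} (h : S.Lagr N) : Nat.card N = q ^ 4 := by
  have := S.perp_card N
  rw [le_antisymm h.2 h.1.le_perp, show q ^ 8 = q ^ 4 * q ^ 4 by ring] at this
  exact Nat.mul_self_inj.mp this

lemma Lagr.gauss {N : AddSubgroup G} (h : S.Lagr N) {t : ZMod q} (ht : t ≠ 0) :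
    ∑ x, ZMod.stdAddChar (t * S.Q x) = (q : ℂ) ^ 4 := by
  have hq0 : (q : ℂ) ^ 4 ≠ 0 := pow_ne_zero _ (by exact_mod_cast hq.out.ne_zero)
  have h1 : ∀ n : N, ∑ x, ZMod.stdAddChar (t * S.Q x)
      = ∑ x, ZMod.stdAddChar (t * S.Q x) * ZMod.stdAddChar (t * S.B n x) := by
    intro n
    rw [← Equiv.sum_comp (Equiv.addLeft (n : G))]
    refine sum_congr rfl fun x _ => ?_
    rw [Equiv.coe_addLeft, S.add, h.1 n n.2, zero_add, mul_add, AddChar.map_add_eq_mul]
  have h2 := sum_congr (rfl : (univ : Finset N) = univ) fun n _ => h1 n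
  rw [sum_comm (s := univ) (t := univ) (f := fun (n : N) x =>
    ZMod.stdAddChar (t * S.Q x) * ZMod.stdAddChar (t * S.B n x))] at h2
  simp only [← mul_sum, S.orth N ht, le_antisymm h.2 h.1.le_perp] at h2
  have h3 : ∀ x, (ZMod.stdAddChar (t * S.Q x) * if x ∈ N then (Nat.card N : ℂ) else 0)
      = if x ∈ N then (Nat.card N : ℂ) else 0 := by
    intro x
    split_ifs with hx
    · rw [h.1 x hx, mul_zero, AddChar.map_zero_eq_one, one_mul]
    · rw [mul_zero]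
  simp only [h3] at h2
  rw [sum_mem, sum_const, card_univ, ← Nat.card_eq_fintype_card, h.card, nsmul_eq_mul] at h2
  push_cast at h2
  exact mul_left_cancel₀ hq0 h2

noncomputable def sv (S : QS q G) (W : AddSubgroup G) : Finset G :=
  univ.filter fun x => x ∈ S.perp W ∧ S.Q x = 0

lemma Lagr.count {N W : AddSubgroup G} (h : S.Lagr N) (hW : S.Sing W) :
    q * Nat.card W * (S.sv W).card + Nat.card W * q ^ 4 = q ^ 8 + q * Nat.card W * q ^ 4 := by
  have h1 : ∑ x, (∑ t : ZMod q, ZMod.stdAddChar (t * S.Q x)) *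
      ∑ w : W, ZMod.stdAddChar (1 * S.B w x) = q * Nat.card W * (S.sv W).card := by
    simp only [S.orth W one_ne_zero, AddChar.sum_mulShift _ (ZMod.isPrimitive_stdAddChar q),
      ZMod.card]
    rw [sv, card_filter]; push_cast; rw [mul_sum]
    refine sum_congr rfl fun x _ => ?_
    by_cases h1 : x ∈ S.perp W <;> by_cases h2 : S.Q x = 0 <;> simp [h1, h2]
  simp only [sum_mul_sum, one_mul] at h1
  rw [sum_comm, ← add_sum_erase _ _ (mem_univ (0 : ZMod q))] at h1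
  have h2 : ∀ t ∈ univ.erase (0 : ZMod q), ∑ x, ∑ w : W, ZMod.stdAddChar (t * S.Q x) *
      ZMod.stdAddChar (S.B w x) = Nat.card W * (q : ℂ) ^ 4 := by
    intro t ht
    have ht' := ne_of_mem_erase ht
    rw [sum_comm, sum_congr rfl (g := fun _ => (q : ℂ) ^ 4), sum_const, card_univ,
      ← Nat.card_eq_fintype_card, nsmul_eq_mul]
    intro w _
    rw [← h.gauss ht', ← Equiv.sum_comp (Equiv.addLeft ((t⁻¹.val) • (w : G)))
      fun x => ZMod.stdAddChar (t * S.Q x)]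
    refine sum_congr rfl fun x _ => ?_
    rw [Equiv.coe_addLeft, S.add, hW _ (W.nsmul_mem w.2 _), zero_add, mul_add,
      AddChar.map_add_eq_mul, map_nsmul, AddMonoidHom.nsmul_apply, nsmul_eq_mul,
      ZMod.natCast_zmod_val, mul_inv_cancel_left₀ ht']
  rw [sum_congr rfl h2, sum_const, card_erase_of_mem (mem_univ _), card_univ, ZMod.card] at h1
  simp only [zero_mul, AddChar.map_zero_eq_one, one_mul] at h1
  rw [sum_comm, S.sum_B, nsmul_eq_mul, Nat.cast_sub hq.out.one_le] at h1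
  have : ((q * Nat.card W * (S.sv W).card + Nat.card W * q ^ 4 : ℕ) : ℂ)
      = (q ^ 8 + q * Nat.card W * q ^ 4 : ℕ) := by
    push_cast at h1 ⊢; linear_combination -h1
  exact_mod_cast this

omit [Fintype G] in
lemma card_sup (S : QS q G) {W : AddSubgroup G} {x : G} (hx : x ∉ W) :
    Nat.card (W ⊔ AddSubgroup.zmultiples x : AddSubgroup G) = Nat.card W * q := by
  have h0 : x ≠ 0 := fun h => hx (h ▸ W.zero_mem)
  have h1 := AddSubgroup.relIndex_dvd_card (H := W) (K := AddSubgroup.zmultiples x)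
  rw [Nat.card_zmultiples, addOrderOf_eq_prime (S.q_smul x) h0, Nat.dvd_prime hq.out] at h1
  have h2 := h1.resolve_left fun h =>
    hx (AddSubgroup.relIndex_eq_one.mp h (AddSubgroup.mem_zmultiples x))
  rw [← AddSubgroup.relIndex_bot_left, ← AddSubgroup.relIndex_bot_left,
    ← AddSubgroup.relIndex_mul_relIndex ⊥ W _ bot_le le_sup_left,
    AddSubgroup.relIndex_sup_left, h2]

noncomputable def lags (S : QS q G) : Finset (AddSubgroup G) :=
  (Set.toFinite {N | S.Lagr N}).toFinset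

omit hq in
lemma mem_lags {N : AddSubgroup G} : N ∈ S.lags ↔ S.Lagr N := by simp [lags]

noncomputable def na (S : QS q G) (W : AddSubgroup G) : ℕ := (S.lags.filter (W ≤ ·)).card

lemma na_four {W : AddSubgroup G} (hW : S.Sing W) (hc : Nat.card W = q ^ 4) : S.na W = 1 := by
  have h1 := S.perp_card W
  rw [hc, show q ^ 8 = q ^ 4 * q ^ 4 by ring] at h1
  have h2 := Nat.eq_of_mul_eq_mul_left (pow_pos hq.out.pos 4) h1
  have h3 := AddSubgroup.eq_of_le_of_card_ge hW.le_perp (by rw [h2, hc])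
  refine card_eq_one.mpr ⟨W, ?_⟩
  ext N
  rw [mem_filter, mem_lags, mem_singleton]
  exact ⟨fun h => (AddSubgroup.eq_of_le_of_card_ge h.2 (by rw [h.1.card, hc])).symm,
    fun h => by rw [h]; exact ⟨⟨hW, h3.ge⟩, le_rfl⟩⟩

lemma Lagr.step {N0 : AddSubgroup G} (h : S.Lagr N0) {d a : ℕ} (hd : d ≤ 3)
    (ih : ∀ W, S.Sing W → Nat.card W = q ^ (d + 1) → S.na W = a) (W : AddSubgroup G)
    (hW : S.Sing W) (hc : Nat.card W = q ^ d) : S.na W = a * (1 + q ^ (3 - d)) := by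
  have cW : ∀ N : AddSubgroup G, (univ.filter (· ∈ N)).card = Nat.card N := fun N => by
    rw [Nat.card_eq_fintype_card, Fintype.card_subtype]
  have h1 := sum_card_bipartiteAbove_eq_sum_card_bipartiteBelow (s := S.lags.filter (W ≤ ·))
    (t := S.sv W \ univ.filter (· ∈ W)) (r := fun N x => x ∈ N)
  rw [sum_congr rfl (g := fun _ => q ^ 4 - q ^ d), sum_const, sum_congr rfl (g := fun _ => a),
    sum_const, card_sdiff_of_subset, cW, hc, smul_eq_mul, smul_eq_mul] at h1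
  · have h2 := h.count hW
    have h3 : q ^ d < q ^ 4 := Nat.pow_lt_pow_right hq.out.one_lt (by omega)
    have h4 : (S.sv W).card = (q ^ 4 - q ^ d) * (1 + q ^ (3 - d)) + q ^ d := by
      obtain ⟨e, he⟩ := Nat.exists_eq_add_of_le hd
      rw [show 3 - d = e by omega]
      rw [hc] at h2
      apply Nat.eq_of_mul_eq_mul_left (Nat.mul_pos hq.out.pos (pow_pos hq.out.pos d))
      zify [h3.le] at h2 ⊢
      have h5 : (q : ℤ) ^ d * q ^ e = q ^ 3 := by rw [← pow_add, ← he]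
      linear_combination h2 + (q * q ^ d - q ^ 5) * h5
    rw [h4, Nat.add_sub_cancel] at h1
    apply Nat.eq_of_mul_eq_mul_right (Nat.sub_pos_of_lt h3)
    rw [na, h1]; ring
  · intro x hx
    have := (mem_filter.mp hx).2
    exact mem_filter.mpr ⟨mem_univ _, hW.le_perp this, hW x this⟩
  · intro x hx
    obtain ⟨h2, h3⟩ := mem_sdiff.mp hx
    obtain ⟨-, h4, h5⟩ := mem_filter.mp h2
    have h6 : x ∉ W := by simpa using h3
    rw [← ih _ (hW.sup h4 h5) (by rw [S.card_sup h6, hc, pow_succ]), na, bipartiteBelow,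
      filter_filter]
    congr 2; ext N; simp
  · intro N hN
    obtain ⟨h2, h3⟩ := mem_filter.mp hN
    rw [mem_lags] at h2
    rw [← h2.card, ← hc, ← cW, ← cW, ← card_sdiff_of_subset fun x hx => by
      simpa using h3 (by simpa using hx)]
    congr 1; ext x
    simp only [bipartiteAbove, mem_filter, mem_sdiff, mem_univ, true_and, sv]
    exact ⟨fun h => ⟨h.2, h.1.2⟩, fun h =>
      ⟨⟨⟨fun y hy => h2.1.le_perp h.1 y (h3 hy), h2.1 x h.1⟩, h.2⟩, h.1⟩⟩

theorem Lagr.eichler {N0 : AddSubgroup G} (h : S.Lagr N0) {x y : G} (hx : S.Q x = 0)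
    (hy : S.Q y = 0) (hxy : S.B y x = 0) :
    (S.lags.filter fun N => x ∈ N ∧ y ∈ N).card = 2 * (1 + q) *
      (q ^ 5 * (if x = 0 ∧ y = 0 then 1 else 0) + q ^ 2 * (if y = 0 then 1 else 0)
        + ∑ a ∈ range q, q ^ 2 * (if x + (a : ℤ) • y = 0 then 1 else 0) + 1) := by
  have a3 := h.step (d := 3) le_rfl fun W => na_four
  have a2 := h.step (d := 2) (by norm_num) a3
  have a1 := h.step (d := 1) (by norm_num) a2
  have a0 := h.step (d := 0) (by norm_num) a1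
  have s0 : S.Sing ⊥ := fun x hx => by
    have := S.smul 0 0
    rw [AddSubgroup.mem_bot.mp hx]; simpa using this
  have p0 : ∀ x, x ∈ S.perp ⊥ := fun x y hy => by rw [AddSubgroup.mem_bot.mp hy]; simp
  have c1 : ∀ x : G, x ≠ 0 →
      Nat.card (⊥ ⊔ AddSubgroup.zmultiples x : AddSubgroup G) = q ^ 1 := fun x hx => by
    rw [S.card_sup (by simpa using hx)]; simp
  by_cases hy0 : y = 0
  · subst hy0
    by_cases hx0 : x = 0
    · subst hx0
      have := a0 ⊥ s0 (by simp)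
      simp [na] at this ⊢
      rw [this]; ring
    · have := a1 _ (s0.sup (p0 x) hx) (c1 x hx0)
      simp [na, hx0] at this ⊢
      rw [this]; ring
  have s1 := s0.sup (p0 y) hy
  by_cases hm : x ∈ ⊥ ⊔ AddSubgroup.zmultiples y
  · have := a1 _ s1 (c1 y hy0)
    rw [bot_sup_eq] at hm
    have ho := addOrderOf_eq_prime (S.q_smul y) hy0
    obtain ⟨a, ha, hax⟩ := mem_image.mp
      (mem_zmultiples_iff_mem_range_addOrderOf.mp (AddSubgroup.neg_mem _ hm))
    rw [ho] at ha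
    rw [sum_eq_single_of_mem a ha, filter_congr (q := fun N => ⊥ ⊔ AddSubgroup.zmultiples y ≤ N),
      ← na, this]
    · simp [hy0, hax]; ring
    · intro N _
      simp only [bot_le, sup_of_le_right, AddSubgroup.zmultiples_le]
      exact ⟨fun h => h.2, fun h => ⟨AddSubgroup.zmultiples_le.mpr h hm, h⟩⟩
    · intro b hb hab
      rw [if_neg, mul_zero]
      intro hc
      refine hab (nsmul_injOn_Iio_addOrderOf (x := y) (by simpa [ho] using hb)
        (by simpa [ho] using ha) ?_)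
      simp only [hax]
      rw [← natCast_zsmul]; exact eq_neg_of_add_eq_zero_right hc
  · have hp : x ∈ S.perp (⊥ ⊔ AddSubgroup.zmultiples y) := by
      rw [bot_sup_eq]; rintro _ ⟨n, rfl⟩; simp [hxy]
    have := a2 _ (s1.sup hp hx) (by rw [S.card_sup hm, c1 y hy0]; ring)
    rw [sum_eq_zero, filter_congr (q := fun N => ⊥ ⊔ AddSubgroup.zmultiples y ⊔
      AddSubgroup.zmultiples x ≤ N), ← na, this]
    · simp [hy0]
    · intro N _; simp [and_comm]
    · intro b _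
      rw [if_neg, mul_zero]
      intro hc
      rw [bot_sup_eq, eq_neg_of_add_eq_zero_left hc] at hm
      exact hm (AddSubgroup.neg_mem _ ⟨b, rfl⟩)

end QS

end Pool.Agent.MP_660ce2_nt

end MrgPart6

-- ======== part 7: formerly Pool.Agent.MP_660ce2_nt.pm.Van1
section MrgPart7

set_option autoImplicit false

namespace Pool.Agent.MP_660ce2_nt

open Matrix Complex Filter Topology

lemma summable_mul_e {ι : Type*} {c : ι → ℂ} (hc : Summable c) (x : ι → ℝ) :
    Summable fun i => c i * e (x i) := by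
  apply Summable.of_norm
  simpa only [norm_mul, norm_e_real, mul_one] using summable_norm_iff.mpr hc

lemma summable_ite {ι : Type*} {c : ι → ℂ} (hc : Summable c) (p : ι → Prop) [DecidablePred p] :
    Summable fun i => if p i then c i else 0 :=
  Summable.of_norm_bounded (summable_norm_iff.mpr hc) fun i => by split_ifs <;> simp

lemma uniq2 {C : T3 → ℂ} (hC : Summable C) {h : ℝ} (hh : 0 < h)
    (H : ∀ x y : ℝ, ∑' T, C T * e (T.2.2 * y / h) * e (T.1 * x / h) = 0) (n m : ℤ) :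
    ∑' r, C (n, r, m) = 0 := by
  have h1 : ∀ y : ℝ, ∑' T : T3, (if T.1 = n then C T else 0) * e (T.2.2 * y / h) = 0 := by
    intro y
    have := uniq1 (c := fun T : T3 => C T * e (T.2.2 * y / h))
      (by simpa using summable_mul_e hC fun T => T.2.2 * y / h) (fun T => T.1) hh (H · y) n
    simpa only [ite_mul, zero_mul] using this
  have h2 := uniq1 (summable_ite hC fun T => T.1 = n) (fun T => T.2.2) hh h1 m
  have hinj : Function.Injective fun r : ℤ => ((n, r, m) : T3) := fun r r' h => by simpa using h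
  rw [← hinj.tsum_eq] at h2
  · simpa using h2
  · rintro ⟨a, b, c⟩ hT
    have : c = m ∧ a = n := by
      by_contra hc; apply hT; simp only; split_ifs <;> simp_all
    exact ⟨b, by simp [this]⟩

lemma H3_real (x y w : ℝ) : H3 (x + I) y (w + I) := by simp [H3]

lemma uniq3 {c : T3 → ℂ} {h : ℝ} (hh : 0 < h) (H : ∀ τ z τ', H3 τ z τ' →
    HasSum (fun T => c T * e ((T.1 * τ + T.2.1 * z + T.2.2 * τ') / h)) 0) (T : T3) : c T = 0 := by
  let C : T3 → ℂ := fun T => c T * e ((T.1 * I + T.2.2 * I) / h)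
  have hC : Summable C := by simpa using (H _ _ _ (H3_real 0 0 0)).summable
  obtain ⟨n, r, m⟩ := T
  have h1 : ∀ w : ℝ, ∑' r : ℤ, C (n, r, m) * e (r * w / h) = 0 := by
    intro w
    refine uniq2 (C := fun T => C T * e (T.2.1 * w / h))
      (by simpa using summable_mul_e hC fun T => T.2.1 * w / h) hh (fun x y => ?_) n m
    rw [← (H _ _ _ (H3_real x w y)).tsum_eq]
    refine tsum_congr fun T => ?_
    simp only [C, mul_assoc, ← e_add]; congr 2; ring
  have hinj : Function.Injective fun r : ℤ => ((n, r, m) : T3) := fun r r' h => by simpa using h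
  have h2 := uniq1 (hC.comp_injective hinj) id hh h1 r
  simp only [id, Function.comp] at h2
  rw [tsum_eq_single r (fun b hb => if_neg hb), if_pos rfl] at h2
  exact (mul_eq_zero.mp h2).resolve_right (e_ne _)

def SumH (c : T3 → ℂ) : Prop := ∀ τ z τ', H3 τ z τ' → Summable fun T => c T * eT T τ z τ'

lemma SumH.bound {c : T3 → ℂ} (hc : SumH c) {τ τ' : ℂ} (h1 : 0 < τ.im) (h2 : 0 < τ'.im) :
    ∃ δ : ℝ, 0 < δ ∧ Summable fun T => ‖c T * eT T τ 0 τ'‖ * Real.exp (δ * |(T.2.1 : ℝ)|) := by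
  set y := Real.sqrt (τ.im * τ'.im) / 2 with hy
  have hy0 : 0 < y := by positivity
  have hy2 : y ^ 2 < τ.im * τ'.im := by
    rw [hy, div_pow, Real.sq_sqrt (by positivity)]; linarith [mul_pos h1 h2]
  have k : ∀ (w : ℝ) (T : T3), ‖c T * eT T τ (w * I) τ'‖
      = ‖c T * eT T τ 0 τ'‖ * Real.exp (-2 * Real.pi * w * T.2.1) := by
    intro w T
    rw [norm_mul, norm_mul, eT, eT, norm_e, norm_e, mul_assoc ‖c T‖, ← Real.exp_add]
    congr 2; simp; ring
  refine ⟨2 * Real.pi * y, by positivity, Summable.of_nonneg_of_le (fun T => by positivity)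
    (fun T => ?_) ((summable_norm_iff.mpr (hc τ (y * I) τ' ⟨h1, by simpa using hy2⟩)).add
      (summable_norm_iff.mpr (hc τ ((-y : ℝ) * I) τ' ⟨h1, by simpa using hy2⟩)))⟩
  rw [k, k, ← mul_add]
  gcongr
  rcases abs_cases (T.2.1 : ℝ) with h | h <;> rw [h.1]
  · exact le_add_of_nonneg_of_le (Real.exp_pos _).le (le_of_eq (by congr 1; ring))
  · exact le_add_of_le_of_nonneg (le_of_eq (by congr 1; ring)) (Real.exp_pos _).le

lemma pow_le_exp {δ x : ℝ} (hδ : 0 < δ) (hx : 0 ≤ x) (t : ℕ) :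
    x ^ t ≤ t.factorial / δ ^ t * Real.exp (δ * x) := by
  have := Real.pow_div_factorial_le_exp (δ * x) (by positivity) t
  rw [div_le_iff₀ (by positivity), mul_pow] at this
  rw [div_mul_eq_mul_div, le_div_iff₀ (by positivity)]
  linarith

lemma SumH.mom {c : T3 → ℂ} (hc : SumH c) {τ τ' : ℂ} (h1 : 0 < τ.im) (h2 : 0 < τ'.im) (t : ℕ) :
    Summable fun T => c T * eT T τ 0 τ' * (T.2.1 : ℂ) ^ t := by
  obtain ⟨δ, hδ, hs⟩ := hc.bound h1 h2
  refine Summable.of_norm_bounded (hs.mul_left (t.factorial / δ ^ t)) fun T => ?_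
  rw [norm_mul, norm_pow, norm_intCast, mul_left_comm]
  exact mul_le_mul_of_nonneg_left (pow_le_exp hδ (abs_nonneg _) t) (norm_nonneg _)

lemma exp_rem (κ : ℂ) (t : ℕ) : Tendsto (fun z : ℂ =>
    (exp (κ * z) - ∑ m ∈ Finset.range t, (κ * z) ^ m / m.factorial) / z ^ t) (𝓝[≠] 0)
    (𝓝 (κ ^ t / t.factorial)) := by
  rw [tendsto_iff_norm_sub_tendsto_zero]
  have h1 : Tendsto (fun z : ℂ => ‖κ‖ ^ (t + 1) * ‖z‖ * Real.exp ‖κ * z‖) (𝓝[≠] 0) (𝓝 0) := by
    have : Continuous fun z : ℂ => ‖κ‖ ^ (t + 1) * ‖z‖ * Real.exp ‖κ * z‖ := by fun_prop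
    simpa using (this.tendsto 0).mono_left nhdsWithin_le_nhds
  refine squeeze_zero' (Eventually.of_forall fun _ => norm_nonneg _) ?_ h1
  filter_upwards [self_mem_nhdsWithin] with z hz
  have hz' : z ≠ 0 := hz
  have h2 := norm_exp_sub_sum_le_norm_mul_exp (κ * z) (t + 1)
  rw [show (exp (κ * z) - ∑ m ∈ Finset.range t, (κ * z) ^ m / m.factorial) / z ^ t
    - κ ^ t / t.factorial = (exp (κ * z) - ∑ m ∈ Finset.range (t + 1), (κ * z) ^ m / m.factorial)
      / z ^ t by rw [Finset.sum_range_succ, mul_pow]; field_simp; ring, norm_div,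
    div_le_iff₀ (norm_pos_iff.mpr (pow_ne_zero _ hz'))]
  refine h2.trans (le_of_eq ?_)
  rw [norm_mul, norm_pow, mul_pow]; ring

noncomputable def Mom (c : T3 → ℂ) (t : ℕ) (τ τ' : ℂ) : ℂ :=
  ∑' T, c T * eT T τ 0 τ' * (T.2.1 : ℂ) ^ t

lemma SumH.lim {c : T3 → ℂ} (hc : SumH c) (hm : ∀ T, c T ≠ 0 → 0 ≤ T.2.2) {τ τ' : ℂ}
    (h1 : 0 < τ.im) (h2 : 0 < τ'.im) {σ : ℂ → ℂ} (hσ : Tendsto σ (𝓝[≠] 0) (𝓝 τ')) {t : ℕ}
    (hlow : ∀ t' < t, ∀ w : ℂ, 0 < w.im → Mom c t' τ w = 0) :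
    Tendsto (fun z => (∑' T, c T * eT T τ z (σ z)) / z ^ t) (𝓝[≠] 0)
      (𝓝 ((2 * Real.pi * I) ^ t / t.factorial * Mom c t τ τ')) := by
  obtain ⟨δ, hδ, hs⟩ := hc.bound h1 (τ' := (τ'.im / 2 : ℝ) * I) (by simpa using h2)
  have ev1 : ∀ᶠ z in 𝓝[≠] (0 : ℂ), τ'.im / 2 < (σ z).im :=
    ((continuous_im.tendsto τ').comp hσ).eventually (lt_mem_nhds (by linarith))
  have ev2 : ∀ᶠ z in 𝓝[≠] (0 : ℂ), ‖z‖ < δ / (4 * Real.pi) :=
    ((continuous_norm.tendsto (0 : ℂ)).mono_left nhdsWithin_le_nhds).eventually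
      (gt_mem_nhds (by simp; positivity))
  have ev3 : ∀ᶠ z in 𝓝[≠] (0 : ℂ), z.im ^ 2 < τ.im * (τ'.im / 2) := by
    have : Continuous fun z : ℂ => z.im ^ 2 := by fun_prop
    exact ((this.tendsto 0).mono_left nhdsWithin_le_nhds).eventually
      (gt_mem_nhds (by simp; positivity))
  have key := tendsto_tsum_of_dominated_convergence (𝓕 := 𝓝[≠] (0 : ℂ))
    (f := fun z T => c T * eT T τ 0 (σ z) * ((exp (2 * Real.pi * I * T.2.1 * z)
      - ∑ m ∈ Finset.range t, (2 * Real.pi * I * T.2.1 * z) ^ m / m.factorial) / z ^ t))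
    (g := fun T => c T * eT T τ 0 τ' * ((2 * Real.pi * I * T.2.1) ^ t / t.factorial))
    (hs.mul_left ((2 * Real.pi) ^ t * (t.factorial / (δ / 2) ^ t))) (fun T => ?_) ?_
  · rw [Mom, ← tsum_mul_left]
    refine (key.congr' ?_).trans (le_of_eq (congrArg _ (tsum_congr fun T => by ring)))
    filter_upwards [ev1, ev3] with z hz hz3
    have hz' : 0 < (σ z).im := by linarith
    have hH : H3 τ z (σ z) := ⟨h1, hz3.trans (mul_lt_mul_of_pos_left hz h1)⟩
    have e1 : ∀ T : T3, c T * eT T τ 0 (σ z) * ((exp (2 * Real.pi * I * T.2.1 * z)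
      - ∑ m ∈ Finset.range t, (2 * Real.pi * I * T.2.1 * z) ^ m / m.factorial) / z ^ t)
      = (c T * eT T τ z (σ z) - ∑ m ∈ Finset.range t, (2 * Real.pi * I * z) ^ m / m.factorial
        * (c T * eT T τ 0 (σ z) * (T.2.1 : ℂ) ^ m)) / z ^ t := by
      intro T
      rw [← mul_div_assoc, mul_sub, Finset.mul_sum]
      congr 2
      · rw [eT, eT, e, e, mul_assoc, ← exp_add]; congr 2; ring
      · exact Finset.sum_congr rfl fun m _ => by ring
    simp_rw [e1]
    have hs2 := fun m (_ : m ∈ Finset.range t) =>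
      (hc.mom h1 hz' m).mul_left ((2 * Real.pi * I * z) ^ m / m.factorial)
    rw [tsum_div_const, (hc _ _ _ hH).tsum_sub (summable_sum hs2), Summable.tsum_finsetSum hs2,
      Finset.sum_eq_zero, sub_zero]
    intro m hm
    rw [tsum_mul_left, ← Mom, hlow m (Finset.mem_range.mp hm) _ hz', mul_zero]
  · refine Tendsto.mul (Tendsto.const_mul _ ?_) (exp_rem _ t)
    have : Continuous fun w => eT T τ 0 w := by unfold eT e; fun_prop
    exact (this.tendsto τ').comp hσ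
  · filter_upwards [ev1, ev2, self_mem_nhdsWithin] with z hz1 hz2 hz3 T
    by_cases hT : c T = 0
    · simp [hT]
    have hz' : z ≠ 0 := hz3
    have hm' : (0 : ℝ) ≤ T.2.2 := by exact_mod_cast hm T hT
    have b1 : ‖c T * eT T τ 0 (σ z)‖ ≤ ‖c T * eT T τ 0 ((τ'.im / 2 : ℝ) * I)‖ := by
      rw [norm_mul, norm_mul, eT, eT, norm_e, norm_e]
      gcongr ‖c T‖ * Real.exp ?_
      simp
      nlinarith [mul_le_mul_of_nonneg_left hz1.le hm', Real.pi_pos]
    have b2 : ‖(2 * Real.pi * I * T.2.1 * z : ℂ)‖ = 2 * Real.pi * |(T.2.1 : ℝ)| * ‖z‖ := by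
      simp [Real.pi_pos.le]
    have b3 := norm_exp_sub_sum_le_norm_mul_exp (2 * Real.pi * I * T.2.1 * z) t
    rw [b2] at b3
    have b4 : Real.exp (2 * Real.pi * |(T.2.1 : ℝ)| * ‖z‖) ≤ Real.exp (δ / 2 * |(T.2.1 : ℝ)|) := by
      apply Real.exp_le_exp.mpr
      rw [lt_div_iff₀ (by positivity)] at hz2
      nlinarith [abs_nonneg (T.2.1 : ℝ)]
    have b5 := pow_le_exp (half_pos hδ) (abs_nonneg (T.2.1 : ℝ)) t
    rw [norm_mul, norm_div, norm_pow, mul_left_comm]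
    refine mul_le_mul b1 ?_ (by positivity) (norm_nonneg _)
    rw [div_le_iff₀ (pow_pos (norm_pos_iff.mpr hz') _)]
    refine b3.trans ?_
    rw [mul_pow, mul_pow (2 * Real.pi), show δ * |(T.2.1 : ℝ)| = δ / 2 * |(T.2.1 : ℝ)|
      + δ / 2 * |(T.2.1 : ℝ)| by ring, Real.exp_add]
    calc _ ≤ (2 * Real.pi) ^ t * (t.factorial / (δ / 2) ^ t * Real.exp (δ / 2 * |(T.2.1 : ℝ)|))
          * ‖z‖ ^ t * Real.exp (δ / 2 * |(T.2.1 : ℝ)|) := by gcongr
      _ = _ := by ring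

lemma SumH.sturm {c : T3 → ℂ} (hc : SumH c) {μ k t : ℕ} (hμ : ∀ T, c T ≠ 0 → (μ : ℤ) ≤ T.1)
    (hk : k < 12 * μ) {τ' : ℂ} (h2 : 0 < τ'.im)
    (hinv : ∀ τ : ℂ, 0 < τ.im → Mom c t (-1 / τ) τ' = τ ^ k * Mom c t τ τ') {τ : ℂ}
    (h1 : 0 < τ.im) : Mom c t τ τ' = 0 := by
  let φ : T3 → ℕ := fun T => T.1.toNat
  let d : ℕ → ℂ := fun n => ∑' T : φ ⁻¹' {n}, c T * e (T.1.2.2 * τ') * (T.1.2.1 : ℂ) ^ t
  have hs : ∀ τ : ℂ, 0 < τ.im → HasSum (fun n : ℕ => d n * e (n * τ)) (Mom c t τ τ') := by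
    intro τ h1
    refine hs_congr ((hc.mom h1 h2 t).hasSum.tsum_fiberwise φ) (fun n => ?_) rfl
    rw [← tsum_mul_right]
    refine tsum_congr fun ⟨T, hT⟩ => ?_
    by_cases h0 : c T = 0
    · simp [h0]
    have h3 : T.1.toNat = n := hT
    have h4 : T.1 = n := by have := hμ T h0; omega
    simp only [eT, h4, mul_zero, add_zero, e_add]; push_cast; ring
  have := MF.sturm ⟨fun τ => Mom c t τ τ', hs, hinv⟩ (μ := μ) (fun n hn => ?_) hk
  · simpa [this] using (hs τ h1).tsum_eq.symm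
  · refine (tsum_congr fun ⟨T, hT⟩ => ?_).trans tsum_zero
    by_cases h0 : c T = 0
    · simp [h0]
    have h3 : T.1.toNat = n := hT
    have := hμ T h0
    omega

end Pool.Agent.MP_660ce2_nt

end MrgPart7

-- ======== part 8: formerly Pool.Agent.MP_660ce2_nt.pm.FinDim
section MrgPart8

set_option autoImplicit false

namespace Pool.Agent.MP_660ce2_nt

open Matrix

abbrev U : Type := Fin 240 → ℤ

def Box (N : ℕ) : Set U := {v | ∀ i, v i ∈ Set.Icc (-(480 * N : ℤ)) (480 * N)}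

lemma Box_finite (N : ℕ) : (Box N).Finite := Set.Finite.pi' fun _ => Set.finite_Icc _ _

noncomputable def Th (I1 I2 : Set U) (f : Fin 8 → Fin 240) : Arr := fun T u =>
  ∑ᶠ v ∈ {v : U × U | v.1 ∈ I1 ∧ v.2 ∈ I2 ∧ v.1 ⬝ᵥ v.1 = 120 * T.1 ∧ v.1 ⬝ᵥ v.2 = 60 * T.2.1 ∧
    v.2 ⬝ᵥ v.2 = 120 * T.2.2}, ∏ t, (u 0 * v.1 (f t) + u 1 * v.2 (f t))

def Gs (N : ℕ) : Set Arr := {A | ∃ S1 ⊆ Box N, ∃ S2 ⊆ Box N, ∃ f,
  A = Th (AddSubgroup.closure S1) (AddSubgroup.closure S2) f}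

lemma Gs_finite (N : ℕ) : (Gs N).Finite := by
  refine ((((Box_finite N).finite_subsets.prod (Box_finite N).finite_subsets).prod
    (Set.finite_univ (α := Fin 8 → Fin 240))).image fun x =>
      Th (AddSubgroup.closure x.1.1) (AddSubgroup.closure x.1.2) x.2).subset ?_
  rintro _ ⟨S1, h1, S2, h2, f, rfl⟩
  exact ⟨((S1, S2), f), ⟨⟨h1, h2⟩, trivial⟩, rfl⟩

lemma arr_mem_span {N s : ℕ} (hN : 0 < N) {L M : AddSubgroup V} (hL : EU L s)
    (hM : EU M (N * s)) (hle : M ≤ L) (a : VC) :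
    (arr L M s fun x => (a ⬝ᵥ x) ^ 8) ∈ Submodule.span ℂ (Gs N) := by
  have hs : (0 : ℤ) < s := by exact_mod_cast hL.pos
  have hN' : (0 : ℤ) < N := by exact_mod_cast hN
  let e := (Finset.equivFinOfCardEq hL.card_roots).symm
  let r : Fin 240 → V := fun i => e i
  have hr : ∀ i, r i ∈ L ∧ r i ⬝ᵥ r i = 2 * s := fun i => mem_sph.mp (e i).2
  let c : V → U := fun x i => r i ⬝ᵥ x / s
  have hc : ∀ x ∈ L, ∀ i, s * c x i = r i ⬝ᵥ x := fun x hx i =>
    Int.mul_ediv_cancel' (hL.dvd (hr i).1 hx)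
  have des : ∀ x ∈ L, ∑ i, c x i • r i = (60 : ℤ) • x := by
    intro x hx
    apply smul_right_injective V hs.ne'
    have := hL.design x
    rw [← Finset.sum_coe_sort, ← e.sum_comp] at this
    simp only [Finset.smul_sum, smul_smul, hc x hx, mul_comm (s : ℤ) 60]
    exact this
  have gram : ∀ x ∈ L, ∀ y ∈ L, s * (c x ⬝ᵥ c y) = 60 * (x ⬝ᵥ y) := by
    intro x hx y hy
    have := congrArg (· ⬝ᵥ y) (des x hx)
    simp only [sum_dotProduct, smul_dotProduct, smul_eq_mul, ← hc y hy] at this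
    rw [← this, dotProduct, Finset.mul_sum]
    exact Finset.sum_congr rfl fun i _ => by ring
  have cadd : ∀ x ∈ L, ∀ y ∈ L, c (x + y) = c x + c y := fun x hx y hy => funext fun i =>
    mul_left_cancel₀ hs.ne' (by
      rw [Pi.add_apply, mul_add, hc _ (L.add_mem hx hy), hc x hx, hc y hy, dotProduct_add])
  have csum : ∀ (k : Fin 240 → ℤ) j, c (∑ i, k i • r i) j = ∑ i, k i * c (r i) j := fun k j =>
    mul_left_cancel₀ hs.ne' (by
      rw [hc _ (L.sum_mem fun i _ => L.zsmul_mem (hr i).1 _), dotProduct_sum, Finset.mul_sum]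
      exact Finset.sum_congr rfl fun i _ => by
        rw [dotProduct_smul, mul_left_comm, hc _ (hr i).1, smul_eq_mul])
  have csm : ∀ (k : ℤ), ∀ x ∈ L, c (k • x) = k • c x := fun k x hx => funext fun i =>
    mul_left_cancel₀ hs.ne' (by
      rw [Pi.smul_apply, smul_eq_mul, mul_left_comm, hc _ (L.zsmul_mem hx _), hc x hx,
        dotProduct_smul, smul_eq_mul])
  have cr : ∀ i j, |c (r i) j| ≤ 2 := by
    intro i j
    have h1 := dot_sq_le (r j) (r i)
    rw [(hr i).2, (hr j).2, ← hc _ (hr i).1] at h1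
    refine abs_le_of_sq_le_sq (le_of_mul_le_mul_left (a := (s : ℤ) ^ 2) (by linarith)
      (by positivity)) (by norm_num)
  have cl : ∀ M' ≤ L, (∀ i, (N : ℤ) • r i ∈ M') →
      ∃ S ⊆ Box N, c '' M' = AddSubgroup.closure S := by
    intro M' h1 h2
    let J : AddSubgroup U :=
      { carrier := c '' M'
        add_mem' := by
          rintro _ _ ⟨x, hx, rfl⟩ ⟨y, hy, rfl⟩
          exact ⟨x + y, M'.add_mem hx hy, cadd x (h1 hx) y (h1 hy)⟩
        zero_mem' := ⟨0, M'.zero_mem, by ext i; simp [c]⟩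
        neg_mem' := by
          rintro _ ⟨x, hx, rfl⟩
          exact ⟨-x, M'.neg_mem hx, by simpa using csm (-1) x (h1 hx)⟩ }
    refine ⟨c '' M' ∩ Box N, Set.inter_subset_right, le_antisymm ?_
      ((AddSubgroup.closure_le J).mpr Set.inter_subset_left)⟩
    rintro _ ⟨x, hx, rfl⟩
    let y := ∑ i, (c x i / (60 * N) * N) • r i
    have hy : y ∈ M' := M'.sum_mem fun i _ => by rw [mul_smul]; exact M'.zsmul_mem (h2 i) _
    have e1 : c x = c (x - y) + ∑ i, (c x i / (60 * N)) • c ((N : ℤ) • r i) := by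
      have := cadd _ (h1 (M'.sub_mem hx hy)) _ (h1 hy)
      rw [sub_add_cancel] at this
      refine this.trans ?_; congr 1; ext j
      simp only [y, csum, csm _ _ (hr _).1, Finset.sum_apply, Pi.smul_apply, smul_eq_mul, mul_assoc]
    rw [e1]
    refine AddSubgroup.add_mem _ (AddSubgroup.subset_closure ⟨⟨_, M'.sub_mem hx hy, rfl⟩, ?_⟩)
      (AddSubgroup.sum_mem _ fun i _ => AddSubgroup.zsmul_mem _
        (AddSubgroup.subset_closure (Set.mem_inter (Set.mem_image_of_mem c (h2 i)) fun j => ?_)) _)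
    · intro j
      have e2 : (60 : ℤ) • (x - y) = ∑ i, (c x i % (60 * N)) • r i := by
        rw [smul_sub, ← des x (h1 hx), Finset.smul_sum, ← Finset.sum_sub_distrib]
        exact Finset.sum_congr rfl fun i _ => by
          rw [smul_smul, ← sub_smul, Int.emod_def]; congr 1; ring
      have e3 := congrFun (csm 60 _ (h1 (M'.sub_mem hx hy))) j
      rw [e2, csum, Pi.smul_apply, smul_eq_mul] at e3
      have e4 : |∑ i, c x i % (60 * N) * c (r i) j| ≤ ∑ _i : Fin 240, (60 * N : ℤ) * 2 := by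
        refine (Finset.abs_sum_le_sum_abs _ _).trans (Finset.sum_le_sum fun i _ => ?_)
        rw [abs_mul, abs_of_nonneg (Int.emod_nonneg _ (by omega))]
        exact mul_le_mul (Int.emod_lt_of_pos _ (by omega)).le (cr i j) (abs_nonneg _) (by omega)
      rw [e3, abs_le] at e4
      simp at e4
      constructor <;> omega
    · have := abs_le.mp (cr i j)
      rw [csm _ _ (hr i).1, Pi.smul_apply, smul_eq_mul]
      constructor <;> nlinarith
  obtain ⟨S1, b1, k1⟩ := cl L le_rfl fun i => L.zsmul_mem (hr i).1 _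
  obtain ⟨S2, b2, k2⟩ := cl M hle fun i => hL.smul_mem_sub hM hle (hr i).1
  have cinj : ∀ x ∈ L, ∀ y ∈ L, c x = c y → x = y := fun x hx y hy h =>
    smul_right_injective V (show (60 : ℤ) ≠ 0 by norm_num) (by
      simp only; rw [← des x hx, ← des y hy, h])
  have key : (arr L M s fun x => (a ⬝ᵥ x) ^ 8) = ∑ f : Fin 8 → Fin 240,
      (∏ t, (a ⬝ᵥ cx (r (f t))) / 60) • Th (c '' L) (c '' M) f := by
    ext T u
    have hset : {v : U × U | v.1 ∈ c '' L ∧ v.2 ∈ c '' M ∧ v.1 ⬝ᵥ v.1 = 120 * T.1 ∧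
        v.1 ⬝ᵥ v.2 = 60 * T.2.1 ∧ v.2 ⬝ᵥ v.2 = 120 * T.2.2}
        = (fun x : V × V => (c x.1, c x.2)) '' (fib L M s T) := by
      ext v
      constructor
      · obtain ⟨v1, v2⟩ := v
        rintro ⟨⟨x, hx, rfl⟩, ⟨y, hy, rfl⟩, h3, h4, h5⟩
        have g1 := gram x hx x hx
        have g2 := gram x hx y (hle hy)
        have g3 := gram y (hle hy) y (hle hy)
        simp only at h3 h4 h5
        rw [h3] at g1; rw [h4] at g2; rw [h5] at g3
        exact ⟨(x, y), mem_fib.mpr ⟨hx, hy, by simp only; linarith, by simp only; linarith,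
          by simp only; linarith⟩, rfl⟩
      · rintro ⟨x, hx, rfl⟩
        obtain ⟨h1, h2, h3, h4, h5⟩ := mem_fib.mp hx
        have g1 := gram _ h1 _ h1
        have g2 := gram _ h1 _ (hle h2)
        have g3 := gram _ (hle h2) _ (hle h2)
        exact ⟨⟨_, h1, rfl⟩, ⟨_, h2, rfl⟩, mul_left_cancel₀ hs.ne' (by simp only; linarith),
          mul_left_cancel₀ hs.ne' (by simp only; linarith),
          mul_left_cancel₀ hs.ne' (by simp only; linarith)⟩
    simp only [Finset.sum_apply, Pi.smul_apply, smul_eq_mul, Th, hset]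
    simp_rw [finsum_mem_image (show Set.InjOn (fun x : V × V => (c x.1, c x.2)) (fib L M s T) from
      fun x hx y hy h => Prod.ext
        (cinj _ (mem_fib.mp hx).1 _ (mem_fib.mp hy).1 (congrArg Prod.fst h))
        (cinj _ (hle (mem_fib.mp hx).2.1) _ (hle (mem_fib.mp hy).2.1) (congrArg Prod.snd h))),
      finsum_mem_coe_finset, Finset.mul_sum]
    rw [Finset.sum_comm, arr]
    refine Finset.sum_congr rfl fun x hx => ?_
    have h1 : ∀ y ∈ L, a ⬝ᵥ cx y = ∑ i, (a ⬝ᵥ cx (r i)) / 60 * c y i := by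
      intro y hy
      have h2 : cx (∑ i, c y i • r i) = ∑ i, (c y i : ℂ) • cx (r i) := by ext j; simp [cx]
      have := congrArg (fun z => a ⬝ᵥ cx z) (des y hy)
      simp only [h2, cx_smul, dotProduct_smul, dotProduct_sum, smul_eq_mul] at this
      simp only [div_mul_eq_mul_div, ← Finset.sum_div, mul_comm (a ⬝ᵥ cx (r _)), this]
      push_cast; ring
    rw [dotProduct_add, dotProduct_smul, dotProduct_smul, h1 _ (mem_fib.mp hx).1,
      h1 _ (hle (mem_fib.mp hx).2.1), smul_eq_mul, smul_eq_mul, Finset.mul_sum, Finset.mul_sum,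
      ← Finset.sum_add_distrib, Fintype.sum_pow]
    refine Finset.sum_congr rfl fun f _ => ?_
    rw [← Finset.prod_mul_distrib]
    exact Finset.prod_congr rfl fun t _ => by ring
  rw [key, k1, k2]
  exact Submodule.sum_mem _ fun f _ => Submodule.smul_mem _ _
    (Submodule.subset_span ⟨S1, b1, S2, b2, f, rfl⟩)

theorem W_finite {N : ℕ} (hN : 0 < N) : FiniteDimensional ℂ (W N) := by
  have := FiniteDimensional.span_of_finite ℂ (Gs_finite N)
  refine Submodule.finiteDimensional_of_le (S₂ := Submodule.span ℂ (Gs N)) ?_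
  rw [W, Submodule.span_le]
  rintro _ ⟨L, M, s, a, h, -, rfl⟩
  exact arr_mem_span hN h.hL h.hM h.le a

end Pool.Agent.MP_660ce2_nt

end MrgPart8

-- marker of a merged file
example : 731051 + 1371 = 731051 + 1371 := rfl
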