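import Mathlib.LinearAlgebra.Eigenspace.Triangularizable
import Mathlib.RingTheory.Flat.TorsionFree
import Mathlib.LinearAlgebra.Eigenspace.Minpoly
import Mathlib.Data.Nat.Prime.Int
import Mathlib.Analysis.Complex.Polynomial.Basic
import Mathlib.RingTheory.SimpleRing.Principal
import Mathlib.RingTheory.RegularLocalRing.Defs

set_option autoImplicit false

namespace Pool.Agent.MP_660ce2_nt

open Module Polynomial

abbrev O : Type := integralClosure ℤ ℂ

variable {E ι X : Type*} [AddCommGroup E] [Module ℂ E] [FiniteDimensional ℂ E]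

lemma joint_eigen (T : ι → End ℂ E) (hc : ∀ i j w, T i (T j w) = T j (T i w)) (n : ℕ) :
    ∀ U : Submodule ℂ E, finrank ℂ U = n → U ≠ ⊥ → (∀ i, ∀ w ∈ U, T i w ∈ U) →
      ∃ w ∈ U, w ≠ 0 ∧ ∀ i, ∃ μ : ℂ, T i w = μ • w := by
  induction n using Nat.strong_induction_on with | _ n ih =>
  intro U hn h0 hU
  by_cases h : ∀ i, ∃ μ : ℂ, ∀ w ∈ U, T i w = μ • w
  · obtain ⟨w, hw, hw0⟩ := U.ne_bot_iff.mp h0
    exact ⟨w, hw, hw0, fun i => (h i).imp fun μ hμ => hμ w hw⟩
  push Not at h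
  obtain ⟨i, hi⟩ := h
  have : Nontrivial U := Submodule.nontrivial_iff_ne_bot.mpr h0
  obtain ⟨μ, hμ⟩ := End.exists_eigenvalue ((T i).restrict (hU i))
  obtain ⟨w, hw⟩ := hμ.exists_hasEigenvector
  obtain ⟨y, hy, hy'⟩ := hi μ
  have hlt : U ⊓ (T i).eigenspace μ < U :=
    lt_of_le_of_ne inf_le_left fun h => hy' (End.mem_eigenspace_iff.mp (h.ge hy).2)
  obtain ⟨w', h1, h2⟩ := ih _ (hn ▸ Submodule.finrank_lt_finrank_of_lt hlt)
    (U ⊓ (T i).eigenspace μ) rfl
    ((Submodule.ne_bot_iff _).mpr ⟨w, ⟨w.2, End.mem_eigenspace_iff.mpr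
      (congrArg Subtype.val hw.apply_eq_smul)⟩, fun h => hw.2 (Subtype.ext h)⟩)
    fun j w hw => ⟨hU j w hw.1, End.mem_eigenspace_iff.mpr (by
      rw [hc, End.mem_eigenspace_iff.mp hw.2, map_smul])⟩
  exact ⟨w', h1.1, h2⟩

theorem deligne_serre (T : ι → End ℂ E) (hc : ∀ i j w, T i (T j w) = T j (T i w))
    (ev : X → E →ₗ[ℂ] ℂ) (sep : ∀ w, (∀ x, ev x w = 0) → w = 0)
    (hT : ∀ i w, (∀ x, ∃ n : ℤ, ev x w = n) → ∀ x, ∃ n : ℤ, ev x (T i w) = n)
    {l : ℕ} (hl : l.Prime) (P : Ideal O) [hP : P.IsPrime] (hlP : (l : O) ∈ P) (c : ι → ℤ)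
    {v : E} (hv : ∀ x, ∃ n : ℤ, ev x v = n) {x0 : X} {n0 : ℤ} (h0 : ev x0 v = n0)
    (hn0 : ¬ (l : ℤ) ∣ n0)
    (hcv : ∀ i, ∃ v', (∀ x, ∃ n : ℤ, ev x v' = n) ∧ T i v - (c i : ℂ) • v = (l : ℂ) • v') :
    ∃ w ≠ 0, ∃ b : ι → O, ∀ i, T i w = (b i : ℂ) • w ∧ b i - c i ∈ P := by
  let Λ : Submodule ℤ E :=
    { carrier := {w | ∀ x, ∃ n : ℤ, ev x w = n}
      add_mem' := fun ha hb x => by
        obtain ⟨n, hn⟩ := ha x
        obtain ⟨m, hm⟩ := hb x
        exact ⟨n + m, by simp [hn, hm]⟩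
      zero_mem' := fun x => ⟨0, by simp⟩
      smul_mem' := fun k w hw x => by
        obtain ⟨n, hn⟩ := hw x
        exact ⟨k * n, by simp [hn]⟩ }
  have fin : Module.Finite ℤ Λ := by
    obtain ⟨t, ht, hf, hsp⟩ : ∃ t ⊆ Set.range ev, t.Finite ∧
        Submodule.span ℂ t = Submodule.span ℂ (Set.range ev) := by
      obtain ⟨t, h1, h2, h3⟩ := exists_linearIndependent ℂ (Set.range ev)
      exact ⟨t, h1, h3.set_finite_of_isNoetherian, h2⟩
    have := hf.to_subtype
    have hx : ∀ (φ : t) (w : Λ), ∃ n : ℤ, φ.1 w = n := by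
      rintro ⟨_, hφ⟩ w
      obtain ⟨x, rfl⟩ := ht hφ
      exact w.2 x
    choose g hg using hx
    let G : Λ →ₗ[ℤ] (t → ℤ) := AddMonoidHom.toIntLinearMap (AddMonoidHom.mk' (fun w φ => g φ w)
      fun a b => funext fun φ => Int.cast_injective (α := ℂ) (by simp [← hg]))
    refine Module.Finite.of_injective G ((injective_iff_map_eq_zero G).mpr fun w hw => ?_)
    refine Subtype.ext (sep _ fun x => ?_)
    have h1 : ev x ∈ Submodule.span ℂ t := hsp ▸ Submodule.subset_span ⟨x, rfl⟩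
    refine Submodule.span_induction (p := fun φ _ => φ w = 0) (fun φ hφ => ?_) rfl
      (fun _ _ _ _ h1 h2 => by simp [h1, h2]) (fun _ _ _ h1 => by simp [h1]) h1
    rw [hg ⟨φ, hφ⟩ w, show g ⟨φ, hφ⟩ w = 0 from congrFun hw _, Int.cast_zero]
  let U0 := Submodule.span ℂ (Λ : Set E)
  have hU0 : ∀ i, ∀ w ∈ U0, T i w ∈ U0 := fun i w hw =>
    Submodule.span_induction (p := fun w _ => T i w ∈ U0)
      (fun w hw => Submodule.subset_span (hT i w hw)) (by simp)
      (fun _ _ _ _ h1 h2 => by rw [map_add]; exact U0.add_mem h1 h2)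
      (fun _ _ _ h1 => by rw [map_smul]; exact U0.smul_mem _ h1) hw
  have int : ∀ i (μ : ℂ), ∀ w ∈ U0, w ≠ 0 → T i w = μ • w → IsIntegral ℤ μ := by
    intro i μ w hw hw0 hμ
    let f : End ℤ Λ := ((T i).restrictScalars ℤ).restrict (p := Λ) (q := Λ) (hT i)
    obtain ⟨p, hp, hp0⟩ := LinearMap.exists_monic_and_aeval_eq_zero ℤ f
    have h1 : ∀ (p : ℤ[X]) (y : Λ), ((aeval f p y : Λ) : E)
        = aeval (T i) (p.map (Int.castRingHom ℂ)) y := by
      intro p y
      induction p using Polynomial.induction_on' with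
      | add p q h1 h2 => simp [h1, h2]
      | monomial n a =>
        have : ∀ n : ℕ, (((f ^ n) y : Λ) : E) = (T i ^ n) y := by
          intro n
          induction n with
          | zero => simp
          | succ n ih => rw [pow_succ', pow_succ', End.mul_apply, End.mul_apply, ← ih]; rfl
        simp [aeval_monomial, this]
    have h2 : aeval (T i) (p.map (Int.castRingHom ℂ)) w = 0 :=
      Submodule.span_induction (p := fun w _ => aeval (T i) (p.map (Int.castRingHom ℂ)) w = 0)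
        (fun y hy => by rw [← h1 p ⟨y, hy⟩, hp0]; rfl) (by simp)
        (fun _ _ _ _ h1 h2 => by rw [map_add, h1, h2, add_zero])
        (fun _ _ _ h1 => by rw [map_smul, h1, smul_zero]) hw
    rw [End.aeval_apply_of_hasEigenvector ⟨End.mem_eigenspace_iff.mpr hμ, hw0⟩] at h2
    exact ⟨p, hp, by rw [← eval_map]; exact (smul_eq_zero.mp h2).resolve_right hw0⟩
  let M := Submodule.span O (Λ : Set E)
  have hM : ∀ i, ∀ w ∈ M, T i w ∈ M := fun i w hw =>
    Submodule.span_induction (p := fun w _ => T i w ∈ M)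
      (fun w hw => Submodule.subset_span (hT i w hw)) (by simp)
      (fun _ _ _ _ h1 h2 => by rw [map_add]; exact M.add_mem h1 h2)
      (fun a _ _ h1 => by
        rw [Subalgebra.smul_def, map_smul, ← Subalgebra.smul_def]; exact M.smul_mem _ h1) hw
  have hMO : ∀ w ∈ M, ∃ a : O, ev x0 w = a := fun w hw =>
    Submodule.span_induction (p := fun w _ => ∃ a : O, ev x0 w = a)
      (fun w hw => by obtain ⟨n, hn⟩ := hw x0; exact ⟨n, by simpa using hn⟩) ⟨0, by simp⟩
      (fun _ _ _ _ ⟨a, h1⟩ ⟨b, h2⟩ => ⟨a + b, by simp [h1, h2]⟩)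
      (fun a _ _ ⟨b, h1⟩ => ⟨a * b, by rw [Subalgebra.smul_def, map_smul, h1]; simp⟩) hw
  have main : ∀ n, ∀ U ≤ U0, finrank ℂ U = n → (∀ i, ∀ w ∈ U, T i w ∈ U) → ∀ v ∈ U,
      (∃ a : O, a ∉ P ∧ ev x0 v = a) → (∀ i, ∃ v' ∈ M, T i v - (c i : ℂ) • v = (l : ℂ) • v') →
      ∃ w ≠ 0, ∃ b : ι → O, ∀ i, T i w = (b i : ℂ) • w ∧ b i - c i ∈ P := by
    intro n
    induction n using Nat.strong_induction_on with | _ n ih =>
    intro U hU hn hst v hv ⟨a, ha, hav⟩ hcv
    by_cases h : ∃ i, ∃ b : O, b - c i ∉ P ∧ ∃ w ∈ U, w ≠ 0 ∧ T i w = (b : ℂ) • w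
    · obtain ⟨i, b, hb, w, hw, hw0, hbw⟩ := h
      let g : End ℂ E := T i - (b : ℂ) • LinearMap.id
      have hg : ∀ y, g y = T i y - (b : ℂ) • y := fun y => rfl
      have hle : U.map g ≤ U := by
        rintro _ ⟨y, hy, rfl⟩; exact U.sub_mem (hst i y hy) (U.smul_mem _ hy)
      have hlt : finrank ℂ (U.map g) < n := by
        have := LinearMap.finrank_range_add_finrank_ker (g.domRestrict U)
        rw [LinearMap.range_domRestrict, hn] at this
        have h2 : 0 < finrank ℂ (LinearMap.ker (g.domRestrict U)) :=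
          finrank_pos_iff_exists_ne_zero.mpr ⟨⟨⟨w, hw⟩, by simp [hg, hbw]⟩, by simpa using hw0⟩
        omega
      refine ih _ hlt _ (hle.trans hU) rfl ?_ (g v) ⟨v, hv, rfl⟩ ?_ fun j => ?_
      · rintro j _ ⟨y, hy, rfl⟩
        exact ⟨T j y, hst j y hy, by simp [hg, hc i j]⟩
      · obtain ⟨v', h1, h2⟩ := hcv i
        obtain ⟨a', h3⟩ := hMO v' h1
        refine ⟨l * a' - (b - c i) * a, fun h4 => ?_, ?_⟩
        · have := P.sub_mem (P.mul_mem_right a' hlP) h4
          rw [sub_sub_cancel] at this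
          exact (hP.mem_or_mem this).elim hb ha
        · have := congrArg (ev x0) h2
          simp [hg, hav, h3] at this ⊢
          linear_combination this
      · obtain ⟨v', h1, h2⟩ := hcv j
        refine ⟨g v', M.sub_mem (hM i v' h1) (M.smul_mem b h1), ?_⟩
        rw [← map_smul g (l : ℂ), ← h2]
        simp only [hg, map_sub, map_smul, hc i j]
        module
    · push Not at h
      have hv0 : v ≠ 0 := by
        rintro rfl
        exact ha (by rw [show a = 0 from Subtype.ext (by simpa using hav.symm)]; exact P.zero_mem)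
      obtain ⟨w, hw, hw0, hμ⟩ := joint_eigen T hc _ U rfl
        ((Submodule.ne_bot_iff _).mpr ⟨v, hv, hv0⟩) hst
      choose μ hμ using hμ
      refine ⟨w, hw0, fun i => ⟨μ i, int i _ w (hU hw) hw0 (hμ i)⟩, fun i => ⟨hμ i, ?_⟩⟩
      by_contra hb
      exact h i _ hb w hw hw0 (hμ i)
  refine main _ U0 le_rfl rfl hU0 v (Submodule.subset_span hv) ⟨n0, fun h => hn0 ?_, by simpa⟩
    fun i => (hcv i).imp fun v' h => ⟨Submodule.subset_span h.1, h.2⟩
  by_contra hd
  obtain ⟨a, b, hab⟩ := (Nat.prime_iff_prime_int.mp hl).coprime_iff_not_dvd.mpr hd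
  refine hP.ne_top ((Ideal.eq_top_iff_one P).mpr ?_)
  have : (1 : O) = a * l + b * n0 := by exact_mod_cast congrArg (Int.cast : ℤ → O) hab.symm
  rw [this]
  exact P.add_mem (P.mul_mem_left _ hlP) (P.mul_mem_left _ h)

end Pool.Agent.MP_660ce2_nt
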