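import Pool.Agent.MP_660ce2_nt.pm.FinDim

set_option autoImplicit false

namespace Pool.Agent.MP_660ce2_nt

open Matrix Complex

/-- the `E8` lattice, scaled by `√2` -/
def L0 : AddSubgroup V where
  carrier := {x | 2 ∣ x 0 + x 1 + x 2 + x 3 + x 4 + x 5 + x 6 + x 7 ∧ 2 ∣ x 4 + x 5 + x 6 + x 7 ∧
    2 ∣ x 2 + x 3 + x 6 + x 7 ∧ 2 ∣ x 1 + x 3 + x 5 + x 7}
  add_mem' := by
    intro x y hx hy
    simp only [Set.mem_ofPred_eq, Pi.add_apply] at *; omega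
  zero_mem' := by simp
  neg_mem' := by
    intro x hx
    simp only [Set.mem_ofPred_eq, Pi.neg_apply] at *; omega

lemma mem_L0 {x : V} : x ∈ L0 ↔ 2 ∣ x 0 + x 1 + x 2 + x 3 + x 4 + x 5 + x 6 + x 7 ∧
    2 ∣ x 4 + x 5 + x 6 + x 7 ∧ 2 ∣ x 2 + x 3 + x 6 + x 7 ∧ 2 ∣ x 1 + x 3 + x 5 + x 7 := Iff.rfl

lemma dot8 {R : Type*} [CommRing R] (x y : Fin 8 → R) : x ⬝ᵥ y = x 0 * y 0 + x 1 * y 1 + x 2 * y 2
    + x 3 * y 3 + x 4 * y 4 + x 5 * y 5 + x 6 * y 6 + x 7 * y 7 := by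
  simp [dotProduct, Fin.sum_univ_eight]

lemma sq4 (t : ℤ) : (t % 2 = 0 ∧ t * t % 4 = 0) ∨ (t % 2 = 1 ∧ t * t % 4 = 1) := by
  obtain ⟨k, rfl | rfl⟩ := Int.even_or_odd' t
  · left; rw [show 2 * k * (2 * k) = 4 * (k * k) by ring]; omega
  · right; rw [show (2 * k + 1) * (2 * k + 1) = 4 * (k * k + k) + 1 by ring]; omega

lemma EU_L0 : EU L0 2 := by
  refine ⟨two_pos, fun x hx => ?_, fun y hy => ?_⟩
  · rw [mem_L0] at hx
    rw [dot8]
    rcases sq4 (x 0) with h0 | h0 <;> rcases sq4 (x 1) with h1 | h1 <;>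
      rcases sq4 (x 2) with h2 | h2 <;> rcases sq4 (x 3) with h3 | h3 <;>
      rcases sq4 (x 4) with h4 | h4 <;> rcases sq4 (x 5) with h5 | h5 <;>
      rcases sq4 (x 6) with h6 | h6 <;> rcases sq4 (x 7) with h7 | h7 <;> omega
  · have h1 := hy ![1, 1, 1, 1, 1, 1, 1, 1] (by rw [mem_L0]; decide)
    have h2 := hy ![0, 0, 0, 0, 1, 1, 1, 1] (by rw [mem_L0]; decide)
    have h3 := hy ![0, 0, 1, 1, 0, 0, 1, 1] (by rw [mem_L0]; decide)
    have h4 := hy ![0, 1, 0, 1, 0, 1, 0, 1] (by rw [mem_L0]; decide)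
    rw [dot8] at h1 h2 h3 h4
    simp at h1 h2 h3 h4
    exact ⟨h1, h2, h3, h4⟩

def qm (a b c d : ℤ) : V →+ V := AddMonoidHom.mk' (fun x =>
  ![a * x 0 - b * x 1 - c * x 2 - d * x 3, b * x 0 + a * x 1 - d * x 2 + c * x 3,
    c * x 0 + d * x 1 + a * x 2 - b * x 3, d * x 0 - c * x 1 + b * x 2 + a * x 3,
    a * x 4 - b * x 5 - c * x 6 - d * x 7, b * x 4 + a * x 5 - d * x 6 + c * x 7,
    c * x 4 + d * x 5 + a * x 6 - b * x 7, d * x 4 - c * x 5 + b * x 6 + a * x 7])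
  fun x y => by ext i; fin_cases i <;> simp <;> ring

lemma qm_mem (a b c d : ℤ) {x : V} (hx : x ∈ L0) : qm a b c d x ∈ L0 := by
  have : qm a b c d x = a • x + b • qm 0 1 0 0 x + c • qm 0 0 1 0 x + d • qm 0 0 0 1 x := by
    ext i
    simp only [Pi.add_apply, Pi.smul_apply, smul_eq_mul]
    fin_cases i <;> simp [qm] <;> ring
  rw [this]
  refine L0.add_mem (L0.add_mem (L0.add_mem (L0.zsmul_mem hx _) (L0.zsmul_mem ?_ _))
    (L0.zsmul_mem ?_ _)) (L0.zsmul_mem ?_ _) <;> rw [mem_L0] at hx ⊢ <;> simp [qm] <;> omega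

lemma qm_adj (a b c d : ℤ) (x y : V) : qm a b c d x ⬝ᵥ y = x ⬝ᵥ qm a (-b) (-c) (-d) y := by
  rw [dot8, dot8]; simp [qm]; ring

lemma qm_qm (a b c d : ℤ) (y : V) :
    qm a b c d (qm a (-b) (-c) (-d) y) = (a ^ 2 + b ^ 2 + c ^ 2 + d ^ 2) • y := by
  ext i
  simp only [Pi.smul_apply, smul_eq_mul]
  fin_cases i <;> simp [qm] <;> ring

lemma Lag_L0 : Lag L0 2 := by
  intro q hq
  obtain ⟨a, b, c, d, h⟩ := Nat.sum_four_squares q
  have h' : (a : ℤ) ^ 2 + b ^ 2 + c ^ 2 + d ^ 2 = q := by exact_mod_cast h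
  have hq' : (q : ℤ) ≠ 0 := by exact_mod_cast hq.ne_zero
  refine ⟨L0.map (qm a b c d), ?_, Nat.mul_pos hq.pos two_pos, ?_, fun y hy => ?_⟩
  · rintro _ ⟨x, hx, rfl⟩; exact qm_mem _ _ _ _ hx
  · rintro _ ⟨x, hx, rfl⟩
    obtain ⟨t, ht⟩ := EU_L0.even x hx
    have := qm_qm a (-b) (-c) (-d) x
    simp only [neg_neg, neg_sq, h'] at this
    exact ⟨t, by rw [qm_adj, this, dotProduct_smul, ht]; push_cast; simp; ring⟩
  · have h1 : ∀ x ∈ L0, (q : ℤ) * 2 ∣ x ⬝ᵥ qm a (-b) (-c) (-d) y := fun x hx => by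
      rw [← qm_adj]; exact_mod_cast hy _ ⟨x, hx, rfl⟩
    have h2 : ∀ i, (q : ℤ) ∣ qm a (-b) (-c) (-d) y i := by
      intro i
      have := h1 _ (EU_L0.smul_mem (Pi.single i 1))
      rw [smul_dotProduct, smul_eq_mul, single_dotProduct, one_mul, mul_comm] at this
      exact (mul_dvd_mul_iff_left two_ne_zero).mp this
    choose z hz using h2
    have hy' : qm a (-b) (-c) (-d) y = (q : ℤ) • z := funext fun i => hz i
    refine ⟨z, EU_L0.dual z fun x hx => ?_, smul_right_injective V hq' ?_⟩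
    · have := h1 x hx
      rwa [hy', dotProduct_smul, smul_eq_mul, mul_dvd_mul_iff_left hq'] at this
    · simp only
      rw [← map_zsmul, ← hy', qm_qm, h']

def enum : (d : ℕ) → ℤ → List (Fin d → ℤ)
  | 0, n => if n = 0 then [![]] else []
  | d + 1, n => [-2, -1, 0, 1, 2].flatMap fun a =>
      if a * a ≤ n then (enum d (n - a * a)).map (vecCons a) else []

lemma mem_enum : ∀ (d : ℕ) (x : Fin d → ℤ), x ⬝ᵥ x ≤ 4 → x ∈ enum d (x ⬝ᵥ x)
  | 0, x, _ => by simp [enum, Subsingleton.elim x ![]]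
  | d + 1, x, h => by
    have h1 : x ⬝ᵥ x = x 0 * x 0 + vecTail x ⬝ᵥ vecTail x := by
      simp [dotProduct, Fin.sum_univ_succ, vecTail]
    have h2 : 0 ≤ vecTail x ⬝ᵥ vecTail x := Finset.sum_nonneg fun i _ => mul_self_nonneg _
    have h3 := mem_enum d (vecTail x) (by nlinarith [mul_self_nonneg (x 0)])
    rw [enum, List.mem_flatMap]
    refine ⟨x 0, ?_, ?_⟩
    · have : -2 ≤ x 0 ∧ x 0 ≤ 2 := by constructor <;> nlinarith
      simp only [List.mem_cons, List.not_mem_nil]; omega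
    · rw [if_pos (by linarith), List.mem_map]
      exact ⟨vecTail x, by rw [h1]; simpa using h3, cons_head_tail x⟩

def rl : List V := (enum 8 4).filter fun x =>
  (x 0 + x 1 + x 2 + x 3 + x 4 + x 5 + x 6 + x 7) % 2 = 0 ∧ (x 4 + x 5 + x 6 + x 7) % 2 = 0 ∧
    (x 2 + x 3 + x 6 + x 7) % 2 = 0 ∧ (x 1 + x 3 + x 5 + x 7) % 2 = 0

lemma sum_roots (f : V → ℤ) : ∑ x ∈ sph L0 4, f x = (rl.map f).sum := by
  classical
  have h1 : sph L0 4 ⊆ rl.toFinset := by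
    intro x hx
    obtain ⟨h1, h2⟩ := mem_sph.mp hx
    rw [mem_L0] at h1
    rw [List.mem_toFinset, rl, List.mem_filter]
    exact ⟨h2 ▸ mem_enum 8 x h2.le, by simp only [decide_eq_true_eq]; omega⟩
  have h2 : (sph L0 4).card = 240 := EU_L0.card_roots
  have h3 : rl.length = 240 := by decide +kernel
  have h4 := List.toFinset_card_le rl
  have h5 := Finset.card_le_card h1
  rw [Finset.eq_of_subset_of_card_le h1 (by omega), List.sum_toFinset]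
  exact Multiset.coe_nodup.mp (Multiset.toFinset_card_eq_card_iff_nodup.mp (by
    simp only [List.toFinset_coe, Multiset.coe_card]; omega))

def p0 {R : Type*} [CommRing R] (x : Fin 8 → R) : R :=
  x 0 ^ 8 - 28 * x 0 ^ 6 * x 1 ^ 2 + 70 * x 0 ^ 4 * x 1 ^ 4 - 28 * x 0 ^ 2 * x 1 ^ 6 + x 1 ^ 8

def p7 {R : Type*} [CommRing R] (x : Fin 8 → R) : R :=
  (x 0 - x 1 + x 3) ^ 7 - 21 * (x 0 - x 1 + x 3) ^ 5 * (x 0 - x 2 - x 3) ^ 2
    + 35 * (x 0 - x 1 + x 3) ^ 3 * (x 0 - x 2 - x 3) ^ 4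
    - 7 * (x 0 - x 1 + x 3) * (x 0 - x 2 - x 3) ^ 6

lemma sum_p0 : ∑ x ∈ sph L0 4, p0 x = 1920 := by rw [sum_roots]; decide +kernel

lemma sum_p7 (a b c d : ℤ) :
    ∑ x ∈ sph L0 4, p7 x * (![2, 2, 2, 0, a, b, c, d] ⬝ᵥ x) = 40320 := by
  have h0 : ∑ x ∈ sph L0 4, p7 x * (x 0 + x 1 + x 2) = 20160 := by rw [sum_roots]; decide +kernel
  have h4 : ∑ x ∈ sph L0 4, p7 x * x 4 = 0 := by rw [sum_roots]; decide +kernel
  have h5 : ∑ x ∈ sph L0 4, p7 x * x 5 = 0 := by rw [sum_roots]; decide +kernel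
  have h6 : ∑ x ∈ sph L0 4, p7 x * x 6 = 0 := by rw [sum_roots]; decide +kernel
  have h7 : ∑ x ∈ sph L0 4, p7 x * x 7 = 0 := by rw [sum_roots]; decide +kernel
  have : ∀ x : V, p7 x * (![2, 2, 2, 0, a, b, c, d] ⬝ᵥ x) = 2 * (p7 x * (x 0 + x 1 + x 2))
      + a * (p7 x * x 4) + b * (p7 x * x 5) + c * (p7 x * x 6) + d * (p7 x * x 7) := fun x => by
    rw [dot8]; simp; ring
  simp only [this, Finset.sum_add_distrib, ← Finset.mul_sum, h0, h4, h5, h6, h7]; norm_num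

lemma I6 : I ^ 6 = -1 := by rw [show 6 = 2 + 4 from rfl, pow_add, I_sq, I_pow_four]; simp
lemma I8 : I ^ 8 = 1 := by rw [show 8 = 4 + 4 from rfl, pow_add, I_pow_four]; simp

lemma p0_harm : (p0 : VC → ℂ) ∈ Harm 8 := by
  have h := fun (ε : ℂ) (h : ε * ε = -1) => pow_mem_harm (ν := 8) (a := ![1, ε, 0, 0, 0, 0, 0, 0])
    (by rw [dot8]; simp [h])
  convert (Harm 8).smul_mem (1 / 2) ((Harm 8).add_mem (h I I_mul_I) (h (-I) (by simp))) using 1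
  ext x
  simp only [Pi.smul_apply, Pi.add_apply, smul_eq_mul]
  rw [dot8, dot8]
  simp [p0]
  ring_nf
  simp only [I6, I8, I_sq, I_pow_four]
  ring

lemma harm7 {a b w : VC} (ha : a ⬝ᵥ a = 0) (hb : b ⬝ᵥ b = 0) (haw : a ⬝ᵥ w = 0)
    (hbw : b ⬝ᵥ w = 0) (hab : a ⬝ᵥ b ≠ 0) : (fun x => (a ⬝ᵥ x) ^ 7 * (w ⬝ᵥ x)) ∈ Harm 8 := by
  let β := -(w ⬝ᵥ w) / (2 * (a ⬝ᵥ b))
  have h := fun t : ℂ => pow_mem_harm (ν := 8) (a := a + t • w + (t ^ 2 * β) • b) (by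
    simp only [add_dotProduct, dotProduct_add, smul_dotProduct, dotProduct_smul, smul_eq_mul, ha,
      hb, haw, hbw, dotProduct_comm w a, dotProduct_comm w b, dotProduct_comm b a, β]
    field_simp; ring)
  have h' := fun c t : ℂ => (Harm 8).smul_mem c ((Harm 8).sub_mem (h t) (h (-t)))
  convert (Harm 8).smul_mem (1 / 8) (add_mem (add_mem (add_mem (add_mem (add_mem (add_mem (add_mem
    (h' (8 / 9) 1) (h' (-14 / 45) 2)) (h' (56 / 495) 3)) (h' (-7 / 198) 4)) (h' (56 / 6435) 5))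
    (h' (-2 / 1287) 6)) (h' (8 / 45045) 7)) (h' (-1 / 102960) 8)) using 1
  ext x
  simp only [add_dotProduct, smul_dotProduct, smul_eq_mul, Pi.smul_apply, Pi.add_apply,
    Pi.sub_apply]
  ring

lemma p7_harm (a b c d : ℂ) :
    (fun x : VC => p7 x * (![2, 2, 2, 0, a, b, c, d] ⬝ᵥ x)) ∈ Harm 8 := by
  have h := fun (ε : ℂ) (h : ε * ε = -1) => harm7 (a := ![1 + ε, -1, -ε, 1 - ε, 0, 0, 0, 0])
    (b := ![1 - ε, -1, ε, 1 + ε, 0, 0, 0, 0]) (w := ![2, 2, 2, 0, a, b, c, d])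
    (by rw [dot8]; simp; linear_combination 3 * h) (by rw [dot8]; simp; linear_combination 3 * h)
    (by rw [dot8]; simp; ring) (by rw [dot8]; simp; ring) (by
      rw [dot8]; simp; intro h1; have : (6 : ℂ) = 0 := by linear_combination h1 + 3 * h
      norm_num at this)
  convert (Harm 8).smul_mem (1 / 2) ((Harm 8).add_mem (h I I_mul_I) (h (-I) (by simp))) using 1
  ext x
  simp only [Pi.smul_apply, Pi.add_apply, smul_eq_mul]
  generalize ![2, 2, 2, 0, a, b, c, d] ⬝ᵥ x = w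
  have e : ∀ ε : ℂ, ![1 + ε, -1, -ε, 1 - ε, 0, 0, 0, 0] ⬝ᵥ x
      = (x 0 - x 1 + x 3) + ε * (x 0 - x 2 - x 3) := fun ε => by rw [dot8]; simp; ring
  rw [e, e, p7]
  generalize x 0 - x 1 + x 3 = A
  generalize x 0 - x 2 - x 3 = B
  ring_nf
  simp only [I6, I_sq, I_pow_four]
  ring

end Pool.Agent.MP_660ce2_nt
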