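import Pool.Agent.MP_660ce2_nt.pm.E8
import Pool.Agent.MP_660ce2_nt.pm.FinDim

-- ======== part 0: formerly Pool.Agent.MP_660ce2_nt.pm.Roots
section MrgPart0

set_option autoImplicit false

namespace Pool.Agent.MP_660ce2_nt

open Matrix Complex

variable {L : AddSubgroup V} {s : ℕ}

lemma EU.counts (hL : EU L s) {x : V} (hx : x ∈ sph L (2 * s)) :
    ((sph L (2 * s)).filter fun y => x ⬝ᵥ y = s * (0 : ℤ)).card = 126 ∧
      ((sph L (2 * s)).filter fun y => x ⬝ᵥ y = s * (1 : ℤ)).card = 56 := by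
  obtain ⟨hx1, hx2⟩ := mem_sph.mp hx
  have hs : (0 : ℤ) < s := by exact_mod_cast hL.pos
  set R := sph L (2 * s) with hR
  let f : V → ℤ := fun y => x ⬝ᵥ y / s
  have hf : ∀ y ∈ R, x ⬝ᵥ y = s * f y := fun y hy =>
    (Int.mul_ediv_cancel' (hL.dvd hx1 (mem_sph.mp hy).1)).symm
  have hb : ∀ y ∈ R, -2 ≤ f y ∧ f y ≤ 2 := fun y hy => by
    have := dot_sq_le x y
    rw [hx2, (mem_sph.mp hy).2, hf y hy] at this
    have h4 : f y ^ 2 ≤ 2 ^ 2 := le_of_mul_le_mul_left (a := (s : ℤ) ^ 2) (by linarith) (by positivity)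
    exact abs_le_of_sq_le_sq' h4 (by norm_num)
  have s0 : ∑ _y ∈ R, (1 : ℤ) = 240 := by simp [hR, hL.card_roots]
  have hn : ∀ y ∈ R, -y ∈ R := fun y hy =>
    mem_sph.mpr ⟨L.neg_mem (mem_sph.mp hy).1, by simpa using (mem_sph.mp hy).2⟩
  have s1 : ∑ y ∈ R, f y = 0 := by
    refine Finset.sum_involution (fun y _ => -y) (fun y hy => ?_) (fun y hy h h' => h ?_) hn
      (fun y _ => neg_neg y)
    · apply mul_left_cancel₀ hs.ne'
      rw [mul_add, ← hf y hy, ← hf _ (hn y hy)]; simp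
    · have : y = 0 := by ext i; have := congrFun h' i; simp at this; simp; omega
      simp [f, this]
  have s2 : ∑ y ∈ R, f y ^ 2 = 120 := by
    apply mul_left_cancel₀ (pow_ne_zero 2 hs.ne')
    have := congrArg (x ⬝ᵥ ·) (hL.design x)
    simp only [dotProduct_sum, dotProduct_smul, smul_eq_mul, hx2] at this
    rw [Finset.mul_sum, Finset.sum_congr rfl fun y hy => show _ = y ⬝ᵥ x * x ⬝ᵥ y by
      rw [dotProduct_comm y, hf y hy]; ring, this]
    ring
  have n2 : ∀ ε : ℤ, ε * ε = 1 → ∑ y ∈ R, (if f y = 2 * ε then 1 else 0 : ℤ) = 1 := by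
    intro ε hε
    have hm : ε • x ∈ R := mem_sph.mpr ⟨L.zsmul_mem hx1 _, by
      rw [smul_dotProduct, dotProduct_smul, hx2, smul_eq_mul, smul_eq_mul, ← mul_assoc, hε, one_mul]⟩
    rw [Finset.sum_eq_single_of_mem _ hm, if_pos]
    · apply mul_left_cancel₀ hs.ne'
      rw [← hf _ hm, dotProduct_smul, hx2, smul_eq_mul]; ring
    · intro y hy hne
      refine if_neg fun h => hne (sub_eq_zero.mp (dotProduct_self_eq_zero.mp ?_))
      simp only [sub_dotProduct, dotProduct_sub, smul_dotProduct, dotProduct_smul, smul_eq_mul,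
        dotProduct_comm y x, hf y hy, h, hx2, (mem_sph.mp hy).2]
      linear_combination -2 * s * hε
  have p2 := n2 1 rfl
  have m2 := n2 (-1) rfl
  have key : ∀ t : ℤ, ((R.filter fun y => x ⬝ᵥ y = s * t).card : ℤ)
      = ∑ y ∈ R, if f y = t then 1 else 0 := fun t => by
    rw [Finset.card_filter]; push_cast
    exact Finset.sum_congr rfl fun y hy => by simp only [hf y hy, mul_right_inj' hs.ne']
  have k0 : ∑ y ∈ R, (if f y = 0 then 1 else 0 : ℤ) = ∑ y ∈ R, (1 - f y ^ 2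
      + 3 * (if f y = 2 * 1 then 1 else 0) + 3 * (if f y = 2 * -1 then 1 else 0)) :=
    Finset.sum_congr rfl fun y hy => by
      obtain ⟨h1, h2⟩ := hb y hy
      generalize f y = t at *
      interval_cases t <;> rfl
  have k1 : ∑ y ∈ R, 2 * (if f y = 1 then 1 else 0 : ℤ) = ∑ y ∈ R, (f y ^ 2 + f y
      - 6 * (if f y = 2 * 1 then 1 else 0) - 2 * (if f y = 2 * -1 then 1 else 0)) :=
    Finset.sum_congr rfl fun y hy => by
      obtain ⟨h1, h2⟩ := hb y hy
      generalize f y = t at *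
      interval_cases t <;> rfl
  simp only [Finset.sum_add_distrib, Finset.sum_sub_distrib, ← Finset.mul_sum, s0, s1, s2, p2, m2,
    ← key] at k0 k1
  omega

lemma arr_root (P : VC → ℂ) (r : ℤ) {k : ℕ} (h : ∀ x ∈ sph L (2 * s),
    ((sph L (2 * s)).filter fun y => x ⬝ᵥ y = s * r).card = k) :
    arr L L s P (1, r, 1) ![1, 0] = k * c1 L s P 1 := by
  simp only [arr, fib, c1, mul_one, Nat.cast_one, Finset.sum_filter, Finset.sum_product,
    Finset.mul_sum]
  refine Finset.sum_congr rfl fun x hx => ?_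
  rw [← h x hx, ← Finset.sum_filter]
  simp

lemma c1_sc {q : ℕ} (hq : 0 < q) {P : VC → ℂ} (hP : P ∈ Harm 8) (n : ℕ) :
    c1 (sc L q) (q * (q * s)) P n = q ^ 8 * c1 L s P n := by
  have hq' : (q : ℤ) ≠ 0 := by exact_mod_cast hq.ne'
  rw [c1, c1, Finset.mul_sum]
  symm
  refine Finset.sum_bij (fun x _ => (q : ℤ) • x) (fun x hx => ?_)
    (fun _ _ _ _ h => smul_right_injective V hq' h) (fun y hy => ?_) fun x _ => ?_
  · refine mem_sph.mpr ⟨⟨x, (mem_sph.mp hx).1, rfl⟩, ?_⟩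
    rw [smul_dotProduct, dotProduct_smul, (mem_sph.mp hx).2]; push_cast; simp; ring
  · obtain ⟨⟨x, hx, rfl⟩, h⟩ := mem_sph.mp hy
    refine ⟨x, mem_sph.mpr ⟨hx, mul_left_cancel₀ (mul_ne_zero hq' hq') ?_⟩, rfl⟩
    rw [smul_dotProduct, dotProduct_smul, smul_eq_mul, smul_eq_mul] at h
    push_cast at h; linarith
  · rw [cx_smul, Harm.hom hP]; simp

lemma c1_refl (hL : EU L s) {w : V} (hw : w ∈ sph L (2 * s)) {f : VC → ℂ}
    (hf : ∀ x (t : ℂ), f (x - t • cx w) = f x) : c1 L s (fun x => f x * (cx w ⬝ᵥ x)) 1 = 0 := by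
  obtain ⟨hw1, hw2⟩ := mem_sph.mp hw
  have hs : (s : ℤ) ≠ 0 := by exact_mod_cast hL.pos.ne'
  have hd : ∀ x ∈ sph L (2 * s), w ⬝ᵥ x = s * (w ⬝ᵥ x / s) := fun y hy =>
    (Int.mul_ediv_cancel' (hL.dvd hw1 (mem_sph.mp hy).1)).symm
  have he : ∀ x ∈ sph L (2 * s), w ⬝ᵥ (x - (w ⬝ᵥ x / s) • w) = s * -(w ⬝ᵥ x / s) := fun x hx => by
    rw [dotProduct_sub, dotProduct_smul, hw2, smul_eq_mul]; linear_combination hd x hx
  rw [c1, Nat.cast_one, mul_one]
  refine Finset.sum_involution (fun x _ => x - (w ⬝ᵥ x / s) • w) (fun x hx => ?_)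
    (fun x hx h h' => h ?_) (fun x hx => ?_) (fun x hx => ?_)
  · rw [cx_dot, cx_dot, he x hx, cx_sub, cx_smul, hf]
    nth_rewrite 1 [hd x hx]
    push_cast; ring
  · have := he x hx
    rw [h'] at this
    rw [cx_dot, show w ⬝ᵥ x = 0 by linarith [hd x hx]]; simp
  · refine mem_sph.mpr ⟨L.sub_mem (mem_sph.mp hx).1 (L.zsmul_mem hw1 _), ?_⟩
    simp only [sub_dotProduct, dotProduct_sub, smul_dotProduct, dotProduct_smul, smul_eq_mul,
      dotProduct_comm x w, hw2, (mem_sph.mp hx).2]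
    linear_combination (-2 * (w ⬝ᵥ x / s)) * hd x hx
  · simp only [he x hx, Int.mul_ediv_cancel_left _ hs]; simp

end Pool.Agent.MP_660ce2_nt

end MrgPart0

-- ======== part 1: formerly Pool.Agent.MP_660ce2_nt.pm.Eichler
section MrgPart1

set_option autoImplicit false

namespace Pool.Agent.MP_660ce2_nt

open Matrix

lemma EU.relIndex {L : AddSubgroup V} {s : ℕ} (hL : EU L s) (q : ℕ) :
    (MP_660ce2_nt.sc L q).relIndex L = q ^ 8 := by
  have h1 : MP_660ce2_nt.sc L q = L.map (nsmulAddMonoidHom q) := by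
    ext y; simp [mem_sc, dv, eq_comm]
  have hs : (s : ℤ) ≠ 0 := by exact_mod_cast hL.pos.ne'
  have h2 : Module.finrank ℤ L.toIntSubmodule = 8 := by
    apply le_antisymm
    · simpa using Submodule.finrank_le L.toIntSubmodule
    · have := LinearMap.finrank_le_finrank_of_injective
        (f := LinearMap.codRestrict L.toIntSubmodule ((s : ℤ) • (LinearMap.id : V →ₗ[ℤ] V))
          fun x => hL.smul_mem x) fun x y h => smul_right_injective V hs (congrArg Subtype.val h)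
      simpa using this
  rw [h1, AddSubgroup.relIndex_map_nsmul]
  exact congrArg _ h2

open Classical in
theorem EU.eichler {L N0 : AddSubgroup V} {s q : ℕ} (hL : EU L s) (hq : q.Prime) (hle : N0 ≤ L)
    (h0 : EU N0 (q * s)) : ∃ (ι : Type) (S : Finset ι) (Φ : ι → AddSubgroup V),
      (∀ i ∈ S, Φ i ≤ L ∧ EU (Φ i) (q * s)) ∧ ∀ y : V × V, y.1 ∈ L → y.2 ∈ L →
        2 * ((q : ℤ) * s) ∣ y.1 ⬝ᵥ y.1 → (q : ℤ) * s ∣ y.1 ⬝ᵥ y.2 → 2 * ((q : ℤ) * s) ∣ y.2 ⬝ᵥ y.2 →
        (S.filter fun i => y.1 ∈ Φ i ∧ y.2 ∈ Φ i).card = 2 * (1 + q) * nq L q y := by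
  have : Fact q.Prime := ⟨hq⟩
  have hs : (s : ℤ) ≠ 0 := by exact_mod_cast hL.pos.ne'
  have hs2 : 2 * (s : ℤ) ≠ 0 := mul_ne_zero two_ne_zero hs
  let G := L ⧸ (MP_660ce2_nt.sc L q).addSubgroupOf L
  let π : L →+ G := QuotientAddGroup.mk' _
  have hπ : Function.Surjective π := QuotientAddGroup.mk'_surjective _
  have hπ0 : ∀ x : L, π x = 0 ↔ dv L q x := fun x => QuotientAddGroup.eq_zero_iff x
  choose Qz hQ using fun x : L => hL.even x x.2
  choose Bz hB using fun x y : L => hL.dvd x.2 y.2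
  have Qadd : ∀ x y, Qz (x + y) = Qz x + Qz y + Bz x y := fun x y => by
    apply mul_left_cancel₀ hs2
    rw [← hQ, mul_add, mul_add, ← hQ, ← hQ, mul_assoc, ← hB]
    simp [add_dotProduct, dotProduct_add, dotProduct_comm (y : V) x]; ring
  have Qsm : ∀ (n : ℤ) x, Qz (n • x) = n ^ 2 * Qz x := fun n x => by
    apply mul_left_cancel₀ hs2
    rw [← hQ, mul_left_comm, ← hQ, AddSubgroup.coe_zsmul, smul_dotProduct, dotProduct_smul]
    simp; ring
  have Badd : ∀ x y z, Bz x (y + z) = Bz x y + Bz x z := fun x y z => by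
    apply mul_left_cancel₀ hs
    rw [← hB, mul_add, ← hB, ← hB, AddSubgroup.coe_add, dotProduct_add]
  have Bsm : ∀ (n : ℤ) x y, Bz x (n • y) = n * Bz x y := fun n x y => by
    apply mul_left_cancel₀ hs
    rw [← hB, mul_left_comm, ← hB, AddSubgroup.coe_zsmul, dotProduct_smul, smul_eq_mul]
  have Bsy : ∀ x y, Bz x y = Bz y x := fun x y => by
    apply mul_left_cancel₀ hs
    rw [← hB, ← hB, dotProduct_comm]
  choose σ hσ using hπ
  have hσ' : ∀ x, ∃ z, σ (π x) = x + (q : ℤ) • z := by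
    intro x
    obtain ⟨z, hz, h⟩ := (hπ0 (σ (π x) - x)).mp (by rw [map_sub, hσ, sub_self])
    exact ⟨⟨z, hz⟩, Subtype.ext (eq_add_of_sub_eq' h)⟩
  have eQ : ∀ x, (Qz (σ (π x)) : ZMod q) = Qz x := fun x => by
    obtain ⟨z, hz⟩ := hσ' x
    rw [hz, Qadd, Qsm, Bsm]; simp
  have eB1 : ∀ x y, (Bz x (σ (π y)) : ZMod q) = Bz x y := fun x y => by
    obtain ⟨z, hz⟩ := hσ' y
    rw [hz, Badd, Bsm]; simp
  have eB : ∀ x y, (Bz (σ (π x)) (σ (π y)) : ZMod q) = Bz x y := fun x y => by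
    rw [eB1, Bsy, eB1, Bsy]
  have ind : ∀ {p : G → Prop}, (∀ x, p (π x)) → ∀ g, p g := fun h g => hσ g ▸ h _
  have zB : ∀ x y, (Bz x y : ZMod q) = 0 ↔ ((q * s : ℕ) : ℤ) ∣ (x : V) ⬝ᵥ y := fun x y => by
    rw [ZMod.intCast_zmod_eq_zero_iff_dvd, hB, mul_comm q]; push_cast
    rw [mul_dvd_mul_iff_left hs]
  have zQ : ∀ x, (Qz x : ZMod q) = 0 ↔ 2 * ((q * s : ℕ) : ℤ) ∣ (x : V) ⬝ᵥ x := fun x => by
    rw [ZMod.intCast_zmod_eq_zero_iff_dvd, hQ, mul_comm q]; push_cast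
    rw [← mul_assoc, mul_dvd_mul_iff_left hs2]
  have hcard : Nat.card G = q ^ 8 := hL.relIndex q
  let S : QS q G :=
    { Q := fun g => Qz (σ g)
      B := AddMonoidHom.mk' (fun g => AddMonoidHom.mk' (fun h => (Bz (σ g) (σ h) : ZMod q))
          (ind fun x => ind fun y => by rw [← map_add, eB1, eB1, eB1, Badd, Int.cast_add]))
        (ind fun x => ind fun y => by
          refine AddMonoidHom.ext fun g => ?_
          simp only [AddMonoidHom.mk'_apply, AddMonoidHom.add_apply]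
          rw [← map_add, Bsy, eB1, Bsy (σ (π x)), eB1, Bsy (σ (π y)), eB1, Badd, Int.cast_add])
      add := ind fun x => ind fun y => by
        simp only [AddMonoidHom.mk'_apply]
        rw [← map_add, eQ, eQ, eQ, eB, Qadd]; push_cast; rfl
      smul := fun n => ind fun x => by rw [← map_zsmul, eQ, eQ, Qsm]; push_cast; rfl
      nd := ind fun y hy => by
        rw [hπ0]
        have h2 : ∀ x ∈ L, ((q * s : ℕ) : ℤ) ∣ x ⬝ᵥ y := fun x hx => by
          have := hy (π ⟨x, hx⟩)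
          simp only [AddMonoidHom.mk'_apply, eB] at this
          exact (zB _ _).mp this
        refine (hL.sc hq.pos).dual _ ?_
        rintro _ ⟨x, hx, rfl⟩
        rw [smul_dotProduct, smul_eq_mul, Nat.cast_mul]
        exact mul_dvd_mul_left _ (h2 x hx)
      card := hcard }
  have sQ : ∀ x, S.Q (π x) = 0 ↔ 2 * ((q * s : ℕ) : ℤ) ∣ (x : V) ⬝ᵥ x := fun x => by
    rw [← zQ, ← eQ]
  have sB : ∀ x y, S.B (π x) (π y) = 0 ↔ ((q * s : ℕ) : ℤ) ∣ (x : V) ⬝ᵥ y := fun x y => by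
    rw [← zB, ← eB]; rfl
  have : Finite G := Nat.finite_of_card_ne_zero (by rw [hcard]; exact pow_ne_zero _ hq.ne_zero)
  have := Fintype.ofFinite G
  have l0 : S.Lagr ((N0.addSubgroupOf L).map π) := by
    constructor
    · rintro _ ⟨x, hx, rfl⟩
      exact (sQ x).mpr (h0.even _ hx)
    · refine ind fun y hy => ⟨y, h0.dual _ fun x hx => ?_, rfl⟩
      exact (sB ⟨x, hle hx⟩ y).mp (hy _ ⟨_, hx, rfl⟩)
  have mΦ : ∀ (N : AddSubgroup G) (x : L), (x : V) ∈ (N.comap π).map L.subtype ↔ π x ∈ N :=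
    fun N x => ⟨fun ⟨y, hy, h⟩ => Subtype.ext h ▸ hy, fun h => ⟨x, h, rfl⟩⟩
  refine ⟨AddSubgroup G, S.lags, fun N => (N.comap π).map L.subtype, fun N hN => ?_,
    fun y h1 h2 h3 h4 h5 => ?_⟩
  · rw [QS.mem_lags] at hN
    refine ⟨AddSubgroup.map_subtype_le _, Nat.mul_pos hq.pos hL.pos, ?_, fun y hy => ?_⟩
    · rintro _ ⟨x, hx, rfl⟩
      exact (sQ x).mp (hN.1 _ hx)
    · have hy' : y ∈ L := hL.dual y fun x hx => by
        have := hy _ ((mΦ N ((q : ℤ) • ⟨x, hx⟩)).mpr (by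
          rw [(hπ0 _).mpr ⟨x, hx, rfl⟩]; exact N.zero_mem))
        rw [AddSubgroup.coe_zsmul, smul_dotProduct, smul_eq_mul, Nat.cast_mul,
          mul_dvd_mul_iff_left (by exact_mod_cast hq.ne_zero)] at this
        exact this
      refine (mΦ N ⟨y, hy'⟩).mpr (hN.2 (ind fun x hx => ?_))
      exact (sB _ _).mpr (hy _ ((mΦ N x).mpr hx))
  · have := l0.eichler (x := π ⟨y.1, h1⟩) (y := π ⟨y.2, h2⟩) ((sQ _).mpr (by exact_mod_cast h3))
      ((sQ _).mpr (by exact_mod_cast h5)) ((sB _ _).mpr (by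
        rw [dotProduct_comm]; exact_mod_cast h4))
    simp only [← map_zsmul, ← map_add, hπ0, ← mΦ] at this
    convert this using 1
    simp only [nq]
    congr

end Pool.Agent.MP_660ce2_nt

end MrgPart1

-- ======== part 2: formerly Pool.Agent.MP_660ce2_nt.pm.Eich2
section MrgPart2

set_option autoImplicit false

namespace Pool.Agent.MP_660ce2_nt

open Matrix

open Classical in
structure Fam (L : AddSubgroup V) (s q : ℕ) {ι : Type} (S : Finset ι) (Φ : ι → AddSubgroup V) :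
    Prop where
  h1 : ∀ i ∈ S, Φ i ≤ L ∧ EU (Φ i) (q * s)
  h2 : ∀ y : V × V, y.1 ∈ L → y.2 ∈ L → 2 * ((q : ℤ) * s) ∣ y.1 ⬝ᵥ y.1 →
    (q : ℤ) * s ∣ y.1 ⬝ᵥ y.2 → 2 * ((q : ℤ) * s) ∣ y.2 ⬝ᵥ y.2 →
    (S.filter fun i => y.1 ∈ Φ i ∧ y.2 ∈ Φ i).card = 2 * (1 + q) * nq L q y

lemma Lag.fam {L : AddSubgroup V} {s q : ℕ} (hL : EU L s) (h : Lag L s) (hq : q.Prime) :
    ∃ (ι : Type) (S : Finset ι) (Φ : ι → AddSubgroup V), Fam L s q S Φ := by
  obtain ⟨N, h1, h2⟩ := h q hq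
  obtain ⟨ι, S, Φ, h3, h4⟩ := hL.eichler hq h1 h2
  exact ⟨ι, S, Φ, h3, h4⟩

open Classical in
lemma sum_sub_fib {L M L' M' : AddSubgroup V} (h1 : L' ≤ L) (h2 : M' ≤ M) (s : ℕ) (T : T3)
    (g : V × V → ℂ) : ∑ y ∈ fib L' M' s T, g y
      = ∑ y ∈ fib L M s T, if y.1 ∈ L' ∧ y.2 ∈ M' then g y else 0 := by
  rw [← Finset.sum_filter]
  refine Finset.sum_congr ?_ fun _ _ => rfl
  ext y
  simp only [Finset.mem_filter, mem_fib]
  exact ⟨fun h => ⟨⟨h1 h.1, h2 h.2.1, h.2.2⟩, h.1, h.2.1⟩, fun h => ⟨h.2.1, h.2.2, h.1.2.2⟩⟩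

section
variable {L M : AddSubgroup V} {s q : ℕ} {ι : Type} {S : Finset ι} {Φ : ι → AddSubgroup V}

lemma Fam.sum (h : Fam L s q S Φ) (hle : M ≤ L) (t : ℕ) (T : T3) (g : V × V → ℂ) :
    ∑ i ∈ S, ∑ y ∈ fib (Φ i) (Φ i ⊓ M) (t * (q * s)) T, g y
      = 2 * (1 + q) * ∑ y ∈ fib L M (t * (q * s)) T, nq L q y * g y := by
  classical
  rw [Finset.sum_congr rfl fun i hi => sum_sub_fib (h.h1 i hi).1 inf_le_right _ T g,
    Finset.sum_comm, Finset.mul_sum]
  refine Finset.sum_congr rfl fun y hy => ?_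
  obtain ⟨h1, h2, h3, h4, h5⟩ := mem_fib.mp hy
  have := h.h2 y h1 (hle h2) ⟨t * T.1, by rw [h3]; push_cast; ring⟩
    ⟨t * T.2.1, by rw [h4]; push_cast; ring⟩ ⟨t * T.2.2, by rw [h5]; push_cast; ring⟩
  rw [← Finset.sum_filter, Finset.sum_const, nsmul_eq_mul, ← mul_assoc]
  congr 1
  simp only [AddSubgroup.mem_inf, h2, and_true]
  exact_mod_cast this

lemma Fam.TH {N : ℕ} (h : Fam L s q S Φ) (hA : Adm N L M s) (hc : Nat.Coprime N q) (hq : 0 < q)
    {P : VC → ℂ} (hP : P ∈ Harm 8) : (2 * (1 + q) : ℂ) • TH q (arr L M s P)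
      = ∑ i ∈ S, arr (Φ i) (Φ i ⊓ M) (q * s) P := by
  ext T u
  have := h.sum hA.le 1 T fun y => P (u 0 • cx y.1 + u 1 • cx y.2)
  rw [one_mul] at this
  simp only [Pi.smul_apply, smul_eq_mul, Finset.sum_apply, TH_arr hA.hL hA.hM hA.le hc hq hP,
    ← this, arr]

lemma two_ne (q : ℕ) : (2 * (1 + q) : ℂ) ≠ 0 := by exact_mod_cast (by omega : 2 * (1 + q) ≠ 0)

lemma TH_mem {N : ℕ} (hq : q.Prime) (hc : Nat.Coprime N q) {A : Arr} (h : A ∈ W N) :
    TH q A ∈ W N := by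
  induction h using Submodule.span_induction with
  | mem A hA =>
    obtain ⟨L, M, s, a, h, ha, rfl⟩ := hA
    obtain ⟨ι, S, Φ, hF⟩ := h.lag.fam h.hL hq
    rw [← (W N).smul_mem_iff (two_ne q), hF.TH h hc hq.pos (pow_mem_harm ha)]
    exact (W N).sum_mem fun i hi =>
      arr_mem_W (h.nb hq hc.symm (hF.h1 i hi).2 (hF.h1 i hi).1) (pow_mem_harm ha)
  | zero => simp
  | add A B _ _ h1 h2 => rw [map_add]; exact (W N).add_mem h1 h2
  | smul c A _ h1 => rw [map_smul]; exact (W N).smul_mem c h1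

lemma nq_sub {N : AddSubgroup V} {a : ℕ} (hL : EU L s) (hN : EU N (a * s)) (hle : N ≤ L)
    (hc : Nat.Coprime a q) {y : V × V} (h1 : y.1 ∈ N) (h2 : y.2 ∈ N) : nq N q y = nq L q y := by
  unfold nq
  rw [propext (dv_iff_of_cop hL hN hle hc h1), propext (dv_iff_of_cop hL hN hle hc h2)]
  congr 2
  exact Finset.sum_congr rfl fun b _ => by
    rw [propext (dv_iff_of_cop hL hN hle hc (N.add_mem h1 (N.zsmul_mem h2 b)))]

lemma TH_TH {N q' : ℕ} (hA : Adm N L M s) (hq : q.Prime) (hq' : q'.Prime) (hne : q ≠ q')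
    (hc : Nat.Coprime N q) (hc' : Nat.Coprime N q') {P : VC → ℂ} (hP : P ∈ Harm 8) (T : T3)
    (u : Fin 2 → ℂ) : TH q' (TH q (arr L M s P)) T u = ∑ y ∈ fib L M (q' * (q * s)) T,
      nq L q y * (nq L q' y * P (u 0 • cx y.1 + u 1 • cx y.2)) := by
  obtain ⟨ι, S, Φ, hF⟩ := hA.lag.fam hA.hL hq
  apply mul_left_cancel₀ (two_ne q)
  have := congrFun (congrFun (congrArg (TH q') (hF.TH hA hc hq.pos hP)) T) u
  rw [map_smul, map_sum] at this
  simp only [Pi.smul_apply, smul_eq_mul, Finset.sum_apply] at this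
  rw [this, ← hF.sum hA.le]
  refine Finset.sum_congr rfl fun i hi => ?_
  have h2 := hA.nb hq hc.symm (hF.h1 i hi).2 (hF.h1 i hi).1
  rw [TH_arr h2.hL h2.hM h2.le hc' hq'.pos hP]
  refine Finset.sum_congr rfl fun y hy => ?_
  rw [nq_sub hA.hL h2.hL (hF.h1 i hi).1 ((Nat.coprime_primes hq hq').mpr hne) (mem_fib.mp hy).1
    (mem_fib.mp hy).2.1.1]

lemma TH_comm {N q' : ℕ} (hq : q.Prime) (hq' : q'.Prime) (hc : Nat.Coprime N q)
    (hc' : Nat.Coprime N q') {A : Arr} (h : A ∈ W N) : TH q' (TH q A) = TH q (TH q' A) := by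
  by_cases hne : q = q'
  · rw [hne]
  induction h using Submodule.span_induction with
  | mem A hA =>
    obtain ⟨L, M, s, a, h, ha, rfl⟩ := hA
    ext T u
    rw [TH_TH h hq hq' hne hc hc' (pow_mem_harm ha),
      TH_TH h hq' hq (Ne.symm hne) hc' hc (pow_mem_harm ha), mul_left_comm]
    exact Finset.sum_congr rfl fun _ _ => mul_left_comm _ _ _
  | zero => simp
  | add A B _ _ h1 h2 => simp only [map_add, h1, h2]
  | smul c A _ h1 => simp only [map_smul, h1]

end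

/-- a level raising operator on Fourier coefficients -/
noncomputable def RR (p : ℕ) : Arr →ₗ[ℂ] Arr where
  toFun A := fun T u => if (p : ℤ) ∣ T.2.2 then A T u + (p : ℂ) ^ 3 *
    (if (p : ℤ) ∣ T.2.1 ∧ (p : ℤ) * p ∣ T.2.2 then A (T.1, T.2.1 / p, T.2.2 / (p * p))
      ![u 0, p * u 1] else 0) else 0
  map_add' A B := by
    ext T u
    simp only [Pi.add_apply]; split_ifs <;> ring
  map_smul' c A := by
    ext T u
    simp only [Pi.smul_apply, smul_eq_mul, RingHom.id_apply]; split_ifs <;> ring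

open Classical in
noncomputable def wp (L : AddSubgroup V) (p : ℕ) (m : ℤ) (y : V) : ℂ :=
  if (p : ℤ) ∣ m then 1 + (p : ℂ) ^ 3 * (if dv L p y then 1 else 0) else 0

section
variable {L : AddSubgroup V} {s p : ℕ} {ι : Type} {S : Finset ι} {Φ : ι → AddSubgroup V}

lemma RR_arr (hL : EU L s) (hp : 0 < p) (P : VC → ℂ) (T : T3) (u : Fin 2 → ℂ) :
    RR p (arr L L s P) T u
      = ∑ y ∈ fib L L s T, wp L p T.2.2 y.2 * P (u 0 • cx y.1 + u 1 • cx y.2) := by
  classical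
  have hq' : (p : ℤ) ≠ 0 := by exact_mod_cast hp.ne'
  have hs' : (s : ℤ) ≠ 0 := by exact_mod_cast hL.pos.ne'
  obtain ⟨n, r, m⟩ := T
  simp only [RR, LinearMap.coe_mk, AddHom.coe_mk, wp, arr]
  by_cases hm : (p : ℤ) ∣ m
  swap
  · simp [hm]
  simp only [hm, if_true, add_mul, one_mul, Finset.sum_add_distrib]
  congr 1
  refine sum_ite_bij _ _ (fun x => (x.1, (p : ℤ) • x.2)) ?_ ?_ ?_ _ _ fun x => ?_
  · rintro ⟨x, y⟩ ⟨x', y'⟩ h
    simp only [Prod.mk.injEq] at h ⊢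
    exact ⟨h.1, smul_right_injective V hq' h.2⟩
  · rintro ⟨⟨r, rfl⟩, ⟨m, rfl⟩⟩ x hx
    obtain ⟨h1, h2, h3, h4, h5⟩ := mem_fib.mp hx
    simp only [Int.mul_ediv_cancel_left _ hq', Int.mul_ediv_cancel_left _ (mul_ne_zero hq' hq')]
      at h3 h4 h5
    refine ⟨mem_fib.mpr ⟨h1, L.zsmul_mem h2 _, h3, ?_, ?_⟩, ⟨_, h2, rfl⟩⟩ <;>
      simp only [smul_dotProduct, dotProduct_smul, smul_eq_mul, h4, h5] <;> ring
  · rintro ⟨y1, y2⟩ hy ⟨x2, h8, rfl⟩
    obtain ⟨h6, -, h3, h4, h5⟩ := mem_fib.mp hy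
    obtain ⟨r', e2⟩ := hL.dvd h6 h8
    obtain ⟨m', e3⟩ := hL.even _ h8
    simp only at e2
    simp only [smul_dotProduct, dotProduct_smul, smul_eq_mul, e2, e3] at h3 h4 h5
    obtain rfl : r = p * r' := mul_left_cancel₀ hs' (by linarith)
    obtain rfl : m = p * p * m' := mul_left_cancel₀ hs' (by linarith)
    refine ⟨by simp, (y1, x2), mem_fib.mpr ⟨h6, h8, h3, ?_, ?_⟩, rfl⟩
    · rw [Int.mul_ediv_cancel_left _ hq']; exact e2
    · simp only [Int.mul_ediv_cancel_left _ (mul_ne_zero hq' hq'), e3]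
  · congr 2
    ext i; simp [cx]; ring

lemma Fam.sum2 (h : Fam L s p S Φ) {t : ℕ} (hs : 0 < s) (hc : Nat.Coprime p t) (T : T3)
    (g : V × V → ℂ) : ∑ i ∈ S, ∑ y ∈ fib L (Φ i) (t * s) T, g y
      = 2 * (1 + p) * (1 + p ^ 2) * ∑ y ∈ fib L L (t * s) T, wp L p T.2.2 y.2 * g y := by
  classical
  rw [Finset.sum_congr rfl fun i hi => sum_sub_fib le_rfl (h.h1 i hi).1 _ T g,
    Finset.sum_comm, Finset.mul_sum]
  refine Finset.sum_congr rfl fun y hy => ?_
  obtain ⟨h1, h2, -, -, h5⟩ := mem_fib.mp hy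
  rw [← Finset.sum_filter, Finset.sum_const, nsmul_eq_mul, ← mul_assoc]
  congr 1
  rw [wp]
  by_cases hm : (p : ℤ) ∣ T.2.2
  · obtain ⟨m, hm'⟩ := hm
    have := h.h2 (y.2, 0) h2 L.zero_mem ⟨t * m, by simp only [h5, hm']; push_cast; ring⟩
      (by simp) (by simp)
    have h0 : dv L p 0 := ⟨0, L.zero_mem, by simp⟩
    simp only [zero_mem, and_true, nq, h0, if_true, smul_zero, add_zero, Finset.sum_const,
      Finset.card_range, smul_eq_mul] at this
    simp only [h1, true_and, this, hm', dvd_mul_right, if_true]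
    push_cast; split_ifs <;> ring
  · rw [if_neg hm, mul_zero, Nat.cast_eq_zero, Finset.card_eq_zero, Finset.filter_eq_empty_iff]
    intro i hi hc'
    have := (h.h1 i hi).2.even _ hc'.2
    rw [h5] at this
    push_cast at this
    rw [show 2 * ((p : ℤ) * s) = 2 * s * p by ring, show 2 * ((t : ℤ) * s) * T.2.2
      = 2 * s * (t * T.2.2) by ring, mul_dvd_mul_iff_left (by positivity)] at this
    exact hm ((Nat.isCoprime_iff_coprime.mpr hc).dvd_of_dvd_mul_left this)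

lemma three_ne (q : ℕ) : (2 * (1 + q) * (1 + q ^ 2) : ℂ) ≠ 0 := by
  exact_mod_cast (by positivity : 2 * (1 + q) * (1 + q ^ 2) ≠ 0)

lemma Fam.RR (h : Fam L s p S Φ) (hL : EU L s) (hp : 0 < p) (P : VC → ℂ) :
    (2 * (1 + p) * (1 + p ^ 2) : ℂ) • RR p (arr L L s P) = ∑ i ∈ S, arr L (Φ i) s P := by
  ext T u
  have := h.sum2 hL.pos (t := 1) (by simp) T fun y => P (u 0 • cx y.1 + u 1 • cx y.2)
  rw [one_mul] at this
  simp only [Pi.smul_apply, smul_eq_mul, Finset.sum_apply, RR_arr hL hp, ← this, arr]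

lemma RR_mem (hL : EU L s) (hl : Lag L s) (hp : p.Prime) {P : VC → ℂ} (hP : P ∈ Harm 8) :
    RR p (arr L L s P) ∈ W p := by
  obtain ⟨ι, S, Φ, hF⟩ := hl.fam hL hp
  rw [← (W p).smul_mem_iff (three_ne p), hF.RR hL hp.pos]
  exact (W p).sum_mem fun i hi => arr_mem_W ⟨hL, (hF.h1 i hi).2, (hF.h1 i hi).1, hl⟩ hP

lemma TH_RR {q : ℕ} (hL : EU L s) (hl : Lag L s) (hp : p.Prime) (hq : q.Prime) (hne : p ≠ q)
    {P : VC → ℂ} (hP : P ∈ Harm 8) :
    TH q (RR p (arr L L s P)) = RR p (TH q (arr L L s P)) := by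
  have hc := (Nat.coprime_primes hp hq).mpr hne
  obtain ⟨ι, S, Φ, hF⟩ := hl.fam hL hp
  obtain ⟨κ, S', Ψ, hG⟩ := hl.fam hL hq
  have hA : Adm 1 L L s := ⟨hL, by rwa [one_mul], le_rfl, hl⟩
  ext T u
  trans ∑ y ∈ fib L L (q * s) T, wp L p T.2.2 y.2 * (nq L q y * P (u 0 • cx y.1 + u 1 • cx y.2))
  · apply mul_left_cancel₀ (three_ne p)
    have := congrFun (congrFun (congrArg (TH q) (hF.RR hL hp.pos P)) T) u
    rw [map_smul, map_sum] at this
    simp only [Pi.smul_apply, smul_eq_mul, Finset.sum_apply] at this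
    rw [this, ← hF.sum2 hL.pos hc]
    exact Finset.sum_congr rfl fun i hi =>
      TH_arr hL (hF.h1 i hi).2 (hF.h1 i hi).1 hc hq.pos hP T u
  · apply mul_left_cancel₀ (two_ne q)
    have := congrFun (congrFun (congrArg (RR p) (hG.TH hA (by simp) hq.pos hP)) T) u
    rw [map_smul, map_sum] at this
    simp only [Pi.smul_apply, smul_eq_mul, Finset.sum_apply] at this
    have h2 := hG.sum le_rfl 1 T fun y => wp L p T.2.2 y.2 * P (u 0 • cx y.1 + u 1 • cx y.2)
    rw [one_mul] at h2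
    simp only [mul_left_comm (wp L p T.2.2 _)]
    rw [this, ← h2]
    refine Finset.sum_congr rfl fun i hi => ?_
    rw [inf_eq_left.mpr (hG.h1 i hi).1, RR_arr (hG.h1 i hi).2 hp.pos]
    refine Finset.sum_congr rfl fun y hy => ?_
    unfold wp
    rw [propext (dv_iff_of_cop hL (hG.h1 i hi).2 (hG.h1 i hi).1 hc.symm (mem_fib.mp hy).2.1)]

end

end Pool.Agent.MP_660ce2_nt

end MrgPart2

-- ======== part 3: formerly Pool.Agent.MP_660ce2_nt.pm.Van2
section MrgPart3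

set_option autoImplicit false

namespace Pool.Agent.MP_660ce2_nt

open Matrix Complex Filter Topology

lemma Good.sumH {N : ℕ} {A : Arr} (hA : Good N A) (i : ℕ) : SumH fun T => comp 8 i (A T) :=
  fun _ _ _ h => (hasSum_comp 8 i fun u => (hA.summ h u).hasSum).summable

lemma Good.FS_eq {N : ℕ} {A : Arr} (hA : Good N A) {τ z τ' : ℂ} (h : H3 τ z τ') (u : Fin 2 → ℂ) :
    FS A τ z τ' u = ∑ i ∈ Finset.range 9,
      (∑' T, comp 8 i (A T) * eT T τ z τ') * (u 0 ^ (8 - i) * u 1 ^ i) := by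
  refine ((IsForm.hasSum hA.form fun u => (hA.summ h u).hasSum).eq u).trans ?_
  exact Finset.sum_congr rfl fun i _ => by
    rw [(hasSum_comp 8 i fun u => (hA.summ h u).hasSum).tsum_eq]

lemma comp_ne {j i : ℕ} {φ : (Fin 2 → ℂ) → ℂ} (h : comp j i φ ≠ 0) : φ ≠ 0 := by
  rintro rfl; simp [comp] at h

lemma ev_H3 {τ τ' : ℂ} (h1 : 0 < τ.im) (h2 : 0 < τ'.im) :
    ∀ᶠ w in 𝓝[≠] (0 : ℂ), H3 τ (τ * w) τ' := by
  have : Continuous fun w : ℂ => (τ * w).im ^ 2 := by fun_prop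
  exact (((this.tendsto 0).mono_left nhdsWithin_le_nhds).eventually
    (gt_mem_nhds (by simpa using mul_pos h1 h2))).mono fun w hw => ⟨h1, hw⟩

lemma Good.mom_inv {N : ℕ} {A : Arr} (hA : Good N A) {t : ℕ}
    (hlow : ∀ t' < t, ∀ i ≤ 8, ∀ τ τ' : ℂ, 0 < τ.im → 0 < τ'.im →
      Mom (fun T => comp 8 i (A T)) t' τ τ' = 0)
    {τ τ' : ℂ} (h1 : 0 < τ.im) (h2 : 0 < τ'.im) {i : ℕ} (hi : i ≤ 8) :
    Mom (fun T => comp 8 i (A T)) t (-1 / τ) τ'
      = τ ^ (4 + t + (8 - i)) * Mom (fun T => comp 8 i (A T)) t τ τ' := by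
  have h0 : τ ≠ 0 := by rintro rfl; simp at h1
  have hm : ∀ i T, comp 8 i (A T) ≠ 0 → 0 ≤ T.2.2 := fun i T h => (hA.supp T (comp_ne h)).2.1
  set κ : ℂ := (2 * Real.pi * I) ^ t / t.factorial with hκ
  have hκ0 : κ ≠ 0 := div_ne_zero (pow_ne_zero _ two_pi_I_ne_zero)
    (by exact_mod_cast t.factorial_ne_zero)
  have key : ∀ u : Fin 2 → ℂ, ∑ i ∈ Finset.range 9,
      κ * Mom (fun T => comp 8 i (A T)) t (-1 / τ) τ' * (u 0 ^ (8 - i) * u 1 ^ i)
      = ∑ i ∈ Finset.range 9, τ ^ (4 + t + (8 - i)) * (κ * Mom (fun T => comp 8 i (A T)) t τ τ')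
        * (u 0 ^ (8 - i) * u 1 ^ i) := by
    intro u
    have hσ : Tendsto (fun w : ℂ => τ' - τ * w ^ 2) (𝓝[≠] 0) (𝓝 τ') := by
      have : Continuous fun w : ℂ => τ' - τ * w ^ 2 := by fun_prop
      simpa using (this.tendsto 0).mono_left nhdsWithin_le_nhds
    have hw : Tendsto (fun w : ℂ => τ * w) (𝓝[≠] 0) (𝓝[≠] 0) := by
      refine tendsto_nhdsWithin_of_tendsto_nhds_of_eventually_within _ ?_ ?_
      · have : Continuous fun w : ℂ => τ * w := by fun_prop
        simpa using (this.tendsto 0).mono_left nhdsWithin_le_nhds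
      · filter_upwards [self_mem_nhdsWithin] with w hw using mul_ne_zero h0 hw
    have hu : Tendsto (fun w : ℂ => u 0 * (τ * w) + u 1) (𝓝[≠] 0) (𝓝 (u 1)) := by
      have : Continuous fun w : ℂ => u 0 * (τ * w) + u 1 := by fun_prop
      simpa using (this.tendsto 0).mono_left nhdsWithin_le_nhds
    have L1 := tendsto_finsetSum (Finset.range 9) fun i hi =>
      ((hA.sumH i).lim (hm i) (im_neg_inv h1) h2 hσ (t := t) fun t' ht' w hw =>
        hlow t' ht' i (Nat.lt_succ_iff.mp (Finset.mem_range.mp hi)) _ _ (im_neg_inv h1) hw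
        ).mul_const (u 0 ^ (8 - i) * u 1 ^ i)
    have L2 := tendsto_finsetSum (Finset.range 9) fun i hi =>
      ((((hA.sumH i).lim (hm i) h1 h2 tendsto_const_nhds (t := t) fun t' ht' w hw =>
        hlow t' ht' i (Nat.lt_succ_iff.mp (Finset.mem_range.mp hi)) _ _ h1 hw).comp hw).const_mul
        (τ ^ (4 + t + (8 - i)))).mul ((hu.pow i).const_mul (u 0 ^ (8 - i)))
    refine tendsto_nhds_unique_of_eventuallyEq L1 L2 ?_
    filter_upwards [ev_H3 h1 h2, self_mem_nhdsWithin] with w hw1 hw2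
    have hw3 : w ≠ 0 := hw2
    have e1 := hA.inv1 hw1 u
    rw [hA.FS_eq hw1.inv, hA.FS_eq hw1, show τ * w / τ = w by field_simp,
      show (τ * w) ^ 2 / τ = τ * w ^ 2 by field_simp] at e1
    simp only [div_mul_eq_mul_div, ← Finset.sum_div, e1, Finset.mul_sum, Function.comp]
    rw [Finset.sum_div]
    refine Finset.sum_congr rfl fun i _ => ?_
    simp only [cons_val_zero, cons_val_one, mul_pow, pow_add]
    field_simp
  have e1 := comp_eq (j := 8) hi (φ := fun u => ∑ i ∈ Finset.range 9,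
      κ * Mom (fun T => comp 8 i (A T)) t (-1 / τ) τ' * (u 0 ^ (8 - i) * u 1 ^ i)) fun _ => rfl
  rw [comp_eq (j := 8) hi key] at e1
  apply mul_left_cancel₀ hκ0
  rw [← e1]; ring

lemma Good.comp_swap {A : Arr} (hA : Good 1 A) {i : ℕ} (hi : i ≤ 8) (T : T3) :
    comp 8 i (A (tr 0 1 1 0 T)) = comp 8 (8 - i) (A T) := by
  refine comp_eq (c := fun i => comp 8 (8 - i) (A T)) hi fun u => ?_
  rw [hA.equi (ε := -1) (by norm_num) (one_dvd _), (hA.form T).eq, ← Finset.sum_range_reflect]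
  refine Finset.sum_congr rfl fun i hi => ?_
  have := Finset.mem_range.mp hi
  rw [show 8 + 1 - 1 - i = 8 - i by omega, show 8 - (8 - i) = i by omega]
  simp [mul_comm]

lemma Good.mom_swap {A : Arr} (hA : Good 1 A) {i : ℕ} (hi : i ≤ 8) (t : ℕ) (τ τ' : ℂ) :
    Mom (fun T => comp 8 i (A T)) t τ τ' = Mom (fun T => comp 8 (8 - i) (A T)) t τ' τ := by
  rw [Mom, ← (trE (a := 0) (b := 1) (c := 1) (d := 0) (ε := -1) (by norm_num)).tsum_eq]
  refine tsum_congr fun T => ?_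
  change comp 8 i (A (tr 0 1 1 0 T)) * eT (tr 0 1 1 0 T) τ 0 τ' * ((tr 0 1 1 0 T).2.1 : ℂ) ^ t = _
  rw [hA.comp_swap hi]
  simp [tr, eT, add_comm]

theorem Good.vanish {A : Arr} (hA : Good 1 A)
    (h0 : ∀ T : T3, T.2.1 ^ 2 = 4 * T.1 * T.2.2 → A T = 0) : A = 0 := by
  have main : ∀ μ : ℕ, ∀ T, A T ≠ 0 → ((μ + 1 : ℕ) : ℤ) ≤ T.2.2 := by
    intro μ
    induction μ with
    | zero =>
      intro T hT
      obtain ⟨-, s2, s3, -⟩ := hA.supp T hT
      refine lt_of_le_of_ne s2 fun h => hT (h0 T ?_)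
      rw [← h] at s3 ⊢; nlinarith [sq_nonneg T.2.1]
    | succ μ ih =>
      generalize hν : μ + 1 = ν at ih ⊢
      have ih' : ∀ T, A T ≠ 0 → (ν : ℤ) ≤ T.1 := by
        intro T hT
        have := ih (tr 0 1 1 0 T) fun h => hT (by
          ext u
          have := hA.equi (a := 0) (b := 1) (c := 1) (d := 0) (ε := -1) (by norm_num) (one_dvd _)
            T ![u 1, u 0]
          rw [h] at this
          have hu : u = ![u 0, u 1] := by ext i; fin_cases i <;> rfl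
          rw [hu]; simpa using this.symm)
        simpa [tr] using this
      have mom : ∀ t ≤ 2 * ν, ∀ i ≤ 8, ∀ τ τ' : ℂ, 0 < τ.im → 0 < τ'.im →
          Mom (fun T => comp 8 i (A T)) t τ τ' = 0 := by
        intro t
        induction t using Nat.strong_induction_on with | _ t iht =>
        intro ht
        have a1 : ∀ i ≤ 8, 4 + t + (8 - i) < 12 * ν → ∀ τ τ' : ℂ, 0 < τ.im → 0 < τ'.im →
            Mom (fun T => comp 8 i (A T)) t τ τ' = 0 := fun i hi hk τ τ' h1 h2 =>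
          (hA.sumH i).sturm (fun T h => ih' T (comp_ne h)) hk h2
            (fun τ h1 => hA.mom_inv (fun t' ht' => iht t' ht' (by omega)) h1 h2 hi) h1
        intro i hi τ τ' h1 h2
        by_cases hk : 4 + t + (8 - i) < 12 * ν
        · exact a1 i hi hk τ τ' h1 h2
        · rw [hA.mom_swap hi]
          exact a1 (8 - i) (by omega) (by omega) τ' τ h2 h1
      have mom' : ∀ t ≤ 2 * ν, ∀ i ≤ 8, ∀ n : ℤ,
          ∑' r : ℤ, comp 8 i (A (n, r, ν)) * eT (n, r, ν) I 0 I * (r : ℂ) ^ t = 0 := by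
        intro t ht i hi n
        refine uniq2 (C := fun T => comp 8 i (A T) * eT T I 0 I * (T.2.1 : ℂ) ^ t)
          ((hA.sumH i).mom (by simp) (by simp) t) one_pos (fun x y => ?_) n ν
        refine (tsum_congr fun T => ?_).trans (mom t ht i hi (x + I) (y + I) (by simp) (by simp))
        have : eT T (x + I) 0 (y + I) = eT T I 0 I * e (T.2.2 * y / (1 : ℝ)) * e (T.1 * x / (1 : ℝ)) := by
          simp only [eT, ← e_add]; congr 1; push_cast; ring
        rw [this]; ring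
      have step : ∀ n : ℕ, ∀ r : ℤ, A (n, r, ν) = 0 := by
        intro n
        induction n using Nat.strong_induction_on with | _ n ihn =>
        have ihn' : ∀ n' r : ℤ, n' < n → A (n', r, ν) = 0 := by
          intro n' r hn'
          by_contra hc
          have := (hA.supp _ hc).1
          lift n' to ℕ using this
          exact hc (ihn n' (by exact_mod_cast hn') r)
        have sh : ∀ c r : ℤ, c * r + c * c * ν < 0 → A (n, r, ν) = 0 := by
          intro c r hc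
          ext u
          have := hA.equi (a := 1) (b := 0) (c := c) (d := 1) (ε := 1) (by norm_num) (dvd_zero _)
            (n, r, ν) ![u 0, u 1 - u 0 * c]
          have hu : u = ![u 0, u 1] := by ext i; fin_cases i <;> rfl
          simp only [tr] at this
          rw [show (0 : ℤ) * 0 * n + 0 * 1 * r + 1 * 1 * ν = ν by ring, ihn' _ _ (by linarith)] at this
          rw [hu]; simpa using this.symm
        have hc : ∀ i ≤ 8, (fun j : Fin (2 * ν + 1) => comp 8 i (A (n, (j : ℤ) - ν, ν))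
            * eT (n, (j : ℤ) - ν, ν) I 0 I) = 0 := by
          intro i hi
          apply eq_zero_of_forall_pow_sum_mul_pow_eq_zero
            (f := fun j : Fin (2 * ν + 1) => ((((j : ℕ) : ℤ) - ν : ℤ) : ℂ))
          · intro a b hab
            have := Int.cast_injective (α := ℂ) hab
            exact Fin.ext (by omega)
          · intro t
            have hinj : Function.Injective fun j : Fin (2 * ν + 1) => ((j : ℕ) : ℤ) - ν :=
              fun a b hab => Fin.ext (by simp only at hab; omega)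
            have := mom' t (by omega) i hi n
            rw [← hinj.tsum_eq, tsum_fintype] at this
            · exact this
            · intro r hr
              have h3 : A (n, r, ν) ≠ 0 := comp_ne (left_ne_zero_of_mul (left_ne_zero_of_mul hr))
              have h4 : ¬ (-1 * r + -1 * -1 * ν < 0) := fun h => h3 (sh _ _ h)
              have h5 : ¬ (1 * r + 1 * 1 * ν < 0) := fun h => h3 (sh _ _ h)
              exact ⟨⟨(r + ν).toNat, by omega⟩, by simp only; omega⟩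
        intro r
        by_contra h3
        have h4 : ¬ (-1 * r + -1 * -1 * ν < 0) := fun h => h3 (sh _ _ h)
        have h5 : ¬ (1 * r + 1 * 1 * ν < 0) := fun h => h3 (sh _ _ h)
        apply h3
        ext u
        rw [(hA.form _).eq]
        refine Finset.sum_eq_zero fun i hi => ?_
        have := congrFun (hc i (Nat.lt_succ_iff.mp (Finset.mem_range.mp hi)))
          ⟨(r + ν).toNat, by omega⟩
        simp only [show (((r + ν).toNat : ℕ) : ℤ) - ν = r by omega, Pi.zero_apply] at this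
        rw [(mul_eq_zero.mp this).resolve_right (e_ne _), zero_mul]
      rintro ⟨n, r, m⟩ hT
      have h1 : (ν : ℤ) ≤ m := ih _ hT
      have h2 : 0 ≤ n := (hA.supp _ hT).1
      lift n to ℕ using h2
      have : m ≠ ν := by rintro rfl; exact hT (step n r)
      push_cast; omega
  ext1 T
  by_contra h
  have := main T.2.2.toNat T h
  omega

end Pool.Agent.MP_660ce2_nt

end MrgPart3

-- ======== part 4: formerly Pool.Agent.MP_660ce2_nt.pm.Van3
section MrgPart4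

set_option autoImplicit false

namespace Pool.Agent.MP_660ce2_nt

open Matrix Complex Filter Topology

lemma uniqT {c : T3 → ℂ} (H : ∀ τ z τ', H3 τ z τ' → HasSum (fun T => c T * eT T τ z τ') 0)
    (T : T3) : c T = 0 :=
  uniq3 one_pos (fun τ z τ' h => by simpa [eT] using H τ z τ' h) T

lemma par_tr (s1 s2 s3 : ℚ) : Par 1 !![s1, s2; s2, s3] 1 1 1 0 0 1 s1 s2 s3 :=
  ⟨by simp [one_fin_two], by simp [one_fin_two], by simp⟩

lemma tr_mem (s1 s2 s3 : ℤ) : fromBlocks 1 !![(s1 : ℚ), s2; s2, s3] 0 1 ∈ K 1 := by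
  refine mem_K_of ?_ (fromBlocks 1 !![s1, s2; s2, s3] 0 1) ?_
  · rw [SymplecticGroup.fromBlocks_mem_iff]
    refine ⟨?_, ?_, ?_⟩ <;> ext i j <;> fin_cases i <;> fin_cases j <;> simp
  · rintro (i | i) (j | j) <;> fin_cases i <;> fin_cases j <;> simp [pattern]

lemma gl_mem {a b c d ε : ℤ} (h : ε * (a * d - b * c) = 1) :
    fromBlocks !![(a : ℚ), b; c, d] 0 0 !![(ε * d : ℚ), -(ε * c); -(ε * b), ε * a] ∈ K 1 := by
  have h' : (ε : ℚ) * (a * d - b * c) = 1 := by exact_mod_cast h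
  refine mem_K_of ?_ (fromBlocks !![a, b; c, d] 0 0 !![ε * d, -(ε * c); -(ε * b), ε * a]) ?_
  · rw [SymplecticGroup.fromBlocks_mem_iff]
    refine ⟨?_, ?_, ?_⟩ <;> ext i j <;> fin_cases i <;> fin_cases j <;>
      simp [mul_apply, Fin.sum_univ_two] <;> linarith
  · rintro (i | i) (j | j) <;> fin_cases i <;> fin_cases j <;> simp [pattern]

lemma par_gl {a b c d ε : ℤ} (h : ε * (a * d - b * c) = 1) :
    Par !![(a : ℚ), b; c, d] 0 !![(ε * d : ℚ), -(ε * c); -(ε * b), ε * a] 1 a b c d 0 0 0 := by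
  have h' : (ε : ℚ) * (a * d - b * c) = 1 := by exact_mod_cast h
  refine ⟨by simp, ?_, by simp [z2]⟩
  ext i j; fin_cases i <;> fin_cases j <;> simp <;> linarith

theorem level_one {F : Fn} (hF : IsCuspForm 1 8 4 F) : ∀ Z ∈ H2, F Z = 0 := by
  obtain ⟨h, hh, a, ha, hs⟩ := hF.cusp _ (tr_mem 0 0 0).1
  have hh' : (h : ℂ) ≠ 0 := by exact_mod_cast hh.ne'
  have hs1 : ∀ τ z τ', H3 τ z τ' → ∀ u, HasSum
      (fun T : T3 => a T u * e ((T.1 * τ + T.2.1 * z + T.2.2 * τ') / h)) (F (mkZ τ z τ') u) := by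
    intro τ z τ' hz u
    have := hs _ (mk_mem.mpr hz) u
    rwa [hF.inv _ (tr_mem 0 0 0) _ (mk_mem.mpr hz)] at this
  have per : ∀ (s1 s2 s3 : ℤ) (T : T3), a T ≠ 0 → (h : ℤ) ∣ T.1 * s1 + T.2.1 * s2 + T.2.2 * s3 := by
    intro s1 s2 s3 T hT
    obtain ⟨u, hu⟩ := Function.ne_iff.mp hT
    have := uniq3 (c := fun T => a T u * (e (((T.1 * s1 + T.2.1 * s2 + T.2.2 * s3 : ℤ) : ℂ) / h) - 1))
      (h := h) (by exact_mod_cast hh) (fun τ z τ' hz => ?_) T
    · exact (e_div_eq_one hh).mp (sub_eq_zero.mp ((mul_eq_zero.mp this).resolve_left hu))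
    have e1 := congrFun (hF.inv _ (tr_mem s1 s2 s3) _ (mk_mem.mpr hz)) u
    rw [(par_tr s1 s2 s3).slash] at e1
    have hu' : ![u 0, u 1] = u := by ext i; fin_cases i <;> rfl
    simp [hu'] at e1
    have e2 := (hs1 (τ + s1) (z + s2) (τ' + s3) (by simpa [H3] using hz) u).sub (hs1 _ _ _ hz u)
    rw [e1, sub_self] at e2
    refine hs_congr e2 (fun T => ?_) rfl
    rw [mul_assoc, sub_mul, one_mul, ← e_add, mul_sub]; congr 3; push_cast; ring
  let ψ : T3 → T3 := fun T => (h * T.1, h * T.2.1, h * T.2.2)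
  have hz' : (h : ℤ) ≠ 0 := by exact_mod_cast hh.ne'
  have hψ : Function.Injective ψ := by
    rintro ⟨n, r, m⟩ ⟨n', r', m'⟩ hT
    simpa [ψ, hh.ne'] using hT
  let A : Arr := fun T => a (ψ T)
  have hA : ∀ τ z τ', H3 τ z τ' → ∀ u,
      HasSum (fun T => A T u * eT T τ z τ') (F (mkZ τ z τ') u) := by
    intro τ z τ' hz u
    have := (hψ.hasSum_iff fun T hT => ?_).mpr (hs1 _ _ _ hz u)
    · refine hs_congr this (fun T => ?_) rfl
      simp only [Function.comp, A, ψ, eT]; congr 2; push_cast; field_simp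
    · by_contra hc
      have h0 : a T ≠ 0 := fun h0 => hc (by simp [h0])
      obtain ⟨n, hn⟩ := per 1 0 0 T h0
      obtain ⟨r, hr⟩ := per 0 1 0 T h0
      obtain ⟨m, hm⟩ := per 0 0 1 T h0
      exact hT ⟨(n, r, m), by ext <;> simp [ψ] <;> linarith⟩
  have hFS : ∀ τ z τ', H3 τ z τ' → ∀ u, FS A τ z τ' u = F (mkZ τ z τ') u :=
    fun τ z τ' hz u => (hA _ _ _ hz u).tsum_eq
  have pos : ∀ T, A T ≠ 0 → 0 < T.1 ∧ T.2.1 ^ 2 < 4 * T.1 * T.2.2 := by
    intro T hT
    obtain ⟨p1, p2⟩ := ha _ hT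
    have h1 : (0 : ℤ) < h := by exact_mod_cast hh
    simp only [ψ] at p1 p2
    refine ⟨(mul_pos_iff_of_pos_left h1).mp p1, lt_of_mul_lt_mul_left (a := (h : ℤ) ^ 2)
      (by linarith) (by positivity)⟩
  have hG : Good 1 A := by
    refine ⟨fun T => ⟨fun i => comp 8 i (A T), fun u => sub_eq_zero.mp ?_⟩,
      fun hz u => (hA _ _ _ hz u).summable, fun T hT => ?_, fun {a b c d ε} hε _ T u => ?_,
      fun {τ z τ'} hz u => ?_, fun {τ z τ'} hz u => ?_⟩
    · refine uniqT (c := fun T => A T u - ∑ i ∈ Finset.range (8 + 1),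
        comp 8 i (A T) * (u 0 ^ (8 - i) * u 1 ^ i)) (fun τ z τ' hz => ?_) T
      have e1 := (hA _ _ _ hz u).sub (hasSum_sum (s := Finset.range (8 + 1)) fun i _ =>
        (hasSum_comp 8 i (hA _ _ _ hz)).mul_right (u 0 ^ (8 - i) * u 1 ^ i))
      rw [← IsForm.eq (hF.form _ (mk_mem.mpr hz)), sub_self] at e1
      refine hs_congr e1 (fun T => ?_) rfl
      rw [sub_mul, Finset.sum_mul]; congr 1
      exact Finset.sum_congr rfl fun i _ => by ring
    · obtain ⟨p1, p2⟩ := pos T hT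
      exact ⟨p1.le, by by_contra hc; nlinarith [sq_nonneg T.2.1], p2.le, one_dvd _⟩
    · have e1 := fun τ z τ' (hz : H3 τ z τ') =>
        congrFun (hF.inv _ (gl_mem hε) _ (mk_mem.mpr hz)) u
      simp_rw [(par_gl hε).slash] at e1
      have h4 : ((a : ℂ) * d - b * c) ^ 4 = 1 := by
        have : (a * d - b * c) ^ 4 = 1 := by
          rcases Int.eq_one_or_neg_one_of_mul_eq_one' hε with h | h <;> rw [h.2] <;> rfl
        exact_mod_cast this
      have := uniqT (c := fun T => A T u - A ((trE hε).symm T)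
        ![u 0 * a + u 1 * b, u 0 * c + u 1 * d]) (fun τ z τ' hz => ?_) (trE hε T)
      · rw [Equiv.symm_apply_apply] at this
        exact sub_eq_zero.mp this
      have e2 := hA _ _ _ (hz.par (s1 := 0) (s2 := 0) (s3 := 0) one_pos (par_gl hε).det_ne)
        ![u 0 * a + u 1 * b, u 0 * c + u 1 * d]
      have e3 := e1 _ _ _ hz
      simp only [Rat.cast_intCast, Rat.cast_one, one_mul, h4, Rat.cast_zero] at e2 e3
      rw [e3, ← (trE hε).symm.hasSum_iff] at e2
      have e4 := (hA _ _ _ hz u).sub e2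
      rw [sub_self] at e4
      refine hs_congr e4 (fun T => ?_) rfl
      simp only [Function.comp, eT_tr, sub_mul]
      congr 2
      rw [show tr a b c d ((trE hε).symm T) = T from (trE hε).apply_symm_apply T]
      simp [eT, e_zero]
    · have h0 : τ ≠ 0 := by have := hz.1; rintro rfl; simp at this
      have := congrFun (hF.inv _ (i1_mem (a := 0) (b := -1) (c := 1) (d := 0) rfl) _
        (mk_mem.mpr hz)) ![u 0 * τ, u 0 * z + u 1]
      push_cast at this
      have hu' : ![u 0, u 1] = u := by ext i; fin_cases i <;> rfl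
      rw [J1_slash 4 F hz, hu'] at this
      rw [hFS _ _ _ hz, hFS _ _ _ hz.inv, ← this]; field_simp
    · have h0 : τ' ≠ 0 := by have := hz.pos; rintro rfl; simp at this
      have := congrFun (hF.inv _ (i2_mem one_pos (a := 0) (b := -1) (c := 1) (d := 0) rfl) _
        (mk_mem.mpr hz)) ![u 0 + u 1 * ((1 : ℕ) * z), u 1 * ((1 : ℕ) * τ')]
      rw [Int.cast_zero, Int.cast_neg, Int.cast_one] at this
      have hu' : ![u 0, u 1] = u := by ext i; fin_cases i <;> rfl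
      rw [J2_slash one_pos 4 F hz, hu'] at this
      rw [hFS _ _ _ hz, hFS _ _ _ (hz.inv2 one_pos), ← this]; push_cast; field_simp
  have h0 := hG.vanish fun T hT => by
    by_contra hc
    exact absurd hT (pos T hc).2.ne
  refine H2_ind fun τ z τ' hz => ?_
  ext u
  rw [← hFS _ _ _ hz, h0]; simp [FS]

end Pool.Agent.MP_660ce2_nt

end MrgPart4

-- ======== part 5: formerly Pool.Agent.MP_660ce2_nt.pm.Eig
section MrgPart5

set_option autoImplicit false

namespace Pool.Agent.MP_660ce2_nt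

open Matrix Complex

lemma W_bd' {N : ℕ} {A : Arr} (h : A ∈ W N) (u : Fin 2 → ℂ) :
    A (1, 0, 0) u = u 0 ^ 8 * A (1, 0, 0) ![1, 0] ∧
      A (0, 0, N) u = u 1 ^ 8 * A (0, 0, N) ![0, 1] := by
  induction h using Submodule.span_induction with
  | mem A hA =>
    obtain ⟨L, M, s, a, h, ha, rfl⟩ := hA
    have e1 := arr_bd1 L M s (pow_mem_harm ha) 1
    have e2 := arr_bd2 L M N s (pow_mem_harm ha) 1
    simp only [Nat.cast_one, mul_one] at e1 e2
    simp [e1, e2]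
  | zero => simp
  | add A B _ _ h1 h2 => simp only [Pi.add_apply, mul_add]; rw [h1.1, h1.2, h2.1, h2.2]; simp
  | smul c A _ h1 => simp only [Pi.smul_apply, smul_eq_mul]; rw [h1.1, h1.2]; simp [mul_left_comm]

/-- cuspidal part -/
def W0 (N : ℕ) : Submodule ℂ Arr where
  carrier := {A | A ∈ W N ∧ A (1, 0, 0) ![1, 0] = 0 ∧ A (0, 0, N) ![0, 1] = 0}
  add_mem' := fun h h' => ⟨add_mem h.1 h'.1, by simp [h.2, h'.2]⟩
  zero_mem' := ⟨zero_mem _, rfl, rfl⟩
  smul_mem' := fun c _ h => ⟨(W N).smul_mem c h.1, by simp [h.2]⟩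

lemma W0_sing {N : ℕ} (hN : N = 1 ∨ N.Prime) {A : Arr} (h : A ∈ W0 N) (T : T3)
    (hT : T.2.1 ^ 2 = 4 * T.1 * T.2.2) : A T = 0 :=
  sing_zero hN h.1 (funext fun u => by rw [(W_bd' h.1 u).1, h.2.1]; simp)
    (funext fun u => by rw [(W_bd' h.1 u).2, h.2.2]; simp) hT

lemma TH_bd {N q : ℕ} (hq : q.Prime) (hc : Nat.Coprime N q) {A : Arr} (h : A ∈ W N) :
    TH q A - ((1 + q ^ 2) * tau q) • A ∈ W0 N := by
  have h1 : ¬ (q : ℤ) ∣ 1 := by exact_mod_cast hq.not_dvd_one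
  have hp : Prime (q : ℤ) := Nat.prime_iff_prime_int.mp hq
  have h2 : ¬ (q : ℤ) ∣ N := by exact_mod_cast (Nat.Prime.coprime_iff_not_dvd hq).mp hc.symm
  refine ⟨sub_mem (TH_mem hq hc h) ((W N).smul_mem _ h), ?_, ?_⟩
  · simp [TH, h1, (W_bd h q _).1]; ring
  · simp only [TH, LinearMap.coe_mk, AddHom.coe_mk, Pi.sub_apply, Pi.smul_apply, h2, and_false,
      if_false, smul_eq_mul]
    rw [Finset.sum_eq_single_of_mem 0 (Finset.mem_range.mpr hq.pos)]
    · simp [mul_comm (q : ℤ), (W_bd h q _).2]; ring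
    · intro a ha h0
      rw [if_neg, mul_zero]
      simp only [mul_zero, zero_add, hp.dvd_mul, h2, or_self, or_false]
      exact_mod_cast Nat.not_dvd_of_pos_of_lt (Nat.pos_of_ne_zero h0) (Finset.mem_range.mp ha)

lemma TH_one {q : ℕ} (hq : q.Prime) {A : Arr} (h : A ∈ W 1) :
    TH q A = ((1 + q ^ 2) * tau q) • A := by
  have := TH_bd hq (by simp) h
  exact sub_eq_zero.mp ((good_of_W one_pos this.1).vanish (W0_sing (Or.inl rfl) this))

lemma TH_mem0 {N q : ℕ} (hq : q.Prime) (hc : Nat.Coprime N q) {A : Arr} (h : A ∈ W0 N) :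
    TH q A ∈ W0 N := by
  rw [← sub_add_cancel (TH q A) (((1 + q ^ 2) * tau q) • A)]
  exact add_mem (TH_bd hq hc h.1) ((W0 N).smul_mem _ h)

/-- arrays with integral values -/
def IntA : Submodule ℤ Arr where
  carrier := {A | ∀ T (a b : ℤ), A T ![a, b] ∈ (Int.castRingHom ℂ).range}
  add_mem' := fun h h' T a b => add_mem (h T a b) (h' T a b)
  zero_mem' := fun _ _ _ => zero_mem _
  smul_mem' := fun c _ h T a b => zsmul_mem (h T a b) c

lemma arr_int (L M : AddSubgroup V) (s : ℕ) {P : VC → ℂ} {P' : V → ℤ} (h : ∀ x, P (cx x) = P' x) :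
    arr L M s P ∈ IntA := fun T a b =>
  sum_mem fun x _ => ⟨P' (a • x.1 + b • x.2), by rw [eq_intCast, ← h, cx_add, cx_smul, cx_smul]; rfl⟩

lemma TH_int (q : ℕ) {A : Arr} (h : A ∈ IntA) : TH q A ∈ IntA := by
  intro T a b
  have hq : ∀ n, (q : ℂ) ^ n ∈ (Int.castRingHom ℂ).range := fun n => pow_mem (natCast_mem _ q) n
  refine add_mem (add_mem (add_mem (mul_mem (hq _) ?_) (mul_mem (hq _) ?_))
    (sum_mem fun c _ => mul_mem (hq _) ?_)) (h _ a b) <;> split_ifs
  exacts [h _ a b, zero_mem _, by simpa using h _ a (q * b), zero_mem _,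
    by simpa using h _ (q * a) (b - c * a), zero_mem _]

lemma RR_int (q : ℕ) {A : Arr} (h : A ∈ IntA) : RR q A ∈ IntA := by
  intro T a b
  simp only [RR, LinearMap.coe_mk, AddHom.coe_mk]
  split_ifs
  exacts [add_mem (h _ a b) (mul_mem (pow_mem (natCast_mem _ q) 3) (by simpa using h _ a (q * b))),
    by simpa using h _ a b, zero_mem _]

end Pool.Agent.MP_660ce2_nt

end MrgPart5

-- marker of a merged file
example : 731051 + 3465 = 731051 + 3465 := rfl
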