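import Pool.Agent.MP_660ce2_nt.pm.Eig
import Pool.Agent.MP_660ce2_nt.pm.FinDim
import Pool.Agent.MP_660ce2_nt.pm.DS

set_option autoImplicit false

namespace Pool.Agent.MP_660ce2_nt

open Matrix Complex

noncomputable def A0 : Arr := arr L0 L0 2 p0

lemma A0_mem : A0 ∈ W 1 := arr_mem_W ⟨EU_L0, EU_L0, le_rfl, Lag_L0⟩ p0_harm

lemma p0_cx (x : V) : p0 (cx x) = (p0 x : ℤ) := by simp [p0, cx]

lemma c1_p0 : c1 L0 2 p0 1 = 1920 := by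
  simp only [c1, p0_cx]
  exact_mod_cast sum_p0

variable {p : ℕ}

lemma G_bd (hp : p.Prime) : RR p A0 (1, 0, 0) ![1, 0] = (1 + p ^ 3) * 1920 ∧
    RR p A0 (0, 0, p) ![0, 1] = tau p * 1920 := by
  have e1 := arr_bd1 L0 L0 2 p0_harm 1 ![1, 0]
  have e2 := arr_bd2 L0 L0 1 2 p0_harm p ![0, 1]
  rw [c1_tau EU_L0 p0_harm p] at e2
  have : ¬ (p : ℤ) * p ∣ p := by
    intro h
    have := Int.le_of_dvd (by exact_mod_cast hp.pos) h
    have : (2 : ℤ) ≤ p := by exact_mod_cast hp.two_le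
    nlinarith
  simp [c1_p0] at e1 e2
  simp [RR, A0, e1, e2, this]; ring

lemma G_eig {q : ℕ} (hp : p.Prime) (hq : q.Prime) (hne : p ≠ q) :
    TH q (RR p A0) = ((1 + q ^ 2) * tau q) • RR p A0 := by
  rw [A0, TH_RR EU_L0 Lag_L0 hp hq hne p0_harm, ← map_smul]
  exact congrArg _ (TH_one hq A0_mem)

lemma G_coef (hp : p.Prime) (h3 : 4 < p) (h12 : p % 12 ≠ 11) :
    ∃ (T : T3) (k : ℕ), (k = 126 ∨ k = 56) ∧ RR p A0 T ![1, 0] = k * 1920 := by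
  have : Fact p.Prime := ⟨hp⟩
  have key : ∀ (r b : ℤ) (k : ℕ), (r = 0 ∨ r = 1) → ((b * b + b * r + 1 : ℤ) : ZMod p) = 0 →
      A0 (1, r, 1) ![1, 0] = k * 1920 → RR p A0 (tr 1 b 0 1 (1, r, 1)) ![1, 0] = k * 1920 := by
    intro r b k hr h1 h2
    have h4 := (good_of_W one_pos A0_mem).equi (a := 1) (b := b) (c := 0) (d := 1) (ε := 1)
      (by ring) (by simp) (1, r, 1) ![1, 0]
    rw [ZMod.intCast_zmod_eq_zero_iff_dvd] at h1
    have h5 : ¬ (p : ℤ) ∣ 2 * b + r := fun h => by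
      have h6 : (p : ℤ) ∣ 4 - r * r := by
        rw [show 4 - r * r = 4 * (b * b + b * r + 1) - (2 * b + r) * (2 * b + r) by ring]
        exact dvd_sub (h1.mul_left 4) (h.mul_left _)
      have := Int.le_of_dvd (by rcases hr with rfl | rfl <;> norm_num) h6
      have := mul_self_nonneg r
      omega
    simp [tr] at h4
    simp [RR, tr, h1, h5, h4, h2]
  by_cases h4 : p % 4 = 3
  · have h5 : 3 ∣ p - 1 := by
      have : ¬ 3 ∣ p := fun h => by have := hp.eq_one_or_self_of_dvd 3 h; omega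
      obtain h | h : p % 12 = 3 ∨ p % 12 = 7 := by omega
      all_goals omega
    have : Fact (Nat.Prime 3) := ⟨by norm_num⟩
    obtain ⟨g, hg⟩ := exists_prime_orderOf_dvd_card (G := (ZMod p)ˣ) 3 (by rwa [ZMod.card_units])
    have g1 : (g : ZMod p) ^ 3 = 1 := by rw [← Units.val_pow_eq_pow_val, ← hg, pow_orderOf_eq_one]; rfl
    have g2 : (g : ZMod p) - 1 ≠ 0 := fun h => by
      rw [Units.ext (sub_eq_zero.mp h : (g : ZMod p) = (1 : (ZMod p)ˣ))] at hg; simp at hg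
    obtain ⟨b, hb⟩ := ZMod.intCast_surjective (g : ZMod p)
    refine ⟨_, 56, Or.inr rfl, key 1 b 56 (Or.inr rfl) (mul_left_cancel₀ g2 ?_) ?_⟩
    · push_cast; rw [hb]; linear_combination g1
    · rw [A0, arr_root p0 1 fun x hx => (EU_L0.counts hx).2, c1_p0]
  · obtain ⟨g, hg⟩ := ZMod.exists_sq_eq_neg_one_iff.mpr h4
    obtain ⟨b, hb⟩ := ZMod.intCast_surjective g
    refine ⟨_, 126, Or.inl rfl, key 0 b 126 (Or.inl rfl) ?_ ?_⟩
    · push_cast; rw [hb, ← hg]; ring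
    · rw [A0, arr_root p0 0 fun x hx => (EU_L0.counts hx).1, c1_p0]

lemma H_ex (hp : p.Prime) (h3 : 3 ≤ p) : ∃ H1 ∈ W p, ∃ H2' ∈ W p, H1 ∈ IntA ∧ H2' ∈ IntA ∧
    H1 (1, 0, 0) ![1, 0] = 40320 ∧ H1 (0, 0, p) ![0, 1] = 0 ∧
    H2' (1, 0, 0) ![1, 0] = 0 ∧ H2' (0, 0, p) ![0, 1] = p ^ 8 * 40320 := by
  classical
  obtain ⟨a, b, c, d, h⟩ := Nat.sum_four_squares (p - 3)
  have h' : (a : ℤ) ^ 2 + b ^ 2 + c ^ 2 + d ^ 2 + 3 = p := by
    have : a ^ 2 + b ^ 2 + c ^ 2 + d ^ 2 + 3 = p := by omega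
    exact_mod_cast this
  let w : V := ![2, 2, 2, 0, 2 * a, 2 * b, 2 * c, 2 * d]
  have hw : w ∈ L0 := by rw [mem_L0]; simp [w]
  have hw2 : w ⬝ᵥ w = 2 * ((p : ℤ) * (2 : ℕ)) := by rw [dot8]; simp [w]; linarith
  obtain ⟨ι, S, Φ, hF⟩ := Lag_L0.fam EU_L0 hp
  have := hF.h2 (w, 0) hw L0.zero_mem (by rw [hw2]) (by simp) (by simp)
  obtain ⟨i, hi⟩ := Finset.card_pos.mp (this ▸ Nat.mul_pos (by omega) (Nat.succ_pos _))
  obtain ⟨hi, hwi, -⟩ := Finset.mem_filter.mp hi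
  obtain ⟨hle, hM⟩ := hF.h1 i hi
  let P : VC → ℂ := fun x => p7 x * (cx w ⬝ᵥ x)
  have hP : P ∈ Harm 8 := by
    convert p7_harm (2 * a) (2 * b) (2 * c) (2 * d) using 4
    ext i; fin_cases i <;> simp [w, cx]
  have hPi : ∀ x, P (cx x) = (p7 x * (w ⬝ᵥ x) : ℤ) := fun x => by
    simp only [P, cx_dot]; simp [p7, cx]
  have k1 : c1 L0 2 P 1 = 40320 := by
    simp only [c1, hPi]
    exact_mod_cast sum_p7 _ _ _ _
  have k2 : c1 (Φ i) (p * 2) P 1 = 0 := c1_refl hM (mem_sph.mpr ⟨hwi, by rw [hw2]; push_cast; rfl⟩)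
    fun x t => by simp [p7, w, cx]
  have e1 := arr_bd1 L0 (Φ i) 2 hP 1 ![1, 0]
  have e2 := arr_bd2 L0 (Φ i) p 2 hP 1 ![0, 1]
  have e3 := arr_bd1 (Φ i) (sc L0 p) (p * 2) hP 1 ![1, 0]
  have e4 := arr_bd2 (Φ i) (sc L0 p) p (p * 2) hP 1 ![0, 1]
  rw [c1_sc hp.pos hP] at e4
  refine ⟨_, arr_mem_W ⟨EU_L0, hM, hle, Lag_L0⟩ hP, _, arr_mem_W ⟨hM, EU_L0.sc hp.pos, ?_,
    Lag.sub EU_L0 Lag_L0 hp hM hle⟩ hP, arr_int _ _ _ hPi, arr_int _ _ _ hPi,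
    by simpa [k1] using e1, by simpa [k2] using e2, by simpa [k2] using e3, by simpa [k1] using e4⟩
  rintro _ ⟨x, hx, rfl⟩
  exact EU_L0.smul_mem_sub hM hle hx

lemma zs (n : ℤ) (A : Arr) (T : T3) (u : Fin 2 → ℂ) : (n • A) T u = n * A T u := zsmul_eq_mul _ _

theorem main (hp : p.Prime) (h691 : p % 691 = 690) (h12 : p % 12 ≠ 11) (𝔓 : Ideal O) [𝔓.IsPrime]
    (hP : ((691 : ℕ) : O) ∈ 𝔓) : ∃ A ∈ W0 p, A ≠ 0 ∧ ∃ b : ℕ → O, ∀ q : ℕ, q.Prime → q ≠ p →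
      TH q A = (b q : ℂ) • A ∧ b q - (((1 + q ^ 2) * (1 + q ^ 11) : ℤ) : O) ∈ 𝔓 := by
  obtain ⟨H1, m1, H2', m2, i1, i2, b1, b2, b3, b4⟩ := H_ex hp (by omega)
  obtain ⟨T0, k, hk, hT0⟩ := G_coef hp (by omega) h12
  obtain ⟨g1, g2⟩ := G_bd hp
  have mG : RR p A0 ∈ W p := RR_mem EU_L0 Lag_L0 hp p0_harm
  have iG : RR p A0 ∈ IntA := RR_int _ (arr_int _ _ _ p0_cx)
  obtain ⟨t, ht⟩ : (691 : ℤ) ∣ p + 1 := by omega
  obtain ⟨x, hx⟩ : (691 : ℤ) ∣ p ^ 3 + 1 ^ 3 := (Dvd.intro _ ht.symm).trans (Odd.add_dvd_pow_add_pow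
    _ _ (by decide))
  obtain ⟨y, hy⟩ : (691 : ℤ) ∣ p ^ 11 + 1 ^ 11 := (Dvd.intro _ ht.symm).trans
    (Odd.add_dvd_pow_add_pow _ _ (by decide))
  obtain ⟨z, hz⟩ := tau_cong hp
  have hx' : (p : ℂ) ^ 3 + 1 = 691 * x := by exact_mod_cast hx
  have hy' : (p : ℂ) ^ 11 + 1 = 691 * y := by exact_mod_cast hy
  let H : Arr := (432000 * x * p ^ 8 : ℤ) • H1 + (432000 * y + z : ℤ) • H2'
  have mH : H ∈ W p := add_mem (zsmul_mem m1 _) (zsmul_mem m2 _)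
  have iH : H ∈ IntA := add_mem (zsmul_mem i1 _) (zsmul_mem i2 _)
  let v : Arr := (9072000 * p ^ 8 : ℤ) • RR p A0 - (691 : ℤ) • H
  have mv : v ∈ W0 p := by
    refine ⟨sub_mem (zsmul_mem mG _) (zsmul_mem mH _), ?_, ?_⟩ <;>
      simp only [v, H, Pi.sub_apply, Pi.add_apply, zs, g1, g2, b1, b2, b3, b4] <;> push_cast
    · linear_combination (40320 * 432000 * p ^ 8 : ℂ) * hx'
    · linear_combination (40320 * p ^ 8 : ℂ) * (hz + 432000 * hy')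
  have := W_finite hp.pos
  have : FiniteDimensional ℂ (W0 p) := Submodule.finiteDimensional_of_le (S₂ := W p) fun _ h => h.1
  have cop : ∀ q : {q : ℕ // q.Prime ∧ q ≠ p}, Nat.Coprime p q := fun q =>
    (Nat.coprime_primes hp q.2.1).mpr q.2.2.symm
  let ev : T3 × ℤ × ℤ → W0 p →ₗ[ℂ] ℂ := fun x =>
    ⟨⟨fun w => w.1 x.1 ![x.2.1, x.2.2], fun _ _ => rfl⟩, fun _ _ => rfl⟩
  have evI : ∀ w : W0 p, (∀ x, ∃ n : ℤ, ev x w = n) ↔ w.1 ∈ IntA := fun w =>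
    ⟨fun h T a b => (h (T, a, b)).imp fun _ h => h.symm,
      fun h x => (h x.1 x.2.1 x.2.2).imp fun _ h => h.symm⟩
  obtain ⟨n1, hn1⟩ := iH T0 1 0
  refine (deligne_serre (ι := {q : ℕ // q.Prime ∧ q ≠ p}) (E := W0 p)
    (fun q => (TH q).restrict fun A h => TH_mem0 q.2.1 (cop q) h)
    (fun i j w => Subtype.ext (TH_comm j.2.1 i.2.1 (cop j) (cop i) w.2.1)) ev
    (fun w h => Subtype.ext (funext fun T => ((good_of_W hp.pos w.2.1).form T).eq_zero fun a b =>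
      h (T, a, b))) (fun i w h => (evI _).mpr (TH_int i ((evI w).mp h))) (l := 691) (by norm_num) 𝔓
    hP (fun q => (1 + q ^ 2) * (1 + q ^ 11)) (v := ⟨v, mv⟩)
    ((evI _).mpr (sub_mem (zsmul_mem iG _) (zsmul_mem iH _))) (x0 := (T0, 1, 0))
    (n0 := 9072000 * p ^ 8 * (k * 1920) - 691 * n1) ?_ ?_ ?_).elim fun w ⟨hw, b, hb⟩ => ?_
  · simp only [eq_intCast, Int.cast_one, Int.cast_zero] at hn1
    simp only [ev, v, LinearMap.coe_mk, AddHom.coe_mk, Pi.sub_apply, zs]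
    push_cast
    rw [hn1, hT0]
  · intro h
    have h1 := (Int.dvd_iff_dvd_of_dvd_sub (Dvd.intro _ (sub_sub_cancel _ _).symm)).mpr h
    have h2 : Prime (691 : ℤ) := Int.prime_iff_natAbs_prime.mpr (by norm_num)
    simp only [Nat.cast_ofNat, h2.dvd_mul] at h1
    have := h2.dvd_of_dvd_pow (a := (p : ℤ)) (n := 8)
    omega
  · intro q
    obtain ⟨s, hs⟩ := tau_cong q.2.1
    refine ⟨(691 : ℂ)⁻¹ • _, (evI _).mpr ?_, (smul_inv_smul₀ (by norm_num) _).symm⟩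
    convert sub_mem (zsmul_mem iG (21 * p ^ 8 * (1 + q ^ 2) * s)) (sub_mem (TH_int q iH)
      (zsmul_mem iH ((1 + q ^ 2) * (1 + q ^ 11)))) using 1
    ext T u
    simp only [Submodule.coe_smul, Submodule.coe_sub, LinearMap.coe_restrict_apply, v, map_sub,
      map_zsmul, G_eig hp q.2.1 q.2.2.symm, Pi.sub_apply, Pi.smul_apply, smul_eq_mul]
    simp only [zsmul_eq_mul]
    push_cast
    linear_combination (21 / 691 * p ^ 8 * (1 + q ^ 2) * RR p A0 T u : ℂ) * hs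
  · classical
    refine ⟨w, w.2, fun h => hw (Subtype.ext h), fun q => if h : q.Prime ∧ q ≠ p then b ⟨q, h⟩
      else 0, fun q h1 h2 => ?_⟩
    simp only [dif_pos (And.intro h1 h2)]
    exact ⟨congrArg Subtype.val (hb ⟨q, h1, h2⟩).1, (hb ⟨q, h1, h2⟩).2⟩

end Pool.Agent.MP_660ce2_nt
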